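import Pool.Agent.H460BZ.Anch2
import Pool.Agent.R373.SQ.Stmts

set_option autoImplicit false

namespace Pool.Agent.R62.SQD

open Finset
open Pool.Agent.H460BZ (vf tf vf_sum tf_sum tv_sum sum_prod_pi)

/-- colour of the `k`-th element -/
def col (σ : ℕ → ℤ) (k : ℕ) : ℤ := if k % 2 = 0 then σ (k / 2) else - σ (k / 2)

theorem col_even (σ : ℕ → ℤ) (j : ℕ) : col σ (2 * j) = σ j := by
  unfold col
  rw [if_pos (by omega)]
  congr 1
  omega

theorem col_odd (σ : ℕ → ℤ) (j : ℕ) : col σ (2 * j + 1) = - σ j := by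
  unfold col
  rw [if_neg (by omega)]
  congr 2
  omega

theorem col_pm (σ : ℕ → ℤ) (hσ : ∀ i, σ i = 1 ∨ σ i = -1) (k : ℕ) :
    col σ k = 1 ∨ col σ k = -1 := by
  unfold col
  split_ifs
  · exact hσ _
  · rcases hσ (k / 2) with h | h <;> rw [h] <;> norm_num

theorem sum_even (σ : ℕ → ℤ) (P : ℕ → ℝ) (m : ℕ) :
    ∑ k ∈ range (2 * m), (col σ k : ℝ) * P k =
      ∑ j ∈ range m, (σ j : ℝ) * (P (2 * j) - P (2 * j + 1)) := by
  induction m with
  | zero => simp
  | succ m ih =>
    rw [show 2 * (m + 1) = 2 * m + 1 + 1 by ring, Finset.sum_range_succ, Finset.sum_range_succ, ih,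
      Finset.sum_range_succ, col_even, col_odd]
    push_cast
    ring

theorem sum_any (σ : ℕ → ℤ) (P : ℕ → ℝ) (s : ℕ) :
    ∑ k ∈ range s, (col σ k : ℝ) * P k =
      ∑ j ∈ range (s / 2), (σ j : ℝ) * (P (2 * j) - P (2 * j + 1)) +
        (if s % 2 = 1 then (σ (s / 2) : ℝ) * P (2 * (s / 2)) else 0) := by
  rcases Nat.mod_two_eq_zero_or_one s with h | h
  · rw [if_neg (by omega), add_zero, ← sum_even]
    congr 2
    omega
  · rw [if_pos h, ← sum_even]
    have : s = 2 * (s / 2) + 1 := by omega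
    conv_lhs => rw [this]
    rw [Finset.sum_range_succ, col_even]

theorem cosh_add_le (x y : ℝ) : Real.cosh (x + y) ≤ Real.exp |y| * Real.cosh x := by
  rw [Real.cosh_eq, Real.cosh_eq]
  have h1 : Real.exp (x + y) ≤ Real.exp |y| * Real.exp x := by
    rw [← Real.exp_add]
    exact Real.exp_le_exp.mpr (by linarith [le_abs_self y])
  have h2 : Real.exp (-(x + y)) ≤ Real.exp |y| * Real.exp (-x) := by
    rw [← Real.exp_add]
    exact Real.exp_le_exp.mpr (by linarith [neg_abs_le y])
  linarith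

theorem three_exp : 3 * Real.exp (1 / 200) ≤ 4 := by
  have h1 : Real.exp (1 / 200) ≤ 4 / 3 := by
    have := Real.exp_bound_div_one_sub_of_interval (x := 1 / 200) (by norm_num) (by norm_num)
    refine this.trans ?_
    norm_num
  linarith

/-- initial segments -/
theorem init_nat {N : ℕ} (g : Fin N → ℕ) (hg : Monotone g) (a : ℕ) :
    ∃ m ≤ N, ∀ k : Fin N, g k < a ↔ (k : ℕ) < m := by
  classical
  by_cases h : ∀ k, g k < a
  · exact ⟨N, le_rfl, fun k => ⟨fun _ => k.2, fun _ => h k⟩⟩
  · push Not at h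
    have hex : ∃ k : ℕ, ∃ hk : k < N, ¬ g ⟨k, hk⟩ < a := by
      obtain ⟨k, hk⟩ := h
      exact ⟨k, k.2, not_lt.mpr hk⟩
    obtain ⟨m, ⟨h1, h2⟩, h3⟩ : ∃ m : ℕ, (∃ hk : m < N, ¬ g ⟨m, hk⟩ < a) ∧
        ∀ k < m, ¬ ∃ hk : k < N, ¬ g ⟨k, hk⟩ < a :=
      ⟨Nat.find hex, Nat.find_spec hex, fun k hk => Nat.find_min hex hk⟩
    refine ⟨m, h1.le, fun k => ⟨fun hk => ?_, fun hk => ?_⟩⟩
    · by_contra hc
      push Not at hc
      exact h2 (lt_of_le_of_lt (hg (show (⟨m, h1⟩ : Fin N) ≤ k from hc)) hk)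
    · by_contra hc
      exact h3 k hk ⟨k.2, hc⟩

theorem half (σ : ℕ → ℤ) (hσ : ∀ i, σ i = 1 ∨ σ i = -1) (M : ℕ) :
    ((univ : Finset (Fin (2 * M))).filter (fun k : Fin (2 * M) => col σ (k : ℕ) = 1)).card = M := by
  have h1 : ∑ k : Fin (2 * M), (col σ k : ℝ) = 0 := by
    rw [Fin.sum_univ_eq_sum_range (fun k => (col σ k : ℝ)) (2 * M)]
    have := sum_even σ (fun _ => 1) M
    simp only [mul_one, sub_self, mul_zero, Finset.sum_const_zero] at this
    exact this
  have h2 : ∀ k : Fin (2 * M), (col σ k : ℝ) = 2 * (if col σ k = 1 then (1:ℝ) else 0) - 1 := by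
    intro k
    rcases col_pm σ hσ k with h | h
    · rw [h]; norm_num
    · rw [h]; norm_num
  rw [Finset.sum_congr rfl (fun k _ => h2 k), Finset.sum_sub_distrib, ← Finset.mul_sum,
    Finset.sum_boole] at h1
  simp only [Finset.sum_const, Finset.card_univ, Fintype.card_fin, nsmul_eq_mul, mul_one] at h1
  push_cast at h1
  have : ((((univ : Finset (Fin (2 * M))).filter
      (fun k : Fin (2 * M) => col σ (k : ℕ) = 1)).card : ℕ) : ℝ) = (M : ℝ) := by
    linarith
  exact_mod_cast this

theorem diff_eq {α : Type} [DecidableEq α] (I J : Finset α) (hJ : J ⊆ I) (A : α → Prop)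
    [DecidablePred A] :
    ((J.filter A).card : ℝ) - (((I \ J).filter A).card : ℝ) =
      ∑ q ∈ I, (if q ∈ J then (1:ℝ) else -1) * (if A q then 1 else 0) := by
  rw [← Finset.sum_sdiff hJ]
  rw [Finset.sum_congr rfl (g := fun q => - (if A q then (1:ℝ) else 0)) (s₁ := I \ J) (fun q hq => by
    rw [if_neg (Finset.mem_sdiff.mp hq).2]; ring)]
  rw [Finset.sum_congr rfl (g := fun q => (if A q then (1:ℝ) else 0)) (s₁ := J) (fun q hq => by
    rw [if_pos hq]; ring)]
  rw [Finset.sum_neg_distrib, Finset.sum_boole, Finset.sum_boole]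
  ring

end Pool.Agent.R62.SQD

open Finset Pool.Agent.R62.SQD Pool.Agent.R373.SQ in
open Pool.Agent.H460BZ (vf tf vf_sum tf_sum tv_sum sum_prod_pi) in
theorem Pool.Agent.R62.SQD.D_ok : St_D := by
  classical
  intro hP D n H hH hH0 α ρ hρ I M hI w hw
  let e : Fin (2 * M) ≃ I :=
    (Tuple.sort (fun k : Fin (2 * M) => ρ 0 (((I.equivFinOfCardEq hI).symm k : I) : α))).trans
      (I.equivFinOfCardEq hI).symm
  have he : Monotone (fun k => ρ 0 ((e k : I) : α)) :=
    Tuple.monotone_sort (fun k : Fin (2 * M) => ρ 0 (((I.equivFinOfCardEq hI).symm k : I) : α))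
  let r : Fin D → ℕ → ℕ := fun i k =>
    if hk : k < 2 * M then ρ i.succ ((e ⟨k, hk⟩ : I) : α) else 0
  have hr : ∀ i k, r i k ≤ n := by
    intro i k
    simp only [r]
    split_ifs
    · exact hρ _ _
    · exact Nat.zero_le _
  have hs : ∀ t : Fin (D + 1) → Fin (n + 1), ∃ m ≤ 2 * M, ∀ k : Fin (2 * M),
      ρ 0 ((e k : I) : α) < (t 0 : ℕ) ↔ (k : ℕ) < m := fun t => init_nat _ he _
  choose s hs1 hs2 using hs
  let V : ℕ → (Fin D → Fin H × Fin (n + 1)) → ℝ := fun k x => ∏ i, vf H n (r i k) (x i)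
  let P : (Fin (D + 1) → Fin (n + 1)) → ℕ → ℝ := fun t k =>
    ∏ i : Fin D, (if r i k < (t i.succ : ℕ) then (1:ℝ) else 0)
  let S : (Fin (D + 1) → Fin (n + 1)) → (Fin D → Fin H × Fin (n + 1)) → ℝ := fun t x =>
    ∏ i, tf H n (t i.succ) (x i)
  have hV : ∀ k, ∑ x, V k x ^ 2 = (H : ℝ) ^ D := by
    intro k
    simp only [V]
    simp_rw [← Finset.prod_pow]
    rw [sum_prod_pi (fun i y => vf H n (r i k) y ^ 2),
      Finset.prod_congr rfl (fun i _ => vf_sum H n (r i k) (hr i k))]
    simp
  have hS : ∀ t, ∑ x, S t x ^ 2 ≤ (H : ℝ) ^ D := by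
    intro t
    simp only [S]
    simp_rw [← Finset.prod_pow]
    rw [sum_prod_pi (fun i y => tf H n (t i.succ) y ^ 2)]
    refine (Finset.prod_le_prod (fun i _ => Finset.sum_nonneg fun y _ => sq_nonneg _)
      (fun i _ => tf_sum H n (t i.succ))).trans ?_
    simp
  have hSV : ∀ t k, ∑ x, S t x * V k x = P t k := by
    intro t k
    simp only [S, V, P]
    simp_rw [← Finset.prod_mul_distrib]
    rw [sum_prod_pi (fun i y => tf H n (t i.succ) y * vf H n (r i k) y)]
    refine Finset.prod_congr rfl fun i _ => ?_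
    rw [tv_sum H n (t i.succ) (r i k) (hr i k)
      (lt_of_le_of_lt (Nat.lt_succ_iff.mp (t i.succ).2) hH)]
  let v : ℕ → Option (Fin D → Fin H × Fin (n + 1)) → ℝ := fun j y =>
    match y with
    | none => √(4 * (H : ℝ) ^ D - ∑ x, (V (2 * j) x - V (2 * j + 1) x) ^ 2)
    | some x => V (2 * j) x - V (2 * j + 1) x
  let S' : (Fin (D + 1) → Fin (n + 1)) → Option (Fin D → Fin H × Fin (n + 1)) → ℝ := fun t y =>
    match y with
    | none => 0
    | some x => S t x
  have hHD : (0:ℝ) < (H : ℝ) ^ D := by positivity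
  have hv : ∀ j, ∑ y, v j y ^ 2 = 4 * (H : ℝ) ^ D := by
    intro j
    rw [Fintype.sum_option]
    simp only [v]
    rw [Real.sq_sqrt]
    · ring
    · have : ∑ x, (V (2 * j) x - V (2 * j + 1) x) ^ 2 ≤
          ∑ x, (2 * V (2 * j) x ^ 2 + 2 * V (2 * j + 1) x ^ 2) := by
        refine Finset.sum_le_sum fun x _ => ?_
        nlinarith [sq_nonneg (V (2 * j) x + V (2 * j + 1) x)]
      rw [Finset.sum_add_distrib, ← Finset.mul_sum, ← Finset.mul_sum, hV, hV] at this
      linarith
  have hS' : ∀ t, ∑ y, S' t y ^ 2 ≤ (H : ℝ) ^ D := by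
    intro t
    rw [Fintype.sum_option]
    simp only [S']
    have := hS t
    linarith
  have hSv : ∀ t j, ∑ y, S' t y * v j y = P t (2 * j) - P t (2 * j + 1) := by
    intro t j
    rw [Fintype.sum_option]
    simp only [S', v]
    rw [zero_mul, zero_add]
    simp_rw [mul_sub]
    rw [Finset.sum_sub_distrib, hSV, hSV]
  obtain ⟨σ, hσ, hmain⟩ := hP (Option (Fin D → Fin H × Fin (n + 1))) (Fin (D + 1) → Fin (n + 1)) M
    v S' (fun t => s t / 2) w (4 * (H : ℝ) ^ D) ((H : ℝ) ^ D) (by positivity) hHD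
    (fun k _ => hv k) hS' (fun t => by have := hs1 t; omega) hw
  have hsqrt : 100 * √(4 * (H : ℝ) ^ D * (H : ℝ) ^ D) = 200 * (H : ℝ) ^ D := by
    rw [show 4 * (H : ℝ) ^ D * (H : ℝ) ^ D = (2 * (H : ℝ) ^ D) ^ 2 by ring,
      Real.sqrt_sq (by positivity)]
    ring
  rw [hsqrt] at hmain
  let K : Finset (Fin (2 * M)) := univ.filter (fun k => col σ k = 1)
  let emb : Fin (2 * M) ↪ α := e.toEmbedding.trans (Function.Embedding.subtype _)
  have hemb : ∀ k, emb k = ((e k : I) : α) := fun k => rfl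
  refine ⟨K.map emb, ?_, ?_, ?_⟩
  · intro q hq
    rw [Finset.mem_map] at hq
    obtain ⟨k, _, rfl⟩ := hq
    exact (e k).2
  · rw [Finset.card_map]
    exact half σ hσ M
  · have hJI : K.map emb ⊆ I := by
      intro q hq
      rw [Finset.mem_map] at hq
      obtain ⟨k, _, rfl⟩ := hq
      exact (e k).2
    have hterm : ∀ t : Fin (D + 1) → Fin (n + 1),
        Real.cosh (((((K.map emb).filter (fun q => ∀ i, ρ i q < (t i : ℕ))).card : ℝ) -
          (((I \ K.map emb).filter (fun q => ∀ i, ρ i q < (t i : ℕ))).card : ℝ)) /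
            (200 * (H : ℝ) ^ D)) ≤
          Real.exp (1 / 200) * Real.cosh ((∑ j ∈ range (s t / 2), (σ j : ℝ) *
            ∑ x, S' t x * v j x) / (200 * (H : ℝ) ^ D)) := by
      intro t
      rw [diff_eq I _ hJI]
      have e1 : ∑ q ∈ I, (if q ∈ K.map emb then (1:ℝ) else -1) *
          (if (∀ i, ρ i q < (t i : ℕ)) then 1 else 0) =
          ∑ k ∈ range (s t), (col σ k : ℝ) * P t k := by
        have e2 : ∑ k ∈ range (s t), (col σ k : ℝ) * P t k =
            ∑ k ∈ range (2 * M), (col σ k : ℝ) * (if k < s t then P t k else 0) := by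
          have : range (s t) = (range (2 * M)).filter (fun k => k < s t) := by
            ext k
            have := hs1 t
            simp only [Finset.mem_range, Finset.mem_filter]
            omega
          rw [this, Finset.sum_filter]
          refine Finset.sum_congr rfl fun k _ => ?_
          split_ifs <;> simp
        rw [e2, ← Fin.sum_univ_eq_sum_range
          (fun k => (col σ k : ℝ) * (if k < s t then P t k else 0)), ← Finset.sum_coe_sort I,
          ← e.sum_comp]
        refine Finset.sum_congr rfl fun k _ => ?_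
        have f1 : ((if ((e k : I) : α) ∈ K.map emb then (1:ℝ) else -1)) = (col σ k : ℝ) := by
          have : ((e k : I) : α) ∈ K.map emb ↔ col σ k = 1 := by
            rw [← hemb k, Finset.mem_map' emb]
            simp [K]
          rcases col_pm σ hσ k with h | h
          · rw [if_pos (this.mpr h), h]; norm_num
          · rw [if_neg (fun hc => by rw [this.mp hc] at h; norm_num at h), h]; norm_num
        rw [f1]
        congr 1
        have hrk : ∀ i : Fin D, r i k = ρ i.succ ((e k : I) : α) := by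
          intro i
          simp [r]
        by_cases h0 : (k : ℕ) < s t
        · rw [if_pos h0]
          simp only [P]
          rw [Finset.prod_boole]
          by_cases hA : ∀ i, ρ i ((e k : I) : α) < (t i : ℕ)
          · rw [if_pos hA, if_pos]
            intro i _
            rw [hrk]
            exact hA i.succ
          · rw [if_neg hA, if_neg]
            intro h
            refine hA fun i => ?_
            refine Fin.cases ((hs2 t k).mpr h0) (fun i => ?_) i
            have := h i (Finset.mem_univ _)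
            rw [hrk] at this
            exact this
        · rw [if_neg h0, if_neg]
          intro h
          exact h0 ((hs2 t k).mp (h 0))
      rw [e1, sum_any]
      simp_rw [hSv t]
      rw [add_div]
      refine (cosh_add_le _ _).trans ?_
      refine mul_le_mul_of_nonneg_right (Real.exp_le_exp.mpr ?_) (Real.cosh_pos _).le
      have hP1 : ∀ k, |P t k| ≤ 1 := by
        intro k
        simp only [P]
        rw [Finset.prod_boole]
        split_ifs <;> simp
      have hH1 : (1:ℝ) ≤ (H : ℝ) ^ D := one_le_pow₀ (by exact_mod_cast hH0)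
      rw [abs_div, abs_of_pos (show (0:ℝ) < 200 * (H : ℝ) ^ D by positivity)]
      have h3 : |if s t % 2 = 1 then (σ (s t / 2) : ℝ) * P t (2 * (s t / 2)) else 0| ≤ 1 := by
        split_ifs
        · rw [abs_mul]
          have : |(σ (s t / 2) : ℝ)| = 1 := by
            rcases hσ (s t / 2) with h | h <;> rw [h] <;> norm_num
          rw [this, one_mul]
          exact hP1 _
        · simp
      rw [div_le_div_iff₀ (by positivity) (by norm_num)]
      nlinarith
    calc ∑ t, w t * Real.cosh (((((K.map emb).filter (fun q => ∀ i, ρ i q < (t i : ℕ))).card : ℝ) -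
          (((I \ K.map emb).filter (fun q => ∀ i, ρ i q < (t i : ℕ))).card : ℝ)) /
            (200 * (H : ℝ) ^ D))
        ≤ ∑ t, w t * (Real.exp (1 / 200) * Real.cosh ((∑ j ∈ range (s t / 2), (σ j : ℝ) *
            ∑ x, S' t x * v j x) / (200 * (H : ℝ) ^ D))) :=
          Finset.sum_le_sum fun t _ => mul_le_mul_of_nonneg_left (hterm t) (hw t)
      _ = Real.exp (1 / 200) * ∑ t, w t * Real.cosh ((∑ j ∈ range (s t / 2), (σ j : ℝ) *
            ∑ x, S' t x * v j x) / (200 * (H : ℝ) ^ D)) := by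
          rw [Finset.mul_sum]
          refine Finset.sum_congr rfl fun t _ => ?_
          ring
      _ ≤ Real.exp (1 / 200) * (3 * ∑ t, w t) :=
          mul_le_mul_of_nonneg_left hmain (Real.exp_pos _).le
      _ ≤ 4 * ∑ t, w t := by
          have := three_exp
          have h0 : 0 ≤ ∑ t, w t := Finset.sum_nonneg fun t _ => hw t
          nlinarith
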