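import Mathlib

set_option autoImplicit false

/-!
Donner's theorem: for a finite graph `G` and all large `s`, every assignment of lists of size `s`
admits at least as many proper colourings as the constant one.
-/

namespace Pool.Agent.R62.ECC

open Finset
open scoped Classical

noncomputable section

set_option linter.unusedSectionVars false

variable {V : Type} [Fintype V]

/-- the proper colourings of `G` from the lists `L` -/
def cols (G : SimpleGraph V) (L : V → Finset ℕ) : Finset (V → ℕ) :=
  (Fintype.piFinset L).filter (fun f => ∀ u v, G.Adj u v → f u ≠ f v)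

lemma mem_cols {G : SimpleGraph V} {L : V → Finset ℕ} {f : V → ℕ} :
    f ∈ cols G L ↔ (∀ v, f v ∈ L v) ∧ ∀ u v, G.Adj u v → f u ≠ f v := by
  simp [cols, Fintype.mem_piFinset]

/-- the choices from the lists that are constant along the edges of `H` -/
def con (H : SimpleGraph V) (L : V → Finset ℕ) : Finset (V → ℕ) :=
  (Fintype.piFinset L).filter (fun f => ∀ u v, H.Adj u v → f u = f v)

lemma mem_con {H : SimpleGraph V} {L : V → Finset ℕ} {f : V → ℕ} :
    f ∈ con H L ↔ (∀ v, f v ∈ L v) ∧ ∀ u v, H.Adj u v → f u = f v := by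
  simp [con, Fintype.mem_piFinset]

/-- the colours common to a component -/
def compList (H : SimpleGraph V) (L : V → Finset ℕ) (c : H.ConnectedComponent) : Finset ℕ :=
  (L c.out).filter (fun x => ∀ v, H.connectedComponentMk v = c → x ∈ L v)

lemma out_mk (H : SimpleGraph V) (c : H.ConnectedComponent) :
    H.connectedComponentMk c.out = c := by
  exact Quot.out_eq c

lemma const_of_reach {H : SimpleGraph V} {α : Type} {f : V → α}
    (h : ∀ u v, H.Adj u v → f u = f v) {u v : V} (huv : H.Reachable u v) : f u = f v := by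
  obtain ⟨w⟩ := huv
  induction w with
  | nil => rfl
  | cons hadj _ ih => exact (h _ _ hadj).trans ih

lemma card_con (H : SimpleGraph V) (L : V → Finset ℕ) :
    (con H L).card = ∏ c : H.ConnectedComponent, (compList H L c).card := by
  rw [← Fintype.card_piFinset]
  refine Finset.card_bij' (fun f _ => fun c => f c.out)
    (fun g _ => fun v => g (H.connectedComponentMk v)) ?_ ?_ ?_ ?_
  · intro f hf
    rw [mem_con] at hf
    rw [Fintype.mem_piFinset]
    intro c
    rw [compList, mem_filter]
    refine ⟨hf.1 _, fun v hv => ?_⟩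
    have : f c.out = f v := by
      apply const_of_reach hf.2
      rw [← SimpleGraph.ConnectedComponent.eq, out_mk, hv]
    rw [this]; exact hf.1 v
  · intro g hg
    rw [Fintype.mem_piFinset] at hg
    rw [mem_con]
    refine ⟨fun v => ?_, fun u v huv => ?_⟩
    · have := hg (H.connectedComponentMk v)
      rw [compList, mem_filter] at this
      exact this.2 v rfl
    · have : H.connectedComponentMk u = H.connectedComponentMk v :=
        SimpleGraph.ConnectedComponent.eq.2 huv.reachable
      simp only [this]
  · intro f hf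
    rw [mem_con] at hf
    funext v
    apply const_of_reach hf.2
    rw [← SimpleGraph.ConnectedComponent.eq, out_mk]
  · intro g hg
    funext c
    simp only [out_mk]

lemma prod_bound {ι : Type} (t : Finset ι) (a : ι → ℕ) (s D : ℕ) (h1 : ∀ i ∈ t, a i ≤ s)
    (h2 : ∀ i ∈ t, s ≤ a i + D) :
    s * s ^ t.card ≤ s * ∏ i ∈ t, a i + t.card * D * s ^ t.card := by
  induction t using Finset.induction_on with
  | empty => simp
  | insert i t hi ih =>
    rw [card_insert_of_notMem hi, prod_insert hi]
    have ih' := ih (fun j hj => h1 j (mem_insert_of_mem hj)) (fun j hj => h2 j (mem_insert_of_mem hj))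
    have ha := h1 i (mem_insert_self _ _)
    have hb := h2 i (mem_insert_self _ _)
    have hP : ∏ j ∈ t, a j ≤ s ^ t.card := by
      apply Finset.prod_le_pow_card
      intro j hj; exact h1 j (mem_insert_of_mem hj)
    -- s * s^(k+1) ≤ s * (a_i * P) + (k+1) D s^(k+1)
    have e1 : s * s ^ (t.card + 1) ≤ s * (s * ∏ j ∈ t, a j) + t.card * D * s ^ (t.card + 1) := by
      calc s * s ^ (t.card + 1) = s * (s * s ^ t.card) := by ring
        _ ≤ s * (s * ∏ i ∈ t, a i + t.card * D * s ^ t.card) := Nat.mul_le_mul_left _ ih'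
        _ = s * (s * ∏ j ∈ t, a j) + t.card * D * s ^ (t.card + 1) := by ring
    have e2 : s * (s * ∏ j ∈ t, a j) ≤ s * (a i * ∏ j ∈ t, a j) + D * s ^ (t.card + 1) := by
      calc s * (s * ∏ j ∈ t, a j) ≤ s * ((a i + D) * ∏ j ∈ t, a j) := by gcongr
        _ = s * (a i * ∏ j ∈ t, a j) + D * (s * ∏ j ∈ t, a j) := by ring
        _ ≤ s * (a i * ∏ j ∈ t, a j) + D * (s * s ^ t.card) := by gcongr
        _ = s * (a i * ∏ j ∈ t, a j) + D * s ^ (t.card + 1) := by ring
    calc s * s ^ (t.card + 1) ≤ s * (s * ∏ j ∈ t, a j) + t.card * D * s ^ (t.card + 1) := e1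
      _ ≤ s * (a i * ∏ j ∈ t, a j) + D * s ^ (t.card + 1) + t.card * D * s ^ (t.card + 1) := by gcongr
      _ = s * (a i * ∏ j ∈ t, a j) + (t.card + 1) * D * s ^ (t.card + 1) := by ring

/-- number of components of a graph with two different edges -/
lemma card_comp_le {H : SimpleGraph V} {e₁ e₂ : Sym2 V} (h1 : e₁ ∈ H.edgeSet) (h2 : e₂ ∈ H.edgeSet)
    (hne : e₁ ≠ e₂) : Fintype.card H.ConnectedComponent + 2 ≤ Fintype.card V := by
  induction e₁ using Sym2.ind with
  | _ a b =>
  have hab : H.Adj a b := h1
  -- an end of e₂ outside {a,b}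
  obtain ⟨y, x, hy, hya, hyb⟩ : ∃ y x, H.Adj y x ∧ y ≠ a ∧ y ≠ b := by
    induction e₂ using Sym2.ind with
    | _ c d =>
    have hcd : H.Adj c d := h2
    by_cases hc : c ≠ a ∧ c ≠ b
    · exact ⟨c, d, hcd, hc.1, hc.2⟩
    · refine ⟨d, c, hcd.symm, ?_, ?_⟩
      · rintro rfl
        by_cases hcb : c = b
        · subst hcb; exact hne (Sym2.eq_swap)
        · have : c = d := by
            by_contra hh; exact hc ⟨hh, hcb⟩
          exact hcd.ne this
      · rintro rfl
        by_cases hca : c = a
        · subst hca; exact hne rfl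
        · have : c = d := by
            by_contra hh; exact hc ⟨hca, hh⟩
          exact hcd.ne this
  have hsurj : Function.Surjective
      (fun z : {z : V // z ≠ b ∧ z ≠ y} => H.connectedComponentMk z.1) := by
    intro c
    have key : ∀ z : V, ∃ z' : V, (z' ≠ b ∧ z' ≠ y) ∧ H.connectedComponentMk z' = H.connectedComponentMk z := by
      intro z
      have ha : ∃ z' : V, (z' ≠ b ∧ z' ≠ y) ∧ H.connectedComponentMk z' = H.connectedComponentMk a :=
        ⟨a, ⟨hab.ne, hya.symm⟩, rfl⟩
      by_cases hzb : z = b
      · subst hzb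
        obtain ⟨z', h, h'⟩ := ha
        exact ⟨z', h, h'.trans (SimpleGraph.ConnectedComponent.eq.2 hab.reachable)⟩
      · by_cases hzy : z = y
        · subst hzy
          by_cases hxb : x = b
          · subst hxb
            obtain ⟨z', h, h'⟩ := ha
            exact ⟨z', h, h'.trans (SimpleGraph.ConnectedComponent.eq.2
              (hab.reachable.trans hy.symm.reachable))⟩
          · exact ⟨x, ⟨hxb, hy.symm.ne⟩, SimpleGraph.ConnectedComponent.eq.2 hy.symm.reachable⟩
        · exact ⟨z, ⟨hzb, hzy⟩, rfl⟩
    obtain ⟨z', h, h'⟩ := key c.out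
    exact ⟨⟨z', h⟩, h'.trans (out_mk H c)⟩
  have h3 := Fintype.card_le_of_surjective _ hsurj
  have h4 : Fintype.card {z : V // z ≠ b ∧ z ≠ y} + 2 = Fintype.card V := by
    rw [Fintype.card_subtype]
    have : (univ.filter fun z : V => z ≠ b ∧ z ≠ y) = univ \ {b, y} := by
      ext z; simp
    rw [this, card_sdiff_of_subset (subset_univ _), card_univ]
    have h5 : ({b, y} : Finset V).card = 2 := card_pair hyb.symm
    have h6 : ({b, y} : Finset V).card ≤ Fintype.card V := card_le_univ _
    omega
  omega

/-- number of components of a graph with a single edge -/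
lemma le_card_comp {H : SimpleGraph V} {a b : V} (hab : a ≠ b)
    (h : ∀ u v, H.Adj u v → s(u, v) = s(a, b)) :
    Fintype.card V ≤ Fintype.card H.ConnectedComponent + 1 := by
  have hinj : Function.Injective
      (fun z : {z : V // z ≠ b} => H.connectedComponentMk z.1) := by
    rintro ⟨x, hx⟩ ⟨y, hy⟩ hxy
    have hr : H.Reachable x y := SimpleGraph.ConnectedComponent.eq.1 hxy
    have := const_of_reach (f := fun z => if z = b then a else z) (H := H) ?_ hr
    · simp only [hx, hy, if_false] at this
      exact Subtype.ext this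
    · intro u v huv
      have := h u v huv
      rw [Sym2.eq_iff] at this
      rcases this with ⟨rfl, rfl⟩ | ⟨rfl, rfl⟩
      · simp [hab]
      · simp [hab]
  have h3 := Fintype.card_le_of_injective _ hinj
  have h4 : Fintype.card {z : V // z ≠ b} + 1 = Fintype.card V := by
    rw [Fintype.card_subtype_compl, Fintype.card_subtype_eq]
    have : 0 < Fintype.card V := Fintype.card_pos_iff.2 ⟨b⟩
    omega
  omega

lemma compList_lower {G H : SimpleGraph V} (hHG : H ≤ G) {L : V → Finset ℕ} {s δ : ℕ}
    (hL : ∀ v, (L v).card = s) (hδ : ∀ u v, G.Adj u v → (L u \ L v).card ≤ δ)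
    (c : H.ConnectedComponent) :
    s ≤ (compList H L c).card + Fintype.card V ^ 2 * δ := by
  have h1 : L c.out ⊆ compList H L c ∪
      (univ.filter (fun q : V × V => G.Adj q.1 q.2)).biUnion (fun q => L q.1 \ L q.2) := by
    intro x hx
    rw [mem_union]
    by_contra hcon
    rw [not_or] at hcon
    apply hcon.1
    rw [compList, mem_filter]
    refine ⟨hx, fun v hv => ?_⟩
    have hr : H.Reachable c.out v := by
      rw [← SimpleGraph.ConnectedComponent.eq, out_mk, hv]
    have := const_of_reach (f := fun z => (x ∈ L z : Prop)) (H := H) ?_ hr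
    · simpa [hx] using this
    · intro u v huv
      have h2 := hcon.2
      rw [mem_biUnion] at h2
      push Not at h2
      have h3 := h2 (u, v) (by simpa using hHG huv)
      have h4 := h2 (v, u) (by simpa using (hHG huv).symm)
      simp only [mem_sdiff, not_and, not_not] at h3 h4
      exact propext ⟨h3, h4⟩
  have h2 := card_le_card h1
  rw [hL] at h2
  refine h2.trans ((card_union_le _ _).trans ?_)
  gcongr
  refine card_biUnion_le.trans ?_
  refine (Finset.sum_le_card_nsmul _ _ δ ?_).trans ?_
  · intro q hq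
    exact hδ _ _ (by simpa using hq)
  · rw [smul_eq_mul]
    gcongr
    refine (card_le_univ _).trans ?_
    rw [Fintype.card_prod, sq]

lemma compList_upper {H : SimpleGraph V} {L : V → Finset ℕ} {s : ℕ}
    (hL : ∀ v, (L v).card = s) (c : H.ConnectedComponent) : (compList H L c).card ≤ s := by
  rw [← hL c.out]
  exact card_le_card (filter_subset _ _)

lemma compList_const {H : SimpleGraph V} (A : Finset ℕ) (c : H.ConnectedComponent) :
    compList H (fun _ => A) c = A := by
  rw [compList]
  apply filter_true_of_mem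
  intro x hx v _
  exact hx

lemma card_con_const (H : SimpleGraph V) (A : Finset ℕ) :
    (con H (fun _ => A)).card = A.card ^ Fintype.card H.ConnectedComponent := by
  rw [card_con]
  simp only [compList_const]
  rw [prod_const, card_univ]

/-- inclusion-exclusion -/
lemma cols_eq (G : SimpleGraph V) (L : V → Finset ℕ) :
    ((cols G L).card : ℤ) = ∑ F ∈ G.edgeFinset.powerset,
      (-1 : ℤ) ^ F.card * ((con (SimpleGraph.fromEdgeSet (F : Set (Sym2 V))) L).card : ℤ) := by
  have hB : ∀ (f : V → ℕ), ((if f ∈ cols G L then 1 else 0 : ℤ)) =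
      if f ∈ Fintype.piFinset L then ∏ e ∈ G.edgeFinset,
        ((1 : ℤ) + (- if (∀ u v, s(u, v) = e → f u = f v) then 1 else 0)) else 0 := by
    intro f
    by_cases hf : f ∈ Fintype.piFinset L
    · rw [if_pos hf]
      by_cases hc : f ∈ cols G L
      · rw [if_pos hc]
        symm
        apply Finset.prod_eq_one
        intro e he
        rw [if_neg]
        · simp
        · intro h
          induction e using Sym2.ind with
          | _ a b =>
          rw [SimpleGraph.mem_edgeFinset, SimpleGraph.mem_edgeSet] at he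
          exact (mem_cols.1 hc).2 a b he (h a b rfl)
      · rw [if_neg hc]
        symm
        rw [mem_cols] at hc
        rw [Fintype.mem_piFinset] at hf
        push Not at hc
        obtain ⟨u, v, huv, he⟩ := hc hf
        apply Finset.prod_eq_zero (i := s(u, v))
        · rw [SimpleGraph.mem_edgeFinset, SimpleGraph.mem_edgeSet]; exact huv
        · rw [if_pos]
          · simp
          · intro a b hab
            rw [Sym2.eq_iff] at hab
            rcases hab with ⟨rfl, rfl⟩ | ⟨rfl, rfl⟩
            · exact he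
            · exact he.symm
    · rw [if_neg hf, if_neg]
      intro h
      apply hf
      rw [Fintype.mem_piFinset]
      exact (mem_cols.1 h).1
  have h1 : ((cols G L).card : ℤ) = ∑ f ∈ Fintype.piFinset L, ∏ e ∈ G.edgeFinset,
        ((1 : ℤ) + (- if (∀ u v, s(u, v) = e → f u = f v) then 1 else 0)) := by
    have : cols G L = (Fintype.piFinset L).filter (fun f => f ∈ cols G L) := by
      ext f
      rw [mem_filter]
      constructor
      · intro h
        refine ⟨?_, h⟩
        rw [Fintype.mem_piFinset]
        exact (mem_cols.1 h).1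
      · exact fun h => h.2
    rw [this, card_filter]
    push_cast
    apply Finset.sum_congr rfl
    intro f hf
    have := hB f
    rw [if_pos hf] at this
    rw [← this]
  rw [h1]
  have h2 : ∀ f : V → ℕ, ∏ e ∈ G.edgeFinset,
        ((1 : ℤ) + (- if (∀ u v, s(u, v) = e → f u = f v) then 1 else 0)) =
      ∑ F ∈ G.edgeFinset.powerset, (-1 : ℤ) ^ F.card *
        (if (∀ u v, (SimpleGraph.fromEdgeSet (F : Set (Sym2 V))).Adj u v → f u = f v) then 1 else 0) := by
    intro f
    simp only [add_comm (1 : ℤ)]
    rw [Finset.prod_add]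
    apply Finset.sum_congr rfl
    intro F hF
    rw [prod_const_one, mul_one, Finset.prod_neg]
    congr 1
    rw [Finset.prod_ite_zero]
    simp only [prod_const_one]
    congr 1
    apply propext
    constructor
    · intro h u v huv
      rw [SimpleGraph.fromEdgeSet_adj] at huv
      exact h _ huv.1 u v rfl
    · intro h e he u v huv
      by_cases huv' : u = v
      · rw [huv']
      · apply h
        rw [SimpleGraph.fromEdgeSet_adj]
        exact ⟨by rw [huv]; exact he, huv'⟩
  simp only [h2]
  rw [Finset.sum_comm]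
  apply Finset.sum_congr rfl
  intro F hF
  rw [← Finset.mul_sum]
  congr 1
  rw [con, card_filter]
  push_cast
  rfl


lemma term_empty {H : SimpleGraph V} (h : ∀ u v, ¬ H.Adj u v) {L : V → Finset ℕ} {A : Finset ℕ} {s : ℕ}
    (hA : A.card = s) (hL : ∀ v, (L v).card = s) :
    (con H L).card = (con H (fun _ => A)).card := by
  rw [card_con, card_con_const, hA, ← card_univ, ← prod_const]
  apply Finset.prod_congr rfl
  intro c _
  rw [← hL c.out]
  congr 1
  rw [compList]
  apply filter_true_of_mem
  intro x hx v hv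
  have hr : H.Reachable v c.out := by
    rw [← SimpleGraph.ConnectedComponent.eq, out_mk, hv]
  have h3 : v = c.out := const_of_reach (f := fun z => z) (fun u v huv => absurd huv (h u v)) hr
  rw [h3]; exact hx

lemma term_le {H : SimpleGraph V} {L : V → Finset ℕ} {A : Finset ℕ} {s : ℕ}
    (hA : A.card = s) (hL : ∀ v, (L v).card = s) :
    (con H L).card ≤ (con H (fun _ => A)).card := by
  rw [card_con, card_con_const, hA, ← card_univ]
  apply Finset.prod_le_pow_card
  intro c _
  exact compList_upper hL c

lemma term_single {H : SimpleGraph V} {a b : V} (hab : H.Adj a b)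
    (honly : ∀ u v, H.Adj u v → s(u, v) = s(a, b)) {L : V → Finset ℕ} {A : Finset ℕ} {s : ℕ}
    (hs1 : 1 ≤ s) (hA : A.card = s) (hL : ∀ v, (L v).card = s) :
    (con H L).card + (L a \ L b).card * s ^ (Fintype.card V - 2) ≤ (con H (fun _ => A)).card := by
  have hcc := le_card_comp hab.ne honly
  have hcL := card_con H L
  have hc0 := card_con_const H A
  rw [hA] at hc0
  set δ := (L a \ L b).card with hδ
  set c0 := H.connectedComponentMk a with hc0'
  have hc0le : (compList H L c0).card + δ ≤ s := by
    have h1 : compList H L c0 ⊆ L a \ (L a \ L b) := by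
      intro x hx
      rw [compList, mem_filter] at hx
      have h2 := hx.2 a rfl
      have h3 := hx.2 b (SimpleGraph.ConnectedComponent.eq.2 hab.symm.reachable)
      rw [mem_sdiff, mem_sdiff]
      exact ⟨h2, fun h => h.2 h3⟩
    have h2 := card_le_card h1
    rw [card_sdiff_of_subset sdiff_subset, hL] at h2
    have h3 : δ ≤ s := by rw [hδ, ← hL a]; exact card_le_card sdiff_subset
    omega
  have hprod : (con H L).card ≤ (compList H L c0).card * s ^ (Fintype.card H.ConnectedComponent - 1) := by
    rw [hcL, ← Finset.mul_prod_erase univ _ (mem_univ c0)]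
    gcongr
    have : (univ.erase c0).card = Fintype.card H.ConnectedComponent - 1 := by
      rw [card_erase_of_mem (mem_univ _), card_univ]
    rw [← this]
    apply Finset.prod_le_pow_card
    intro c _
    exact compList_upper hL c
  have hccpos : 1 ≤ Fintype.card H.ConnectedComponent := Fintype.card_pos_iff.2 ⟨c0⟩
  obtain ⟨k, hk⟩ : ∃ k, Fintype.card H.ConnectedComponent = k + 1 := ⟨_, (Nat.sub_add_cancel hccpos).symm⟩
  rw [hk] at hprod hc0 hcc
  rw [Nat.add_sub_cancel] at hprod
  have h5 : s ^ (Fintype.card V - 2) ≤ s ^ k := Nat.pow_le_pow_right hs1 (by omega)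
  rw [hc0]
  calc (con H L).card + δ * s ^ (Fintype.card V - 2)
      ≤ (compList H L c0).card * s ^ k + δ * s ^ k := by gcongr
    _ = ((compList H L c0).card + δ) * s ^ k := by ring
    _ ≤ s * s ^ k := by gcongr
    _ = s ^ (k + 1) := by ring

lemma term_two {G H : SimpleGraph V} (hHG : H ≤ G) {e₁ e₂ : Sym2 V} (h1 : e₁ ∈ H.edgeSet)
    (h2 : e₂ ∈ H.edgeSet) (hne : e₁ ≠ e₂) {L : V → Finset ℕ} {A : Finset ℕ} {s δ : ℕ}
    (hs1 : 1 ≤ s) (hA : A.card = s) (hL : ∀ v, (L v).card = s)
    (hδ : ∀ u v, G.Adj u v → (L u \ L v).card ≤ δ) :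
    s * (con H (fun _ => A)).card ≤
      s * (con H L).card + Fintype.card V ^ 3 * δ * s ^ (Fintype.card V - 2) := by
  have hcc := card_comp_le h1 h2 hne
  have hcL := card_con H L
  have hc0 := card_con_const H A
  rw [hA] at hc0
  have hb := prod_bound (univ : Finset H.ConnectedComponent) (fun c => (compList H L c).card) s
    (Fintype.card V ^ 2 * δ)
    (fun c _ => compList_upper hL c) (fun c _ => compList_lower hHG hL hδ c)
  rw [← hcL, card_univ, ← hc0] at hb
  have h5 : Fintype.card H.ConnectedComponent * (Fintype.card V ^ 2 * δ) * (con H (fun _ => A)).card ≤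
      Fintype.card V ^ 3 * δ * s ^ (Fintype.card V - 2) := by
    rw [hc0]
    calc Fintype.card H.ConnectedComponent * (Fintype.card V ^ 2 * δ) * s ^ Fintype.card H.ConnectedComponent
        ≤ Fintype.card V * (Fintype.card V ^ 2 * δ) * s ^ (Fintype.card V - 2) := by
          have h1 : Fintype.card H.ConnectedComponent ≤ Fintype.card V := by omega
          have h2 : s ^ Fintype.card H.ConnectedComponent ≤ s ^ (Fintype.card V - 2) :=
            Nat.pow_le_pow_right hs1 (by omega)
          gcongr
      _ = Fintype.card V ^ 3 * δ * s ^ (Fintype.card V - 2) := by ring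
  exact hb.trans (by gcongr)

lemma term_bound {G : SimpleGraph V} {a b : V} (hab : G.Adj a b) {L : V → Finset ℕ} {A : Finset ℕ}
    {s : ℕ} (hs1 : 1 ≤ s) (hA : A.card = s) (hL : ∀ v, (L v).card = s)
    (hδ : ∀ u v, G.Adj u v → (L u \ L v).card ≤ (L a \ L b).card)
    (F : Finset (Sym2 V)) (hF : F ⊆ G.edgeFinset) :
    (if F = {s(a, b)} then (((L a \ L b).card : ℕ) : ℤ) * s ^ (Fintype.card V - 1) else 0)
      - (Fintype.card V : ℤ) ^ 3 * ((L a \ L b).card : ℕ) * s ^ (Fintype.card V - 2) ≤
      s * ((-1 : ℤ) ^ F.card * ((con (SimpleGraph.fromEdgeSet (F : Set (Sym2 V))) L).card : ℤ) -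
        (-1 : ℤ) ^ F.card *
          ((con (SimpleGraph.fromEdgeSet (F : Set (Sym2 V))) (fun _ => A)).card : ℤ)) := by
  have hn2 : 2 ≤ Fintype.card V := by
    have : ({a, b} : Finset V).card ≤ Fintype.card V := card_le_univ _
    rwa [card_pair hab.ne] at this
  generalize hn : Fintype.card V = n at *
  have hHadj : ∀ u v, (SimpleGraph.fromEdgeSet (F : Set (Sym2 V))).Adj u v ↔ s(u, v) ∈ F ∧ u ≠ v := by
    intro u v
    rw [SimpleGraph.fromEdgeSet_adj]; rfl
  have hedge : ∀ e ∈ F, e ∈ (SimpleGraph.fromEdgeSet (F : Set (Sym2 V))).edgeSet := by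
    intro e he
    rw [SimpleGraph.edgeSet_fromEdgeSet]
    refine ⟨he, ?_⟩
    have := hF he
    rw [SimpleGraph.mem_edgeFinset] at this
    exact G.not_isDiag_of_mem_edgeSet this
  generalize SimpleGraph.fromEdgeSet (F : Set (Sym2 V)) = H at *
  have hHG : H ≤ G := by
    intro u v huv
    rw [hHadj] at huv
    have := hF huv.1
    rwa [SimpleGraph.mem_edgeFinset, SimpleGraph.mem_edgeSet] at this
  have hle := term_le (H := H) hA hL
  set δ := (L a \ L b).card with hδdef
  have hnn : (0 : ℤ) ≤ (n : ℤ) ^ 3 * δ * s ^ (n - 2) := by positivity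
  rcases Nat.lt_or_ge F.card 2 with hF2 | hF2
  · interval_cases hFc : F.card
    · rw [Finset.card_eq_zero] at hFc
      have h1 := term_empty (H := H) (fun u v => by rw [hHadj, hFc]; simp) hA hL
      have : F ≠ {s(a, b)} := by rw [hFc]; exact (Finset.singleton_ne_empty _).symm
      rw [if_neg this, h1]
      simpa using hnn
    · by_cases hFe : F = {s(a, b)}
      · rw [if_pos hFe]
        have h4 := term_single (H := H) (a := a) (b := b) (by rw [hHadj, hFe]; exact ⟨by simp, hab.ne⟩)
          (fun u v huv => by rw [hHadj, hFe] at huv; simpa using huv.1) hs1 hA hL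
        rw [hn, ← hδdef] at h4
        have h7 : ((con H L).card : ℤ) + δ * s ^ (n - 2) ≤ (con H (fun _ => A)).card := by
          exact_mod_cast h4
        have h8 : (s : ℤ) ^ (n - 1) = (s : ℤ) * (s : ℤ) ^ (n - 2) := by
          rw [← pow_succ']; congr 1; omega
        have h9 : (s : ℤ) * (((con H L).card : ℤ) + δ * s ^ (n - 2)) ≤ s * (con H (fun _ => A)).card := by
          gcongr
        rw [h8]
        linarith [h9, hnn]
      · rw [if_neg hFe]
        have : (0:ℤ) ≤ s * ((con H (fun _ => A)).card - (con H L).card : ℤ) := by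
          apply mul_nonneg (by positivity)
          have : ((con H L).card : ℤ) ≤ (con H (fun _ => A)).card := by exact_mod_cast hle
          linarith
        simp only [pow_one]
        linarith
  · have hne2 : F ≠ {s(a, b)} := by
      intro h; rw [h, card_singleton] at hF2; omega
    rw [if_neg hne2]
    obtain ⟨e1, he1, e2, he2, he12⟩ := Finset.one_lt_card.1 (show 1 < F.card by omega)
    have h6 := term_two hHG (hedge _ he1) (hedge _ he2) he12 hs1 hA hL hδ
    rw [hn] at h6
    have h7 : (s : ℤ) * (con H (fun _ => A)).card ≤ s * (con H L).card + (n : ℤ) ^ 3 * δ * s ^ (n - 2) := by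
      exact_mod_cast h6
    have h8 : (s : ℤ) * (con H L).card ≤ s * (con H (fun _ => A)).card := by
      have : s * (con H L).card ≤ s * (con H (fun _ => A)).card := by gcongr
      exact_mod_cast this
    rcases neg_one_pow_eq_or ℤ F.card with h | h <;> rw [h] <;> linarith [h7, h8, hnn]

/-- Donner's theorem -/
theorem donner (G : SimpleGraph V) (s : ℕ) (A : Finset ℕ) (hA : A.card = s) (L : V → Finset ℕ)
    (hL : ∀ v, (L v).card = s)
    (hs : 2 ^ G.edgeFinset.card * Fintype.card V ^ 3 + 1 ≤ s) :
    (cols G (fun _ => A)).card ≤ (cols G L).card := by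
  by_cases hE : G.edgeFinset = ∅
  · have h1 := cols_eq G L
    have h2 := cols_eq G (fun _ => A)
    rw [hE] at h1 h2
    simp only [powerset_empty, sum_singleton, card_empty, pow_zero, one_mul] at h1 h2
    rw [term_empty (by intro u v; simp) hA hL] at h1
    exact_mod_cast (h2.trans h1.symm).le
  obtain ⟨e, he⟩ := Finset.nonempty_iff_ne_empty.2 hE
  have hne : (univ.filter (fun q : V × V => G.Adj q.1 q.2)).Nonempty := by
    induction e using Sym2.ind with
    | _ a b =>
    rw [SimpleGraph.mem_edgeFinset, SimpleGraph.mem_edgeSet] at he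
    exact ⟨(a, b), by simpa using he⟩
  obtain ⟨⟨a, b⟩, hab', hmax⟩ := Finset.exists_max_image _ (fun q : V × V => (L q.1 \ L q.2).card) hne
  have hab : G.Adj a b := by simpa using hab'
  have hδmax : ∀ u v, G.Adj u v → (L u \ L v).card ≤ (L a \ L b).card := by
    intro u v huv
    exact hmax (u, v) (by simpa using huv)
  have hs1 : 1 ≤ s := by omega
  have hn2 : 2 ≤ Fintype.card V := by
    have : ({a, b} : Finset V).card ≤ Fintype.card V := card_le_univ _
    rwa [card_pair hab.ne] at this
  have hsum := Finset.sum_le_sum (fun F hF => term_bound hab hs1 hA hL hδmax F (mem_powerset.1 hF))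
  rw [← Finset.mul_sum, Finset.sum_sub_distrib, Finset.sum_sub_distrib, ← cols_eq, ← cols_eq] at hsum
  have hmem : ({s(a, b)} : Finset (Sym2 V)) ∈ G.edgeFinset.powerset := by
    rw [mem_powerset, singleton_subset_iff, SimpleGraph.mem_edgeFinset, SimpleGraph.mem_edgeSet]
    exact hab
  rw [Finset.sum_ite_eq' , if_pos hmem, sum_const, card_powerset] at hsum
  generalize (L a \ L b).card = δ at *
  generalize Fintype.card V = n at *
  have h2 : (s : ℤ) ^ (n - 1) = s * (s : ℤ) ^ (n - 2) := by
    rw [← pow_succ']; congr 1; omega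
  have h3 : (0 : ℤ) ≤ (δ : ℤ) * s ^ (n - 1) - (2 ^ G.edgeFinset.card) • ((n : ℤ) ^ 3 * δ * s ^ (n - 2)) := by
    rw [h2, nsmul_eq_mul]
    push_cast
    have h4 : (2 : ℤ) ^ G.edgeFinset.card * (n : ℤ) ^ 3 ≤ s := by
      have : 2 ^ G.edgeFinset.card * n ^ 3 ≤ s := by omega
      exact_mod_cast this
    have h5 : (0 : ℤ) ≤ (δ : ℤ) * s ^ (n - 2) := by positivity
    nlinarith [mul_le_mul_of_nonneg_right h4 h5]
  have h4 : (0 : ℤ) ≤ s * ((cols G L).card - (cols G (fun _ => A)).card : ℤ) := le_trans h3 hsum
  have h5 : (0 : ℤ) < s := by exact_mod_cast hs1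
  have h6 : (0 : ℤ) ≤ ((cols G L).card - (cols G (fun _ => A)).card : ℤ) := by
    by_contra hcon
    push Not at hcon
    nlinarith
  have h7 : ((cols G (fun _ => A)).card : ℤ) ≤ (cols G L).card := by linarith
  exact_mod_cast h7

end

end Pool.Agent.R62.ECC
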