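import Mathlib
import Pool.Agent.R62.ECC1

set_option autoImplicit false

/-!
Counting systems of distinct representatives, and the switching lemma.
-/

namespace Pool.Agent.R62.ECC

open Finset
open scoped Classical

noncomputable section

/-- the injective choices from the lists `K` -/
def sdr {W : Type} [Fintype W] (K : W → Finset ℕ) : Finset (W → ℕ) :=
  (Fintype.piFinset K).filter (fun f => Function.Injective f)

lemma mem_sdr {W : Type} [Fintype W] {K : W → Finset ℕ} {f : W → ℕ} :
    f ∈ sdr K ↔ (∀ w, f w ∈ K w) ∧ Function.Injective f := by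
  simp [sdr, Fintype.mem_piFinset]

lemma sdr_card_aux (W : Type) [Fintype W] : ∀ (K : W → Finset ℕ) (t : ℕ), (∀ w, t ≤ (K w).card) →
    t.descFactorial (Fintype.card W) ≤ (sdr K).card := by
  refine Fintype.induction_empty_option
    (P := fun W _ => ∀ (K : W → Finset ℕ) (t : ℕ), (∀ w, t ≤ (K w).card) →
      t.descFactorial (Fintype.card W) ≤ (sdr K).card) ?_ ?_ ?_ W
  · intro α β _ e ih K t h
    let _ : Fintype α := Fintype.ofEquiv β e.symm
    have h1 := ih (fun a => K (e a)) t (fun a => h _)
    have h2 : Fintype.card α = Fintype.card β := Fintype.card_congr e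
    rw [← h2]
    refine le_trans (le_of_eq ?_) (h1.trans ?_)
    · congr
    · refine Finset.card_le_card_of_injOn (fun f => fun b => f (e.symm b)) ?_ ?_
      · intro f hf
        rw [mem_coe, mem_sdr] at hf ⊢
        refine ⟨fun b => ?_, hf.2.comp e.symm.injective⟩
        simpa using hf.1 (e.symm b)
      · intro f _ g _ hfg
        funext a
        have := congrFun hfg (e a)
        simpa using this
  · intro K t _
    simp only [Fintype.card_pempty, Nat.descFactorial_zero]
    rw [Nat.succ_le_iff, card_pos]
    exact ⟨fun a => a.elim, mem_sdr.2 ⟨fun a => a.elim, fun a => a.elim⟩⟩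
  · intro α _ ih K t h
    have h1 := ih (fun a => K (some a)) t (fun a => h _)
    rw [Fintype.card_option, Nat.descFactorial_succ]
    have h2 : (((sdr (fun a => K (some a))).sigma
        (fun f => K none \ univ.image f)) : Finset (Σ _ : α → ℕ, ℕ)).card ≤ (sdr K).card := by
      refine Finset.card_le_card_of_injOn (fun q => fun o => o.elim q.2 q.1) ?_ ?_
      · rintro ⟨f, c⟩ hq
        rw [mem_coe, mem_sigma, mem_sdr, mem_sdiff] at hq
        obtain ⟨⟨h3, h4⟩, h5, h6⟩ := hq
        rw [mem_coe, mem_sdr]
        refine ⟨fun o => ?_, ?_⟩
        · cases o with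
          | none => exact h5
          | some a => exact h3 a
        · intro o o' hoo
          cases o with
          | none =>
            cases o' with
            | none => rfl
            | some a => exact absurd (mem_image.2 ⟨a, mem_univ _, hoo.symm⟩) h6
          | some a =>
            cases o' with
            | none => exact absurd (mem_image.2 ⟨a, mem_univ _, hoo⟩) h6
            | some b => exact congrArg some (h4 hoo)
      · rintro ⟨f, c⟩ _ ⟨g, d⟩ _ hfg
        have h3 : c = d := congrFun hfg none
        have h4 : f = g := by
          funext a; exact congrFun hfg (some a)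
        rw [h3, h4]
    refine le_trans ?_ h2
    rw [card_sigma]
    calc (t - Fintype.card α) * t.descFactorial (Fintype.card α)
        ≤ (t - Fintype.card α) * (sdr (fun a => K (some a))).card := by gcongr
      _ = ∑ _f ∈ sdr (fun a => K (some a)), (t - Fintype.card α) := by
          rw [sum_const, smul_eq_mul, mul_comm]
      _ ≤ _ := by
          apply Finset.sum_le_sum
          intro f _
          have h3 := Finset.le_card_sdiff (univ.image f) (K none)
          have h4 : (univ.image f).card ≤ Fintype.card α := by
            simpa using (card_image_le (s := (univ : Finset α)) (f := f))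
          have h5 := h none
          omega

lemma sdr_card {W : Type} [Fintype W] (K : W → Finset ℕ) (t : ℕ) (h : ∀ w, t ≤ (K w).card) :
    t.descFactorial (Fintype.card W) ≤ (sdr K).card := sdr_card_aux W K t h

lemma sdr_card_const {W : Type} [Fintype W] (A : Finset ℕ) :
    (sdr (fun _ : W => A)).card = A.card.descFactorial (Fintype.card W) := by
  rw [← Fintype.card_coe A, ← Fintype.card_embedding_eq, ← Fintype.card_coe]
  refine Fintype.card_congr ⟨fun f => ⟨fun w => ⟨f.1 w, (mem_sdr.1 f.2).1 w⟩, fun a b hab => ?_⟩,
    fun e => ⟨fun w => (e w).1, mem_sdr.2 ⟨fun w => (e w).2, fun a b hab => ?_⟩⟩, ?_, ?_⟩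
  · exact (mem_sdr.1 f.2).2 (by simpa using hab)
  · exact e.injective (Subtype.ext hab)
  · intro f; rfl
  · intro e; rfl

/-- two different lists give more systems of distinct representatives -/
lemma sdr_card_ne {W : Type} [Fintype W] (K : W → Finset ℕ) (s : ℕ)
    (h : ∀ w, (K w).card = Fintype.card W + s) {w w' : W} (hww : K w ≠ K w') :
    ((s + 1) * (s + 2) + 1) * (Fintype.card W + s).descFactorial (Fintype.card W) ≤
      (sdr K).card * ((s + 1) * (s + 2)) := by
  have hne : w ≠ w' := fun hh => hww (by rw [hh])
  set W'' := {x : W // x ≠ w ∧ x ≠ w'} with hW''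
  have hcW : Fintype.card W'' + 2 = Fintype.card W := by
    rw [Fintype.card_subtype]
    have : (univ.filter fun z : W => z ≠ w ∧ z ≠ w') = univ \ {w, w'} := by
      ext z; simp
    rw [this, card_sdiff_of_subset (subset_univ _), card_univ]
    have h5 : ({w, w'} : Finset W).card = 2 := card_pair hne
    have h6 : ({w, w'} : Finset W).card ≤ Fintype.card W := card_le_univ _
    omega
  obtain ⟨q, hq⟩ : ∃ q, Fintype.card W'' = q := ⟨_, rfl⟩
  have hp : Fintype.card W = q + 2 := by omega
  have h1 := sdr_card (fun a : W'' => K a.1) (q + 2 + s) (fun a => by rw [h, hp])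
  rw [hq] at h1
  -- the pairs
  have h2 : (((sdr (fun a : W'' => K a.1)).sigma
      (fun f => ((K w \ univ.image f) ×ˢ (K w' \ univ.image f)).filter (fun c => c.1 ≠ c.2))) :
        Finset (Σ _ : W'' → ℕ, ℕ × ℕ)).card ≤ (sdr K).card := by
    refine Finset.card_le_card_of_injOn
      (fun q => fun x => if hx : x ≠ w ∧ x ≠ w' then q.1 ⟨x, hx⟩ else if x = w then q.2.1 else q.2.2) ?_ ?_
    · rintro ⟨f, c, c'⟩ hq
      rw [mem_coe, mem_sigma, mem_sdr, mem_filter, mem_product, mem_sdiff, mem_sdiff] at hq
      obtain ⟨⟨h3, h4⟩, ⟨⟨h5, h6⟩, h7, h8⟩, h9⟩ := hq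
      simp only at h5 h6 h7 h8 h9
      rw [mem_coe, mem_sdr]
      refine ⟨fun x => ?_, ?_⟩
      · dsimp only
        split_ifs with hx hx'
        · exact h3 ⟨x, hx⟩
        · rw [hx']; exact h5
        · have : x = w' := by
            by_contra hh; exact hx ⟨hx', hh⟩
          rw [this]; exact h7
      · intro x y hxy
        dsimp only at hxy
        have hw' : ∀ z : W, ¬ (z ≠ w ∧ z ≠ w') → z ≠ w → z = w' := by
          intro z hz hz'
          by_contra hh; exact hz ⟨hz', hh⟩
        split_ifs at hxy with hx hy hy' hx' hy hy' hy hy'
        · have := h4 hxy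
          exact congrArg Subtype.val this
        · exact absurd (mem_image.2 ⟨⟨x, hx⟩, mem_univ _, hxy⟩) h6
        · exact absurd (mem_image.2 ⟨⟨x, hx⟩, mem_univ _, hxy⟩) h8
        · exact absurd (mem_image.2 ⟨⟨y, hy⟩, mem_univ _, hxy.symm⟩) h6
        · rw [hx', hy']
        · exact absurd hxy h9
        · exact absurd (mem_image.2 ⟨⟨y, hy⟩, mem_univ _, hxy.symm⟩) h8
        · exact absurd hxy.symm h9
        · rw [hw' x hx hx', hw' y hy hy']
    · rintro ⟨f, c, c'⟩ _ ⟨g, d, d'⟩ _ hfg
      have h3 : f = g := by
        funext a
        have := congrFun hfg a.1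
        simpa [a.2.1, a.2.2] using this
      have h4 : c = d := by
        have := congrFun hfg w
        simpa using this
      have h5 : c' = d' := by
        have := congrFun hfg w'
        simpa [hne.symm] using this
      rw [h3, h4, h5]
  rw [card_sigma] at h2
  -- each fibre is large
  have h3 : ∀ f ∈ sdr (fun a : W'' => K a.1), s ^ 2 + 3 * s + 3 ≤
      (((K w \ univ.image f) ×ˢ (K w' \ univ.image f)).filter (fun c => c.1 ≠ c.2)).card := by
    intro f hf
    have hfi := mem_sdr.1 hf
    have hcim : (univ.image f).card = q := by
      rw [card_image_of_injective _ hfi.2, card_univ, hq]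
    set R := K w \ univ.image f with hR
    set R' := K w' \ univ.image f with hR'
    have hRc : s + 2 ≤ R.card := by
      have h3 := Finset.le_card_sdiff (univ.image f) (K w)
      rw [h, hp, hcim, ← hR] at h3
      omega
    have hRc' : s + 2 ≤ R'.card := by
      have h3 := Finset.le_card_sdiff (univ.image f) (K w')
      rw [h, hp, hcim, ← hR'] at h3
      omega
    have h4 : ((R ×ˢ R').filter (fun c => c.1 ≠ c.2)).card + (R ∩ R').card = R.card * R'.card := by
      rw [← card_product, ← Finset.card_filter_add_card_filter_not (s := R ×ˢ R') (fun c => c.1 ≠ c.2)]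
      congr 1
      refine Finset.card_bij (fun c _ => (c, c)) ?_ ?_ ?_
      · intro c hc
        rw [mem_inter] at hc
        simp [hc.1, hc.2]
      · intro a _ b _ hab
        exact (Prod.ext_iff.1 hab).1
      · rintro ⟨a, b⟩ hab
        simp only [mem_filter, mem_product, not_not] at hab
        refine ⟨a, ?_, ?_⟩
        · rw [mem_inter]; exact ⟨hab.1.1, by rw [hab.2]; exact hab.1.2⟩
        · rw [hab.2]
    have h5 : (R ∩ R').card ≤ R.card := card_le_card inter_subset_left
    have h6 : (R ∩ R').card ≤ R'.card := card_le_card inter_subset_right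
    by_cases hc1 : R.card = s + 2
    · by_cases hc2 : R'.card = s + 2
      · -- the lists differ
        have hRR : R ≠ R' := by
          intro hRR
          apply hww
          have h7 : univ.image f ⊆ K w := by
            have h8 := Finset.card_sdiff_add_card_inter (K w) (univ.image f)
            rw [← hR, hc1, h, hp] at h8
            have h9 : (K w ∩ univ.image f).card = (univ.image f).card := by rw [hcim]; omega
            have h10 := Finset.eq_of_subset_of_card_le (inter_subset_right : K w ∩ univ.image f ⊆ univ.image f) h9.ge
            rw [← h10]; exact inter_subset_left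
          have h7' : univ.image f ⊆ K w' := by
            have h8 := Finset.card_sdiff_add_card_inter (K w') (univ.image f)
            rw [← hR', hc2, h, hp] at h8
            have h9 : (K w' ∩ univ.image f).card = (univ.image f).card := by rw [hcim]; omega
            have h10 := Finset.eq_of_subset_of_card_le (inter_subset_right : K w' ∩ univ.image f ⊆ univ.image f) h9.ge
            rw [← h10]; exact inter_subset_left
          rw [← Finset.sdiff_union_of_subset h7, ← Finset.sdiff_union_of_subset h7', ← hR, ← hR', hRR]
        have h7 : (R ∩ R').card < s + 2 := by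
          rw [← hc1]
          apply card_lt_card
          refine Finset.ssubset_iff_subset_ne.2 ⟨inter_subset_left, fun hh => hRR ?_⟩
          have h8 : R ⊆ R' := by rw [← hh]; exact inter_subset_right
          exact Finset.eq_of_subset_of_card_le h8 (by rw [hc1, hc2])
        rw [hc1, hc2] at h4
        nlinarith
      · have : s + 3 ≤ R'.card := by omega
        nlinarith
    · have : s + 3 ≤ R.card := by omega
      nlinarith
  have h4 := Finset.sum_le_sum h3
  rw [sum_const, smul_eq_mul] at h4
  have h5 := h4.trans h2
  -- (q+2+s) desc (q+2) = (s+1)*(s+2) * (q+2+s) desc q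
  have h6 : (q + 2 + s).descFactorial (q + 2) = (s + 1) * ((s + 2) * (q + 2 + s).descFactorial q) := by
    rw [Nat.descFactorial_succ, Nat.descFactorial_succ]
    congr 1
    · omega
    · congr 1; omega
  rw [hp, h6]
  calc ((s + 1) * (s + 2) + 1) * ((s + 1) * ((s + 2) * (q + 2 + s).descFactorial q))
      = ((q + 2 + s).descFactorial q * (s ^ 2 + 3 * s + 3)) * ((s + 1) * (s + 2)) := by ring
    _ ≤ ((sdr (fun a : W'' => K a.1)).card * (s ^ 2 + 3 * s + 3)) * ((s + 1) * (s + 2)) := by gcongr
    _ ≤ (sdr K).card * ((s + 1) * (s + 2)) := by gcongr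

/-- number of coordinates of `f` outside `S` -/
def ex {W : Type} [Fintype W] (f : W → ℕ) (S : Finset ℕ) : ℕ :=
  (univ.filter (fun w => f w ∉ S)).card

lemma card_unused {W : Type} [Fintype W] {f : W → ℕ} (hf : Function.Injective f) {S : Finset ℕ} {s : ℕ}
    (hS : S.card = Fintype.card W + s) : (S \ univ.image f).card = s + ex f S := by
  have h1 := Finset.card_sdiff_add_card_inter S (univ.image f)
  have h2 : (S ∩ univ.image f).card = (univ.filter (fun w => f w ∈ S)).card := by
    rw [← Finset.card_image_of_injective _ hf]
    congr 1
    ext x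
    simp only [mem_inter, mem_image, mem_univ, true_and, mem_filter]
    constructor
    · rintro ⟨h, w, rfl⟩; exact ⟨w, h, rfl⟩
    · rintro ⟨w, h, rfl⟩; exact ⟨h, w, rfl⟩
  have h3 := Finset.card_filter_add_card_filter_not (s := (univ : Finset W)) (fun w => f w ∈ S)
  rw [card_univ] at h3
  have h4 : ex f S = (univ.filter (fun w => ¬ f w ∈ S)).card := rfl
  omega

/-- the pairs that allow a switch -/
def swp {W : Type} [Fintype W] (K : W → Finset ℕ) (f : W → ℕ) (S S' : Finset ℕ) : Finset (Σ _ : W, ℕ) :=
  (univ.filter (fun w => f w ∈ S)).sigma (fun w => (K w \ S') \ univ.image f)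

/-- the switching lemma -/
lemma switching {W : Type} [Fintype W] (K : W → Finset ℕ) (S S' : Finset ℕ) (s k D : ℕ)
    (hS : S.card = Fintype.card W + s) :
    ((sdr K).filter (fun f => ex f S < k ∧ ex f S' < k ∧ D ≤ (swp K f S S').card)).card * D ≤
      (sdr K).card * (k * (s + k)) := by
  refine Finset.card_mul_le_card_mul (fun f f' => ∃ q ∈ swp K f S S', f' = Function.update f q.1 q.2
      ∧ ex f S < k ∧ ex f S' < k) ?_ ?_
  · intro f hf
    rw [mem_filter] at hf
    obtain ⟨hf, h1, h2, h3⟩ := hf
    refine h3.trans ?_
    refine Finset.card_le_card_of_injOn (fun q => Function.update f q.1 q.2) ?_ ?_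
    · rintro ⟨w, y⟩ hq
      rw [mem_coe] at hq
      rw [mem_coe, Finset.mem_bipartiteAbove]
      refine ⟨?_, ⟨w, y⟩, hq, rfl, h1, h2⟩
      rw [swp, mem_sigma, mem_sdiff, mem_sdiff] at hq
      simp only at hq
      rw [mem_sdr] at hf ⊢
      refine ⟨fun x => ?_, ?_⟩
      · by_cases hx : x = w
        · subst hx; simpa using hq.2.1.1
        · simpa [hx] using hf.1 x
      · intro x x' hxx
        by_cases hx : x = w
        · by_cases hx' : x' = w
          · rw [hx, hx']
          · subst hx
            simp only [Function.update_self, Function.update_of_ne hx'] at hxx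
            exact absurd (mem_image.2 ⟨x', mem_univ _, hxx.symm⟩) hq.2.2
        · by_cases hx' : x' = w
          · subst hx'
            simp only [Function.update_self, Function.update_of_ne hx] at hxx
            exact absurd (mem_image.2 ⟨x, mem_univ _, hxx⟩) hq.2.2
          · simp only [Function.update_of_ne hx, Function.update_of_ne hx'] at hxx
            exact hf.2 hxx
    · rintro ⟨w, y⟩ hq ⟨w', y'⟩ hq' hqq
      rw [mem_coe, swp, mem_sigma, mem_sdiff, mem_sdiff] at hq hq'
      simp only at hq hq' hqq
      have hww : w = w' := by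
        by_contra hne
        have h4 := congrFun hqq w
        simp only [Function.update_self, Function.update_of_ne hne] at h4
        exact hq.2.2 (mem_image.2 ⟨w, mem_univ _, h4.symm⟩)
      subst hww
      have h4 := congrFun hqq w
      simp only [Function.update_self] at h4
      rw [h4]
  · intro f' hf'
    rw [mem_sdr] at hf'
    by_cases hne : ((((sdr K).filter (fun f => ex f S < k ∧ ex f S' < k ∧ D ≤ (swp K f S S').card))).bipartiteBelow
      (fun f f' => ∃ q ∈ swp K f S S', f' = Function.update f q.1 q.2 ∧ ex f S < k ∧ ex f S' < k) f').Nonempty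
    · obtain ⟨f, hf⟩ := hne
      -- bounds for f'
      have hbd : ex f' S ≤ k ∧ ex f' S' ≤ k := by
        rw [Finset.mem_bipartiteBelow] at hf
        obtain ⟨_, ⟨w, y⟩, _, rfl, h1, h2⟩ := hf
        have key : ∀ T : Finset ℕ, ex (Function.update f w y) T ≤ ex f T + 1 := by
          intro T
          have : (univ.filter (fun x => Function.update f w y x ∉ T)) ⊆
              insert w (univ.filter (fun x => f x ∉ T)) := by
            intro x hx
            rw [mem_filter] at hx
            rw [mem_insert, mem_filter]
            by_cases hxw : x = w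
            · exact Or.inl hxw
            · right
              refine ⟨mem_univ _, ?_⟩
              simpa [hxw] using hx.2
          exact (card_le_card this).trans (card_insert_le _ _)
        exact ⟨(key S).trans h1, (key S').trans h2⟩
      have hsub : ((((sdr K).filter (fun f => ex f S < k ∧ ex f S' < k ∧ D ≤ (swp K f S S').card))).bipartiteBelow
          (fun f f' => ∃ q ∈ swp K f S S', f' = Function.update f q.1 q.2 ∧ ex f S < k ∧ ex f S' < k) f') ⊆
          ((univ.filter (fun w => f' w ∉ S')) ×ˢ (S \ univ.image f')).image
            (fun q => Function.update f' q.1 q.2) := by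
        intro g hg
        rw [Finset.mem_bipartiteBelow, mem_filter, mem_sdr] at hg
        obtain ⟨⟨⟨_, hginj⟩, _⟩, ⟨w, y⟩, hq, hupd, _, _⟩ := hg
        rw [swp, mem_sigma, mem_sdiff, mem_sdiff, mem_filter] at hq
        simp only at hq hupd
        rw [mem_image]
        refine ⟨(w, g w), ?_, ?_⟩
        · rw [mem_product, mem_filter, mem_sdiff]
          refine ⟨⟨mem_univ _, ?_⟩, hq.1.2, ?_⟩
          · simp only
            rw [hupd, Function.update_self]
            exact hq.2.1.2
          · simp only
            intro hmem
            obtain ⟨x, _, hx⟩ := mem_image.1 hmem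
            rw [hupd] at hx
            by_cases hxw : x = w
            · subst hxw
              rw [Function.update_self] at hx
              exact hq.2.2 (mem_image.2 ⟨x, mem_univ _, hx.symm⟩)
            · rw [Function.update_of_ne hxw] at hx
              exact hxw (hginj hx)
        · simp only
          rw [hupd, Function.update_idem, Function.update_eq_self]
      refine (card_le_card hsub).trans (card_image_le.trans ?_)
      rw [card_product, card_unused hf'.2 hS]
      exact Nat.mul_le_mul hbd.2 (by omega)
    · rw [Finset.not_nonempty_iff_eq_empty] at hne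
      rw [hne]
      simp

end

end Pool.Agent.R62.ECC
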