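import Mathlib
import Pool.Agent.R62.ECC2

set_option autoImplicit false

/-!
Joins with large complete graphs: every assignment of lists of size `p + s` to `G ∨ K_p` has at least
as many proper colourings as the constant one, for `p` large.
-/

namespace Pool.Agent.R62.ECC

open Finset
open scoped Classical

noncomputable section

set_option linter.unusedSectionVars false

/-- The join of two graphs: their disjoint union together with all edges between them. -/
def join {V W : Type} (G : SimpleGraph V) (H : SimpleGraph W) : SimpleGraph (V ⊕ W) :=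
  (G ⊕g H) ⊔ completeBipartiteGraph V W

variable {V : Type} [Fintype V]

lemma join_inl_inl {W : Type} (G : SimpleGraph V) (H : SimpleGraph W) (u v : V) :
    (join G H).Adj (Sum.inl u) (Sum.inl v) ↔ G.Adj u v := by
  simp [join]

lemma join_inr_inr {W : Type} (G : SimpleGraph V) (H : SimpleGraph W) (u v : W) :
    (join G H).Adj (Sum.inr u) (Sum.inr v) ↔ H.Adj u v := by
  simp [join]

lemma join_inl_inr {W : Type} (G : SimpleGraph V) (H : SimpleGraph W) (u : V) (v : W) :
    (join G H).Adj (Sum.inl u) (Sum.inr v) := by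
  simp [join]

lemma card_cols_join {W : Type} [Fintype W] (G : SimpleGraph V) (L : V ⊕ W → Finset ℕ) :
    (cols (join G (⊤ : SimpleGraph W)) L).card =
      ∑ f ∈ sdr (fun w => L (Sum.inr w)), (cols G (fun v => L (Sum.inl v) \ univ.image f)).card := by
  rw [← card_sigma]
  symm
  refine Finset.card_bij' (fun q _ => Sum.elim q.2 q.1)
    (fun g _ => ⟨fun w => g (Sum.inr w), fun v => g (Sum.inl v)⟩) ?_ ?_ ?_ ?_
  · rintro ⟨f, φ⟩ hq
    rw [mem_sigma, mem_sdr, mem_cols] at hq
    obtain ⟨⟨h1, h2⟩, h3, h4⟩ := hq
    simp only at h1 h2 h3 h4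
    rw [mem_cols]
    refine ⟨?_, ?_⟩
    · rintro (v | w)
      · exact (mem_sdiff.1 (h3 v)).1
      · exact h1 w
    · rintro (u | a) (v | b) hadj
      · rw [join_inl_inl] at hadj
        exact h4 u v hadj
      · intro hh
        exact (mem_sdiff.1 (h3 u)).2 (mem_image.2 ⟨b, mem_univ _, hh.symm⟩)
      · intro hh
        exact (mem_sdiff.1 (h3 v)).2 (mem_image.2 ⟨a, mem_univ _, hh⟩)
      · rw [join_inr_inr] at hadj
        intro hh
        exact hadj (h2 hh)
  · intro g hg
    rw [mem_cols] at hg
    rw [mem_sigma, mem_sdr, mem_cols]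
    refine ⟨⟨fun w => hg.1 _, ?_⟩, ?_, ?_⟩
    · intro a b hab
      by_contra hne
      exact hg.2 (Sum.inr a) (Sum.inr b) (by rw [join_inr_inr]; exact hne) hab
    · intro v
      rw [mem_sdiff]
      refine ⟨hg.1 _, fun hmem => ?_⟩
      obtain ⟨w, _, hw⟩ := mem_image.1 hmem
      exact hg.2 (Sum.inl v) (Sum.inr w) (join_inl_inr _ _ _ _) hw.symm
    · intro u v huv
      exact hg.2 _ _ (by rw [join_inl_inl]; exact huv)
  · rintro ⟨f, φ⟩ _
    rfl
  · intro g _
    funext x
    cases x <;> rfl

lemma cols_mono {G : SimpleGraph V} {L M : V → Finset ℕ} (h : ∀ v, L v ⊆ M v) : cols G L ⊆ cols G M := by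
  intro f hf
  rw [mem_cols] at hf ⊢
  exact ⟨fun v => h v (hf.1 v), hf.2⟩

lemma cols_const_le (G : SimpleGraph V) {A B : Finset ℕ} (h : A.card ≤ B.card) :
    (cols G (fun _ => A)).card ≤ (cols G (fun _ => B)).card := by
  obtain ⟨ι⟩ : Nonempty (A ↪ B) := Function.Embedding.nonempty_of_card_le (by simpa using h)
  refine Finset.card_le_card_of_injOn
    (fun f => fun v => if hv : f v ∈ A then (ι ⟨f v, hv⟩ : ℕ) else 0) ?_ ?_
  · intro f hf
    rw [mem_coe, mem_cols] at hf ⊢
    refine ⟨fun v => ?_, fun u v huv => ?_⟩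
    · simp only [hf.1 v, dite_true]
      exact (ι _).2
    · simp only [hf.1 v, hf.1 u, dite_true]
      intro hh
      have := ι.injective (Subtype.ext hh)
      exact hf.2 u v huv (congrArg Subtype.val this)
  · intro f hf g hg hfg
    rw [mem_coe, mem_cols] at hf hg
    funext v
    have := congrFun hfg v
    simp only [hf.1 v, hg.1 v, dite_true] at this
    have := ι.injective (Subtype.ext this)
    exact congrArg Subtype.val this

lemma cols_const_eq (G : SimpleGraph V) {A B : Finset ℕ} (h : A.card = B.card) :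
    (cols G (fun _ => A)).card = (cols G (fun _ => B)).card :=
  le_antisymm (cols_const_le G h.le) (cols_const_le G h.ge)

/-- `P(G, s)` -/
def chr (G : SimpleGraph V) (s : ℕ) : ℕ := (cols G (fun _ => range s)).card

lemma chr_eq (G : SimpleGraph V) {s : ℕ} {A : Finset ℕ} (h : A.card = s) :
    (cols G (fun _ => A)).card = chr G s := cols_const_eq G (by simpa using h)

lemma chr_le (G : SimpleGraph V) {s : ℕ} {A : Finset ℕ} (h : s ≤ A.card) :
    chr G s ≤ (cols G (fun _ => A)).card := cols_const_le G (by simpa using h)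

/-- lower bounds when some lists are large and the others share a set -/
lemma cols_rich (G : SimpleGraph V) (M : V → Finset ℕ) (T : Finset ℕ) (R : Finset V) (s : ℕ)
    (hT : s ≤ T.card) (hP : 1 ≤ chr G s) (hpoor : ∀ v, v ∉ R → T ⊆ M v)
    (hrich : ∀ v ∈ R, chr G s + 1 + 2 * Fintype.card V ≤ (M v).card) (hR : R.Nonempty) :
    chr G s + 1 ≤ (cols G M).card := by
  obtain ⟨φ, hφ⟩ := card_pos.1 (hP.trans (chr_le G hT))
  rw [mem_cols] at hφ
  have h1 := sdr_card (fun r : R => M r.1 \ univ.image φ) (chr G s + 1 + Fintype.card V) (by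
    intro r
    have h2 := Finset.le_card_sdiff (univ.image φ) (M r.1)
    have h3 : (univ.image φ).card ≤ Fintype.card V := by
      simpa using (card_image_le (s := (univ : Finset V)) (f := φ))
    have h4 := hrich r.1 r.2
    omega)
  have h2 : (sdr (fun r : R => M r.1 \ univ.image φ)).card ≤ (cols G M).card := by
    refine Finset.card_le_card_of_injOn
      (fun g => fun v => if hv : v ∈ R then g ⟨v, hv⟩ else φ v) ?_ ?_
    · intro g hg
      rw [mem_coe, mem_sdr] at hg
      have hg1 : ∀ r : R, g r ∈ M r.1 ∧ g r ∉ univ.image φ := fun r => mem_sdiff.1 (hg.1 r)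
      rw [mem_coe, mem_cols]
      refine ⟨fun v => ?_, fun u v huv => ?_⟩
      · dsimp only
        split_ifs with hv
        · exact (hg1 ⟨v, hv⟩).1
        · exact hpoor v hv (hφ.1 v)
      · dsimp only
        split_ifs with hu hv hv
        · intro hh
          exact huv.ne (congrArg Subtype.val (hg.2 hh))
        · intro hh
          exact (hg1 ⟨u, hu⟩).2 (mem_image.2 ⟨v, mem_univ _, hh.symm⟩)
        · intro hh
          exact (hg1 ⟨v, hv⟩).2 (mem_image.2 ⟨u, mem_univ _, hh⟩)
        · exact hφ.2 u v huv
    · intro g _ g' _ hgg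
      funext r
      have := congrFun hgg r.1
      simpa using this
  refine le_trans ?_ h2
  refine le_trans ?_ h1
  have hc : Fintype.card R = R.card := Fintype.card_coe R
  have hcn : R.card ≤ Fintype.card V := card_le_univ _
  have hc1 : 1 ≤ R.card := card_pos.2 hR
  rw [hc]
  refine le_trans ?_ (Nat.pow_sub_le_descFactorial _ _)
  calc chr G s + 1 ≤ (chr G s + 1 + Fintype.card V + 1 - R.card) := by omega
    _ = (chr G s + 1 + Fintype.card V + 1 - R.card) ^ 1 := (pow_one _).symm
    _ ≤ _ := Nat.pow_le_pow_right (by omega) hc1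

lemma cols_extra (G : SimpleGraph V) (M : V → Finset ℕ) (T : Finset ℕ) (s : ℕ)
    (hT : s ≤ T.card) (hP : 1 ≤ chr G s) (hpoor : ∀ v, T ⊆ M v)
    {v : V} {y : ℕ} (hy : y ∈ M v) (hyT : y ∉ T) :
    chr G s + 1 ≤ (cols G M).card := by
  obtain ⟨φ, hφ⟩ := card_pos.1 (hP.trans (chr_le G hT))
  have hφ' := mem_cols.1 hφ
  have h1 : insert (Function.update φ v y) (cols G (fun _ => T)) ⊆ cols G M := by
    rw [insert_subset_iff]
    refine ⟨?_, cols_mono hpoor⟩
    rw [mem_cols]
    refine ⟨fun u => ?_, fun a b hab => ?_⟩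
    · by_cases hu : u = v
      · subst hu; simpa using hy
      · rw [Function.update_of_ne hu]; exact hpoor u (hφ'.1 u)
    · by_cases ha : a = v
      · have hb : b ≠ v := fun hb => hab.ne (ha.trans hb.symm)
        rw [ha, Function.update_self, Function.update_of_ne hb]
        intro hh
        exact hyT (by rw [hh]; exact hφ'.1 b)
      · by_cases hb : b = v
        · rw [hb, Function.update_self, Function.update_of_ne ha]
          intro hh
          exact hyT (by rw [← hh]; exact hφ'.1 a)
        · rw [Function.update_of_ne ha, Function.update_of_ne hb]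
          exact hφ'.2 a b hab
  have h2 := card_le_card h1
  rw [card_insert_of_notMem] at h2
  · exact le_trans (Nat.add_le_add_right (chr_le G hT) 1) h2
  · intro hmem
    have := (mem_cols.1 hmem).1 v
    rw [Function.update_self] at this
    exact hyT this

/-- number of lists containing a colour -/
def mult {W : Type} [Fintype W] (K : W → Finset ℕ) (z : ℕ) : ℕ := (univ.filter (fun w => z ∈ K w)).card

/-- the common core: enough unused colours are in many lists -/
lemma core {W : Type} [Fintype W] (K : W → Finset ℕ) (f : W → ℕ) (hf : f ∈ sdr K) (S : Finset ℕ)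
    (s k D : ℕ) (hK : ∀ w, (K w).card = Fintype.card W + s) (hS : S.card = Fintype.card W + s)
    (he : ex f S < k) (hD : (swp K f S S).card < D)
    (hp : D + k * (2 * k + D) < Fintype.card W) :
    s ≤ ((S \ univ.image f).filter (fun z => D + k ≤ mult K z)).card := by
  rw [mem_sdr] at hf
  set Sp := S.filter (fun z => mult K z < D + k) with hSp
  set Wi := univ.filter (fun w => f w ∈ S) with hWi
  set e := ex f S with hedef
  have hWic : Wi.card + e = Fintype.card W := by
    have h3 := Finset.card_filter_add_card_filter_not (s := (univ : Finset W)) (fun w => f w ∈ S)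
    rw [card_univ] at h3
    exact h3
  -- upper bound
  have hup : ∑ w ∈ Wi, (S \ K w).card ≤ D + Fintype.card W * e := by
    have h1 : ∀ w ∈ Wi, (S \ K w).card ≤ ((K w \ S) \ univ.image f).card + e := by
      intro w _
      rw [Finset.card_sdiff_comm (by rw [hS, hK])]
      rw [← Finset.card_sdiff_add_card_inter (K w \ S) (univ.image f)]
      gcongr
      have : (K w \ S) ∩ univ.image f ⊆ (univ.filter (fun w => f w ∉ S)).image f := by
        intro x hx
        rw [mem_inter, mem_sdiff, mem_image] at hx
        obtain ⟨⟨_, h2⟩, w', _, rfl⟩ := hx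
        exact mem_image_of_mem _ (by simpa using h2)
      exact (card_le_card this).trans card_image_le
    refine (Finset.sum_le_sum h1).trans ?_
    rw [Finset.sum_add_distrib, sum_const, smul_eq_mul]
    have h2 : ∑ w ∈ Wi, ((K w \ S) \ univ.image f).card = (swp K f S S).card := by
      rw [swp, card_sigma]
    rw [h2]
    have h3 : Wi.card * e ≤ Fintype.card W * e := by
      gcongr; omega
    omega
  -- lower bound
  have hlow : Sp.card * (Wi.card - (D + k)) ≤ ∑ w ∈ Wi, (S \ K w).card := by
    have h1 : ∑ w ∈ Wi, (Sp \ K w).card ≤ ∑ w ∈ Wi, (S \ K w).card := by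
      apply Finset.sum_le_sum
      intro w _
      exact card_le_card (sdiff_subset_sdiff (filter_subset _ _) (le_refl _))
    refine le_trans ?_ h1
    have h2 : ∑ w ∈ Wi, (Sp \ K w).card = ∑ z ∈ Sp, (Wi.filter (fun w => z ∉ K w)).card := by
      have h3 : ∀ w, (Sp \ K w).card = ∑ z ∈ Sp, if z ∉ K w then 1 else 0 := by
        intro w
        rw [← card_filter, Finset.sdiff_eq_filter]
      simp only [h3]
      rw [Finset.sum_comm]
      apply Finset.sum_congr rfl
      intro z _
      rw [card_filter]
    rw [h2, ← smul_eq_mul]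
    apply Finset.card_nsmul_le_sum
    intro z hz
    have h3 := Finset.card_filter_add_card_filter_not (s := Wi) (fun w => z ∉ K w)
    have h4 : (Wi.filter (fun w => ¬ z ∉ K w)).card ≤ mult K z := by
      rw [mult]
      apply card_le_card
      intro w hw
      rw [mem_filter] at hw ⊢
      exact ⟨mem_univ _, not_not.1 hw.2⟩
    have h5 : mult K z < D + k := (mem_filter.1 hz).2
    omega
  have hSpe : Sp.card ≤ e := by
    by_contra hcon
    push Not at hcon
    have h1 : (e + 1) * (Wi.card - (D + k)) ≤ D + Fintype.card W * e :=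
      le_trans (Nat.mul_le_mul_right _ hcon) (hlow.trans hup)
    have h2 : Wi.card = Fintype.card W - e := by omega
    have hkp : k * (2 * k + D) < Fintype.card W := by omega
    have h3 : 2 * k + D ≤ k * (2 * k + D) := Nat.le_mul_of_pos_left _ (by omega)
    obtain ⟨r, hr⟩ : ∃ r, Fintype.card W = r + e + (D + k) := ⟨Fintype.card W - e - (D + k), by omega⟩
    have h4 : Wi.card - (D + k) = r := by omega
    rw [h4, hr] at h1
    have h5 : r ≤ D + (e + (D + k)) * e := by nlinarith
    have h6 : (e + (D + k)) * (e + 1) ≤ (2 * k + D) * k := by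
      apply Nat.mul_le_mul <;> omega
    have h7 : Fintype.card W ≤ D + k * (2 * k + D) := by
      rw [hr]; nlinarith
    omega
  have hun := card_unused hf.2 hS
  have hsub : (S \ univ.image f) \ Sp ⊆ (S \ univ.image f).filter (fun z => D + k ≤ mult K z) := by
    intro z hz
    rw [mem_sdiff] at hz
    rw [mem_filter]
    refine ⟨hz.1, ?_⟩
    by_contra hcon
    push Not at hcon
    exact hz.2 (by rw [hSp, mem_filter]; exact ⟨(mem_sdiff.1 hz.1).1, hcon⟩)
  have h1 := card_le_card hsub
  have h2 := Finset.le_card_sdiff Sp (S \ univ.image f)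
  omega

lemma core_subset {W : Type} [Fintype W] (K : W → Finset ℕ) (f : W → ℕ) (S S' : Finset ℕ)
    (k D : ℕ) (he : ex f S < k) (hD : (swp K f S S').card < D) (z : ℕ) (hz : z ∈ S \ univ.image f)
    (hm : D + k ≤ mult K z) : z ∈ S' \ univ.image f := by
  rw [mem_sdiff] at hz ⊢
  refine ⟨?_, hz.2⟩
  by_contra hzS
  have h1 : ((univ.filter (fun w => f w ∈ S)).filter (fun w => z ∈ K w)).card ≤ (swp K f S S').card := by
    refine Finset.card_le_card_of_injOn (fun w => ⟨w, z⟩) ?_ ?_
    · intro w hw
      rw [mem_coe, mem_filter] at hw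
      rw [mem_coe, swp, mem_sigma, mem_sdiff, mem_sdiff]
      exact ⟨hw.1, ⟨hw.2, hzS⟩, hz.2⟩
    · intro a _ b _ hab
      exact (Sigma.mk.inj_iff.1 hab).1
  have h2 : mult K z ≤ ((univ.filter (fun w => f w ∈ S)).filter (fun w => z ∈ K w)).card + ex f S := by
    rw [mult, ex]
    refine le_trans (card_le_card ?_) (card_union_le _ _)
    intro w hw
    rw [mem_filter] at hw
    rw [mem_union, mem_filter, mem_filter, mem_filter]
    by_cases hfw : f w ∈ S
    · exact Or.inl ⟨⟨mem_univ _, hfw⟩, hw.2⟩
    · exact Or.inr ⟨mem_univ _, hfw⟩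
  omega

/-- the main inequality for fixed `s` -/
theorem main_ineq (G : SimpleGraph V) (s : ℕ) (hP : 1 ≤ chr G s) :
    ∃ p₀ : ℕ, ∀ (W : Type) [Fintype W], p₀ ≤ Fintype.card W → ∀ L : V ⊕ W → Finset ℕ,
      (∀ x, (L x).card = Fintype.card W + s) →
      (Fintype.card W + s).descFactorial (Fintype.card W) * chr G s ≤
        (cols (join G (⊤ : SimpleGraph W)) L).card := by
  set P := chr G s with hPdef
  set n := Fintype.card V with hn
  set k := P + 1 + 2 * n with hk
  set a := (s + 1) * (s + 2) with ha
  set Q := (a + 1) * (P + 1) with hQ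
  set B := n * n * (k * (s + k)) with hB
  set D := (B + 1) * Q with hD
  refine ⟨D + k * (2 * k + D) + 2, ?_⟩
  intro W _ hW L hL
  set p := Fintype.card W with hp
  set K : W → Finset ℕ := fun w => L (Sum.inr w) with hK
  have hKc : ∀ w, (K w).card = p + s := fun w => hL _
  set F := sdr K with hF
  have hFlow : (p + s).descFactorial p ≤ F.card := sdr_card K (p + s) (fun w => (hKc w).ge)
  rw [card_cols_join]
  -- the bad choices
  set Bad := (univ : Finset (V × V)).biUnion (fun q => F.filter (fun f =>
    ex f (L (Sum.inl q.1)) < k ∧ ex f (L (Sum.inl q.2)) < k ∧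
      D ≤ (swp K f (L (Sum.inl q.1)) (L (Sum.inl q.2))).card)) with hBad
  have hBadsub : Bad ⊆ F := by
    intro f hf
    rw [hBad, mem_biUnion] at hf
    obtain ⟨q, _, hq⟩ := hf
    exact (mem_filter.1 hq).1
  have hBadQ : Bad.card * Q ≤ F.card := by
    have h1 : Bad.card * D ≤ B * F.card := by
      calc Bad.card * D ≤ (∑ q : V × V, (F.filter (fun f =>
            ex f (L (Sum.inl q.1)) < k ∧ ex f (L (Sum.inl q.2)) < k ∧
            D ≤ (swp K f (L (Sum.inl q.1)) (L (Sum.inl q.2))).card)).card) * D := by
              gcongr; exact card_biUnion_le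
        _ = ∑ q : V × V, (F.filter (fun f =>
            ex f (L (Sum.inl q.1)) < k ∧ ex f (L (Sum.inl q.2)) < k ∧
            D ≤ (swp K f (L (Sum.inl q.1)) (L (Sum.inl q.2))).card)).card * D := by
              rw [Finset.sum_mul]
        _ ≤ ∑ _q : V × V, F.card * (k * (s + k)) := by
              apply Finset.sum_le_sum
              intro q _
              exact switching K _ _ s k D (hL _)
        _ = B * F.card := by
              rw [sum_const, card_univ, Fintype.card_prod, smul_eq_mul, hB]; ring
    have h2 : (B + 1) * (Bad.card * Q) ≤ (B + 1) * F.card := by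
      calc (B + 1) * (Bad.card * Q) = Bad.card * D := by rw [hD]; ring
        _ ≤ B * F.card := h1
        _ ≤ (B + 1) * F.card := by gcongr; omega
    exact Nat.le_of_mul_le_mul_left h2 (by omega)
  -- good choices
  have hgood : ∀ f ∈ F \ Bad, ∀ v v' : V, ex f (L (Sum.inl v)) < k → ex f (L (Sum.inl v')) < k →
      (swp K f (L (Sum.inl v)) (L (Sum.inl v'))).card < D := by
    intro f hf v v' h1 h2
    rw [mem_sdiff] at hf
    by_contra hcon
    push Not at hcon
    apply hf.2
    rw [hBad, mem_biUnion]
    exact ⟨(v, v'), mem_univ _, mem_filter.2 ⟨hf.1, h1, h2, hcon⟩⟩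
  have hunused : ∀ f ∈ F, ∀ v : V, (L (Sum.inl v) \ univ.image f).card = s + ex f (L (Sum.inl v)) := by
    intro f hf v
    exact card_unused (mem_sdr.1 hf).2 (hL _)
  -- structure for good choices
  have hstruct : ∀ f ∈ F \ Bad, P ≤ (cols G (fun v => L (Sum.inl v) \ univ.image f)).card ∧
      ((∃ v y, y ∈ L (Sum.inl v) \ univ.image f ∧ mult K y = 0) →
        P + 1 ≤ (cols G (fun v => L (Sum.inl v) \ univ.image f)).card) := by
    intro f hf
    have hfF : f ∈ F := (mem_sdiff.1 hf).1
    set R := univ.filter (fun v : V => k ≤ ex f (L (Sum.inl v))) with hR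
    have hpoor' : ∀ v, v ∉ R → ex f (L (Sum.inl v)) < k := by
      intro v hv
      by_contra hcon
      push Not at hcon
      exact hv (mem_filter.2 ⟨mem_univ _, hcon⟩)
    obtain ⟨T, hTs, hTpoor, hTm⟩ : ∃ T : Finset ℕ, s ≤ T.card ∧
        (∀ v, v ∉ R → T ⊆ L (Sum.inl v) \ univ.image f) ∧
        ((∃ v, v ∉ R) → ∀ z ∈ T, D + k ≤ mult K z) := by
      by_cases hex : ∃ v, v ∉ R
      · obtain ⟨v, hv⟩ := hex
        refine ⟨(L (Sum.inl v) \ univ.image f).filter (fun z => D + k ≤ mult K z), ?_, ?_, ?_⟩
        · exact core K f hfF (L (Sum.inl v)) s k D hKc (hL _) (hpoor' v hv)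
            (hgood f hf v v (hpoor' v hv) (hpoor' v hv)) (by omega)
        · intro v' hv' z hz
          rw [mem_filter] at hz
          exact core_subset K f _ _ k D (hpoor' v hv) (hgood f hf v v' (hpoor' v hv) (hpoor' v' hv'))
            z hz.1 hz.2
        · intro _ z hz
          exact (mem_filter.1 hz).2
      · refine ⟨range s, by simp, ?_, ?_⟩
        · intro v hv; exact absurd ⟨v, hv⟩ hex
        · intro h; exact absurd h hex
    by_cases hRne : R.Nonempty
    · have h1 := cols_rich G (fun v => L (Sum.inl v) \ univ.image f) T R s hTs hP hTpoor (by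
        intro v hv
        rw [hunused f hfF v]
        have := (mem_filter.1 hv).2
        omega) hRne
      exact ⟨by omega, fun _ => h1⟩
    · rw [Finset.not_nonempty_iff_eq_empty] at hRne
      have hTall : ∀ v, T ⊆ L (Sum.inl v) \ univ.image f := by
        intro v; exact hTpoor v (by rw [hRne]; exact notMem_empty _)
      refine ⟨(chr_le G hTs).trans (card_le_card (cols_mono hTall)), ?_⟩
      rintro ⟨v, y, hy, hy0⟩
      refine cols_extra G _ T s hTs hP hTall hy ?_
      intro hyT
      have := hTm ⟨v, by rw [hRne]; exact notMem_empty _⟩ y hyT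
      omega
  have htot : ∑ f ∈ F \ Bad, (cols G (fun v => L (Sum.inl v) \ univ.image f)).card ≤
      ∑ f ∈ F, (cols G (fun v => L (Sum.inl v) \ univ.image f)).card :=
    Finset.sum_le_sum_of_subset sdiff_subset
  have hcard : (F \ Bad).card = F.card - Bad.card := card_sdiff_of_subset hBadsub
  have hBle : Bad.card ≤ F.card := card_le_card hBadsub
  by_cases hne : ∃ w w', K w ≠ K w'
  · -- (i)
    obtain ⟨w, w', hww⟩ := hne
    have h1 := sdr_card_ne K s hKc hww
    have h2 : Bad.card * (a + 1) ≤ F.card := by
      refine le_trans ?_ hBadQ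
      rw [hQ]
      calc Bad.card * (a + 1) = Bad.card * ((a + 1) * 1) := by ring
        _ ≤ Bad.card * ((a + 1) * (P + 1)) := by gcongr; omega
    have h3 : (p + s).descFactorial p ≤ (F \ Bad).card := by
      rw [hcard]
      have h4 : (a + 1) * (p + s).descFactorial p ≤ (a + 1) * (F.card - Bad.card) := by
        have h5 : (a + 1) * (p + s).descFactorial p ≤ F.card * a := h1
        have h6 : (a + 1) * (F.card - Bad.card) = (a + 1) * F.card - Bad.card * (a + 1) := by
          rw [Nat.mul_sub, mul_comm (a + 1) Bad.card]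
        rw [h6]
        have h7 : (a + 1) * F.card = F.card * a + F.card := by ring
        omega
      exact Nat.le_of_mul_le_mul_left h4 (by omega)
    refine le_trans ?_ htot
    calc (p + s).descFactorial p * P ≤ (F \ Bad).card * P := by gcongr
      _ = (F \ Bad).card • P := by rw [smul_eq_mul]
      _ ≤ _ := Finset.card_nsmul_le_sum _ _ _ (fun f hf => (hstruct f hf).1)
  · push Not at hne
    have hWne : Nonempty W := by
      rw [← Fintype.card_pos_iff]; omega
    obtain ⟨w₀⟩ := hWne
    by_cases hall : ∀ v, L (Sum.inl v) = K w₀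
    · -- (iii)
      have h1 : ∀ f ∈ F, (cols G (fun v => L (Sum.inl v) \ univ.image f)).card = P := by
        intro f hf
        have h2 : (fun v => L (Sum.inl v) \ univ.image f) = fun _ => K w₀ \ univ.image f := by
          funext v; rw [hall v]
        rw [h2]
        apply chr_eq
        rw [card_unused (mem_sdr.1 hf).2 (hKc w₀)]
        have : ex f (K w₀) = 0 := by
          rw [ex, Finset.card_eq_zero, Finset.filter_eq_empty_iff]
          intro w _
          rw [not_not, ← hne w w₀]
          exact (mem_sdr.1 hf).1 w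
        omega
      rw [Finset.sum_congr rfl h1, sum_const, smul_eq_mul]
      gcongr
    · -- (ii)
      push Not at hall
      obtain ⟨v₀, hv₀⟩ := hall
      obtain ⟨y, hy, hy'⟩ : ∃ y, y ∈ L (Sum.inl v₀) ∧ y ∉ K w₀ := by
        by_contra hcon
        push Not at hcon
        exact hv₀ (Finset.eq_of_subset_of_card_le (fun y hy => hcon y hy) (by rw [hKc w₀, hL (Sum.inl v₀)]))
      have hmul : mult K y = 0 := by
        rw [mult, Finset.card_eq_zero, Finset.filter_eq_empty_iff]
        intro w _
        rw [hne w w₀]; exact hy'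
      have h1 : ∀ f ∈ F \ Bad, P + 1 ≤ (cols G (fun v => L (Sum.inl v) \ univ.image f)).card := by
        intro f hf
        refine (hstruct f hf).2 ⟨v₀, y, ?_, hmul⟩
        rw [mem_sdiff]
        refine ⟨hy, fun hmem => ?_⟩
        obtain ⟨w, _, hw⟩ := mem_image.1 hmem
        apply hy'
        rw [← hw, ← hne w w₀]
        exact (mem_sdr.1 (mem_sdiff.1 hf).1).1 w
      have h2 : Bad.card * (P + 1) ≤ F.card := by
        refine le_trans ?_ hBadQ
        rw [hQ]
        calc Bad.card * (P + 1) = Bad.card * (1 * (P + 1)) := by ring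
          _ ≤ Bad.card * ((a + 1) * (P + 1)) := by gcongr; omega
      refine le_trans ?_ htot
      calc (p + s).descFactorial p * P ≤ F.card * P := by gcongr
        _ ≤ (F \ Bad).card * (P + 1) := by
            rw [hcard, Nat.sub_mul]
            have : F.card * (P + 1) = F.card * P + F.card := by ring
            omega
        _ = (F \ Bad).card • (P + 1) := by rw [smul_eq_mul]
        _ ≤ _ := Finset.card_nsmul_le_sum _ _ _ h1

/-- the inequality for large `s`, by Donner's theorem -/
theorem large_ineq (G : SimpleGraph V) (s : ℕ)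
    (hs : 2 ^ G.edgeFinset.card * Fintype.card V ^ 3 + 1 ≤ s)
    (W : Type) [Fintype W] (L : V ⊕ W → Finset ℕ) (hL : ∀ x, (L x).card = Fintype.card W + s) :
    (Fintype.card W + s).descFactorial (Fintype.card W) * chr G s ≤
      (cols (join G (⊤ : SimpleGraph W)) L).card := by
  rw [card_cols_join]
  have h1 : ∀ f ∈ sdr (fun w => L (Sum.inr w)),
      chr G s ≤ (cols G (fun v => L (Sum.inl v) \ univ.image f)).card := by
    intro f hf
    have h2 : ∀ v, ∃ M : Finset ℕ, M ⊆ L (Sum.inl v) \ univ.image f ∧ M.card = s := by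
      intro v
      apply Finset.exists_subset_card_eq
      rw [card_unused (mem_sdr.1 hf).2 (hL _)]
      omega
    choose M hM hMc using h2
    refine le_trans ?_ (card_le_card (cols_mono hM))
    exact donner G s (range s) (by simp) M hMc hs
  refine le_trans ?_ (Finset.card_nsmul_le_sum _ _ _ h1)
  rw [smul_eq_mul]
  have := sdr_card (fun w => L (Sum.inr w)) (Fintype.card W + s) (fun w => (hL _).ge)
  gcongr

/-- the number of colourings for constant lists -/
theorem const_count (G : SimpleGraph V) (s : ℕ) (W : Type) [Fintype W] (A : Finset ℕ)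
    (hA : A.card = Fintype.card W + s) :
    (cols (join G (⊤ : SimpleGraph W)) (fun _ => A)).card =
      (Fintype.card W + s).descFactorial (Fintype.card W) * chr G s := by
  rw [card_cols_join]
  have h1 : ∀ f ∈ sdr (fun _ : W => A), (cols G (fun _ => A \ univ.image f)).card = chr G s := by
    intro f hf
    apply chr_eq
    rw [card_unused (mem_sdr.1 hf).2 hA]
    have : ex f A = 0 := by
      rw [ex, Finset.card_eq_zero, Finset.filter_eq_empty_iff]
      intro w _
      rw [not_not]
      exact (mem_sdr.1 hf).1 w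
    omega
  rw [Finset.sum_congr rfl h1, sum_const, smul_eq_mul, sdr_card_const, hA]

/-- for `p` large, the constant assignment minimises the number of colourings for all `s` -/
theorem all_ineq (G : SimpleGraph V) : ∃ p₀ : ℕ, ∀ (W : Type) [Fintype W], p₀ ≤ Fintype.card W →
    ∀ s : ℕ, 1 ≤ chr G s → ∀ L : V ⊕ W → Finset ℕ, (∀ x, (L x).card = Fintype.card W + s) →
      (Fintype.card W + s).descFactorial (Fintype.card W) * chr G s ≤
        (cols (join G (⊤ : SimpleGraph W)) L).card := by
  have h : ∀ s : ℕ, ∃ p₀ : ℕ, 1 ≤ chr G s → ∀ (W : Type) [Fintype W], p₀ ≤ Fintype.card W →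
      ∀ L : V ⊕ W → Finset ℕ, (∀ x, (L x).card = Fintype.card W + s) →
      (Fintype.card W + s).descFactorial (Fintype.card W) * chr G s ≤
        (cols (join G (⊤ : SimpleGraph W)) L).card := by
    intro s
    by_cases hP : 1 ≤ chr G s
    · obtain ⟨p₀, h⟩ := main_ineq G s hP
      exact ⟨p₀, fun _ => h⟩
    · exact ⟨0, fun hh => absurd hh hP⟩
  choose q hq using h
  set N := 2 ^ G.edgeFinset.card * Fintype.card V ^ 3 + 1 with hN
  refine ⟨∑ s ∈ range N, q s, ?_⟩
  intro W _ hW s hP L hL
  by_cases hs : N ≤ s
  · exact large_ineq G s hs W L hL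
  · push Not at hs
    refine hq s hP W ?_ L hL
    exact (Finset.single_le_sum (fun _ _ => Nat.zero_le _) (mem_range.2 hs)).trans hW

end

end Pool.Agent.R62.ECC
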