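import Pool.Agent.R62.LamMain

/-!
# Antichains of partitions are finite, and the general separation theorem
-/

namespace Pool.Agent.R62.Lam

open Finset

lemma ple_of_sublist (l l' : List ℕ) (hl : IsPartition (l : Multiset ℕ))
    (hl' : IsPartition (l' : Multiset ℕ)) (h : List.SublistForall₂ (fun a b => a ≤ b) l l') :
    PLe (l : Multiset ℕ) (l' : Multiset ℕ) := by
  classical
  rw [List.sublistForall₂_iff] at h
  obtain ⟨e, he, hsub⟩ := h
  obtain ⟨u, hu⟩ : ∃ u : Multiset ℕ, (l' : Multiset ℕ) = (e : Multiset ℕ) + u :=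
    ⟨(l' : Multiset ℕ) - e, (add_tsub_cancel_of_le (Multiset.coe_le.2 hsub.subperm)).symm⟩
  cases he with
  | nil => exact absurd rfl hl.1
  | @cons a b t t' hab htt =>
    refine ⟨(b + u.sum) ::ₘ (t' : Multiset ℕ), ?_, ?_⟩
    · rw [← Multiset.cons_coe]
      refine Multiset.Rel.cons (hab.trans (Nat.le_add_right _ _)) ?_
      have : ∀ (s s' : List ℕ), List.Forall₂ (fun a b => a ≤ b) s s' →
          Multiset.Rel (fun a b => a ≤ b) (s : Multiset ℕ) (s' : Multiset ℕ) := by
        intro s s' h
        induction h with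
        | nil => exact Multiset.Rel.zero
        | cons h _ ih =>
          rw [← Multiset.cons_coe, ← Multiset.cons_coe]
          exact Multiset.Rel.cons h ih
      exact this _ _ htt
    · apply Relation.ReflTransGen.single
      refine ⟨(t' : Multiset ℕ), b + u.sum, b ::ₘ u, rfl, ⟨Multiset.cons_ne_zero, ?_⟩, ?_, ?_⟩
      · intro x hx
        apply hl'.2
        rw [hu, ← Multiset.cons_coe]
        rcases Multiset.mem_cons.1 hx with rfl | hx
        · simp
        · rw [Multiset.mem_add]
          exact Or.inr hx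
      · simp
      · rw [hu, ← Multiset.cons_coe]
        rw [Multiset.cons_add, Multiset.cons_add, add_comm]

/-- Antichains of partitions are finite. -/
theorem antichain_finite (A : Set (Multiset ℕ)) (hA : ∀ l ∈ A, IsPartition l)
    (h : ∀ l ∈ A, ∀ l' ∈ A, l ≠ l' → ¬ PLe l l') : A.Finite := by
  by_contra hinf
  have hinf : A.Infinite := hinf
  let f := hinf.natEmbedding
  have hpwo := Set.PartiallyWellOrderedOn.partiallyWellOrderedOn_sublistForall₂
    (α := ℕ) (fun a b => a ≤ b) (s := Set.univ) (Set.isPWO_of_wellQuasiOrderedLE _)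
  obtain ⟨m, n, hmn, hr⟩ := hpwo (fun n => ⟨(f n).1.toList, fun x _ => Set.mem_univ x⟩)
  have h1 : PLe (f m).1 (f n).1 := by
    have := ple_of_sublist (f m).1.toList (f n).1.toList
      (by rw [Multiset.coe_toList]; exact hA _ (f m).2)
      (by rw [Multiset.coe_toList]; exact hA _ (f n).2) hr
    rwa [Multiset.coe_toList, Multiset.coe_toList] at this
  refine h _ (f m).2 _ (f n).2 ?_ h1
  intro heq
  have := f.injective (Subtype.ext heq)
  omega

/-- **General separation theorem**: `A` arbitrary finite, `B` finite. -/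
theorem exists_separating_sets (A B : Set (Multiset ℕ)) (hfA : A.Finite) (hfB : B.Finite)
    (hA : ∀ l ∈ A, IsPartition l) (hB : ∀ l ∈ B, IsPartition l)
    (h : ∀ l ∈ A, ∀ l' ∈ B, ¬ PLe l l') :
    ∃ (V : Type) (_ : Fintype V) (_ : Nonempty V) (G : SimpleGraph V),
      (∀ l ∈ A, Choosable G l) ∧ ∀ l ∈ B, ¬ Choosable G l := by
  classical
  induction B, hfB using Set.Finite.induction_on with
  | empty =>
    refine ⟨Unit, inferInstance, inferInstance, ⊥, ?_, fun l hl => absurd hl (Set.notMem_empty l)⟩
    intro l hl C L hL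
    obtain ⟨q, k, Cl, h1, h2, h3, h4⟩ := hL
    have hp := hA l hl
    have hq : Nonempty (Fin q) := by
      by_contra hq
      have hq' : IsEmpty (Fin q) := not_nonempty_iff.1 hq
      apply hp.1
      rw [← h1, Multiset.map_eq_zero, Finset.val_eq_zero]
      exact Finset.univ_eq_empty_iff.2 hq'
    obtain ⟨i⟩ := hq
    have hki : 0 < k i := by
      apply hp.2
      rw [← h1]
      exact Multiset.mem_map_of_mem k (mem_univ_val i)
    have hne : ((L () : Set C) ∩ Cl i).Nonempty := by
      apply Set.nonempty_of_ncard_ne_zero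
      rw [h4]
      omega
    obtain ⟨c, hc, _⟩ := hne
    exact ⟨fun _ => c, fun _ => hc, fun u v huv => absurd huv (by simp)⟩
  | @insert μ B hμ hfB ih =>
    obtain ⟨V, iV, nV, G, h1, h2⟩ := ih (fun l hl => hB l (Set.mem_insert_of_mem _ hl))
      (fun l hl l' hl' => h l hl l' (Set.mem_insert_of_mem _ hl'))
    obtain ⟨W, iW, H, h3, h4⟩ := exists_separating A hfA hA μ (hB μ (Set.mem_insert _ _))
      (fun l hl => h l hl μ (Set.mem_insert _ _))
    refine ⟨V ⊕ W, inferInstance, inferInstance, G ⊕g H,
      fun l hl => (h1 l hl).sum (h3 l hl), ?_⟩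
    intro l hl
    rcases Set.mem_insert_iff.1 hl with rfl | hl
    · exact not_choosable_sum_right h4
    · exact not_choosable_sum_left (h2 l hl)

end Pool.Agent.R62.Lam
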