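import Mathlib

/-!
# `λ`-choosability: definitions (partitions, order, assignments) and basic facts
-/

namespace Pool.Agent.R62.Lam

open Finset

/-- `l` is a partition of a positive integer: a nonempty finite multiset of positive integers. -/
def IsPartition (l : Multiset ℕ) : Prop := l ≠ 0 ∧ ∀ x ∈ l, 0 < x

/-- `l'` arises from `l` by replacing one part `a` of `l` by a partition `p` of `a`. -/
def RefStep (l l' : Multiset ℕ) : Prop :=
  ∃ (s : Multiset ℕ) (a : ℕ) (p : Multiset ℕ),
    l = a ::ₘ s ∧ IsPartition p ∧ p.sum = a ∧ l' = p + s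

/-- `l'` is a refinement of `l`: it arises from `l` by repeatedly replacing one part by a
partition of that part. -/
def Refines (l' l : Multiset ℕ) : Prop := Relation.ReflTransGen RefStep l l'

/-- `l ≤ l'`: for suitable `d_i ≥ 0` the partition `l'` is a refinement of the multiset `e` of
the numbers `k_i + d_i`, where `k_i` are the parts of `l`. -/
def PLe (l l' : Multiset ℕ) : Prop :=
  ∃ e : Multiset ℕ, Multiset.Rel (fun a b => a ≤ b) l e ∧ Refines l' e

/-- `L` is an `l`-assignment: for `l = {k_1, …, k_q}`, the set of all colours is split into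
pairwise disjoint sets `Cl 1, …, Cl q` with `|L(v) ∩ Cl i| = k_i` for all `v` and `i`. -/
def IsAssign {V C : Type} (l : Multiset ℕ) (L : V → Finset C) : Prop :=
  ∃ (q : ℕ) (k : Fin q → ℕ) (Cl : Fin q → Set C),
    Multiset.map k Finset.univ.val = l ∧
    (∀ i j, i ≠ j → Disjoint (Cl i) (Cl j)) ∧
    (⋃ v, (L v : Set C)) = ⋃ i, Cl i ∧
    ∀ v i, ((L v : Set C) ∩ Cl i).ncard = k i

/-- `G` is `l`-choosable. -/
def Choosable {V : Type} (G : SimpleGraph V) (l : Multiset ℕ) : Prop :=
  ∀ (C : Type) (L : V → Finset C), IsAssign l L →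
    ∃ f : V → C, (∀ v, f v ∈ L v) ∧ ∀ u v, G.Adj u v → f u ≠ f v

/-! ### Order facts -/

lemma Refines.add_left {a b : Multiset ℕ} (h : Refines b a) (c : Multiset ℕ) :
    Refines (c + b) (c + a) := by
  refine Relation.ReflTransGen.lift (fun x => c + x) ?_ _ _ h
  rintro x y ⟨s, z, p, rfl, hp, hs, rfl⟩
  refine ⟨c + s, z, p, ?_, hp, hs, ?_⟩
  · simp
  · show c + (p + s) = p + (c + s)
    rw [← add_assoc, ← add_assoc, add_comm c p]

lemma refines_sum {ι : Type} [DecidableEq ι] (s : Finset ι) (p : ι → Multiset ℕ)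
    (hp : ∀ i ∈ s, IsPartition (p i)) :
    Refines (∑ i ∈ s, p i) (∑ i ∈ s, {(p i).sum}) := by
  induction s using Finset.induction_on with
  | empty => exact Relation.ReflTransGen.refl
  | insert a s ha ih =>
    rw [Finset.sum_insert ha, Finset.sum_insert ha]
    have h1 : RefStep ({(p a).sum} + ∑ i ∈ s, {(p i).sum}) (p a + ∑ i ∈ s, {(p i).sum}) :=
      ⟨∑ i ∈ s, {(p i).sum}, (p a).sum, p a, rfl, hp a (mem_insert_self a s), rfl, rfl⟩
    have h2 := Refines.add_left (ih fun i hi => hp i (mem_insert_of_mem hi)) (p a)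
    exact Relation.ReflTransGen.head h1 h2

lemma map_univ_eq_sum {ι : Type} [Fintype ι] (f : ι → ℕ) :
    Multiset.map f (Finset.univ : Finset ι).val = ∑ i, ({f i} : Multiset ℕ) := by
  classical
  have : ∀ s : Finset ι, Multiset.map f s.val = ∑ i ∈ s, ({f i} : Multiset ℕ) := by
    intro s
    induction s using Finset.induction_on with
    | empty => simp
    | insert a s ha ih =>
      rw [Finset.sum_insert ha, Finset.insert_val_of_notMem ha, Multiset.map_cons, ih]
      rfl
  exact this _

/-- `l ≤ l'` as soon as the parts of `l'` can be distributed over the parts of `l`, every part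
of `l` receiving at least its own size. -/
lemma ple_of_map {q r : ℕ} (k : Fin q → ℕ) (m : Fin r → ℕ) (hk : ∀ i, 0 < k i)
    (hm : ∀ j, 0 < m j) (φ : Fin r → Fin q)
    (h : ∀ i, k i ≤ ∑ j ∈ univ.filter (fun j => φ j = i), m j) :
    PLe (Multiset.map k univ.val) (Multiset.map m univ.val) := by
  classical
  let p : Fin q → Multiset ℕ := fun i => ∑ j ∈ univ.filter (fun j => φ j = i), {m j}
  have hpsum : ∀ i, (p i).sum = ∑ j ∈ univ.filter (fun j => φ j = i), m j := by
    intro i
    simp only [p]
    generalize (univ.filter (fun j => φ j = i)) = s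
    induction s using Finset.induction_on with
    | empty => simp
    | insert a s ha ih =>
      rw [Finset.sum_insert ha, Finset.sum_insert ha, Multiset.sum_add, ih,
        Multiset.sum_singleton]
  refine ⟨∑ i, {(p i).sum}, ?_, ?_⟩
  · rw [← map_univ_eq_sum, Multiset.rel_map]
    refine Multiset.rel_refl_of_refl_on ?_
    intro i _
    rw [hpsum]
    exact h i
  · have h1 : Multiset.map m univ.val = ∑ i, p i := by
      rw [map_univ_eq_sum]
      exact (Finset.sum_fiberwise univ φ (fun j => ({m j} : Multiset ℕ))).symm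
    rw [h1]
    refine refines_sum _ _ ?_
    intro i _
    refine ⟨?_, ?_⟩
    · intro h0
      have := hpsum i
      rw [h0] at this
      have h2 := h i
      have h3 := hk i
      simp at this
      omega
    · intro x hx
      simp only [p] at hx
      rw [Multiset.mem_sum] at hx
      obtain ⟨j, _, hj⟩ := hx
      rw [Multiset.mem_singleton] at hj
      rw [hj]
      exact hm j

lemma exists_fin (l : Multiset ℕ) : ∃ (q : ℕ) (k : Fin q → ℕ), Multiset.map k univ.val = l := by
  obtain ⟨l, rfl⟩ := Quot.exists_rep l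
  refine ⟨l.length, l.get, ?_⟩
  rw [Fin.univ_val_map]
  simp

lemma exists_equiv {α β : Type} [Fintype α] [Fintype β] (f : α → ℕ) (g : β → ℕ)
    (h : Multiset.map f (univ : Finset α).val = Multiset.map g (univ : Finset β).val) :
    ∃ e : α ≃ β, ∀ a, f a = g (e a) := by
  classical
  have hc : ∀ x, Fintype.card {a // f a = x} = Fintype.card {b // g b = x} := by
    intro x
    have := congrArg (Multiset.count x) h
    rw [Multiset.count_map, Multiset.count_map] at this
    rw [Fintype.card_subtype, Fintype.card_subtype]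
    have e1 : (univ.filter (fun a => f a = x)) = univ.filter (fun a => x = f a) :=
      Finset.filter_congr fun a _ => eq_comm
    have e2 : (univ.filter (fun a => g a = x)) = univ.filter (fun a => x = g a) :=
      Finset.filter_congr fun a _ => eq_comm
    rw [e1, e2]
    exact this
  refine ⟨(Equiv.sigmaFiberEquiv f).symm.trans
    ((Equiv.sigmaCongrRight fun x => Fintype.equivOfCardEq (hc x)).trans
      (Equiv.sigmaFiberEquiv g)), ?_⟩
  intro a
  simp only [Equiv.trans_apply]
  have := ((Fintype.equivOfCardEq (hc (f a))) ⟨a, rfl⟩).2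
  simp only [Equiv.sigmaFiberEquiv, Equiv.coe_fn_symm_mk, Equiv.sigmaCongrRight_apply,
    Equiv.coe_fn_mk]
  exact this.symm

/-! ### Assignments -/

lemma IsAssign.comp {V W C : Type} {l : Multiset ℕ} {L : V → Finset C} (h : IsAssign l L)
    (g : W → V) : IsAssign l (fun w => L (g w)) := by
  obtain ⟨q, k, Cl, h1, h2, h3, h4⟩ := h
  refine ⟨q, k, fun i => Cl i ∩ ⋃ w, (L (g w) : Set C), h1, ?_, ?_, ?_⟩
  · intro i j hij
    exact (h2 i j hij).mono Set.inter_subset_left Set.inter_subset_left
  · rw [← Set.iUnion_inter, ← h3]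
    symm
    apply Set.inter_eq_self_of_subset_right
    intro x hx
    obtain ⟨w, hw⟩ := Set.mem_iUnion.1 hx
    exact Set.mem_iUnion.2 ⟨g w, hw⟩
  · intro w i
    rw [← h4 (g w) i]
    congr 1
    ext x
    constructor
    · rintro ⟨hx, hx1, _⟩
      exact ⟨hx, hx1⟩
    · rintro ⟨hx, hx1⟩
      exact ⟨hx, hx1, Set.mem_iUnion.2 ⟨w, hx⟩⟩

/-- The disjoint union of two graphs is choosable if both are. -/
lemma Choosable.sum {V W : Type} {G : SimpleGraph V} {H : SimpleGraph W} {l : Multiset ℕ}
    (hG : Choosable G l) (hH : Choosable H l) : Choosable (G ⊕g H) l := by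
  intro C L hL
  obtain ⟨f, hf1, hf2⟩ := hG C _ (hL.comp Sum.inl)
  obtain ⟨g, hg1, hg2⟩ := hH C _ (hL.comp Sum.inr)
  refine ⟨Sum.elim f g, ?_, ?_⟩
  · rintro (v | w)
    · exact hf1 v
    · exact hg1 w
  · rintro (u | u) (v | v) huv
    · exact hf2 u v (by simpa using huv)
    · simp at huv
    · simp at huv
    · exact hg2 u v (by simpa using huv)

lemma not_choosable_sum_left {V W : Type} {G : SimpleGraph V} {H : SimpleGraph W}
    {l : Multiset ℕ} (hG : ¬ Choosable G l) : ¬ Choosable (G ⊕g H) l := by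
  intro hc
  apply hG
  intro C L hL
  by_cases hV : Nonempty V
  · obtain ⟨v0⟩ := hV
    obtain ⟨f, hf1, hf2⟩ := hc C _ (hL.comp (Sum.elim id (fun _ => v0)))
    refine ⟨fun v => f (Sum.inl v), fun v => hf1 (Sum.inl v), ?_⟩
    intro u v huv
    exact hf2 _ _ (by simpa using huv)
  · have : IsEmpty V := not_nonempty_iff.1 hV
    exact ⟨fun v => isEmptyElim v, fun v => isEmptyElim v, fun v => isEmptyElim v⟩

lemma not_choosable_sum_right {V W : Type} {G : SimpleGraph V} {H : SimpleGraph W}
    {l : Multiset ℕ} (hH : ¬ Choosable H l) : ¬ Choosable (G ⊕g H) l := by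
  intro hc
  apply hH
  intro C L hL
  by_cases hV : Nonempty W
  · obtain ⟨v0⟩ := hV
    obtain ⟨f, hf1, hf2⟩ := hc C _ (hL.comp (Sum.elim (fun _ => v0) id))
    refine ⟨fun v => f (Sum.inr v), fun v => hf1 (Sum.inr v), ?_⟩
    intro u v huv
    exact hf2 _ _ (by simpa using huv)
  · have : IsEmpty W := not_nonempty_iff.1 hV
    exact ⟨fun v => isEmptyElim v, fun v => isEmptyElim v, fun v => isEmptyElim v⟩

end Pool.Agent.R62.Lam
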