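import Pool.Agent.R62.LamWin

/-!
# Separating partitions by `λ`-choosability: main theorem
-/

namespace Pool.Agent.R62.Lam

open Finset

variable {ι : Type} [Fintype ι] [DecidableEq ι] {q : ι → ℕ} {r : ℕ}

/-- If Builder does not win, there is a set `Q` of pairs (type, colour) from which the colourer
can always answer. -/
theorem exists_safe {k : ∀ l, Fin (q l) → ℕ} {m : Fin r → ℕ} (h : ¬ Win (q := q) k m ∅) :
    ∃ Q : Set (Ty q × Col r), ∀ (τ : Ty q) (S : Finset (Ty q × Col r)) (L : Finset (Col r)),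
      (S : Set (Ty q × Col r)) ⊆ Q → Adm k τ S → IsML m L →
      ∃ c ∈ L, c ∉ S.image Prod.snd ∧ (τ, c) ∈ Q := by
  classical
  let F : Set (Set (Ty q × Col r)) := {Q | ∀ P : Finset (Ty q × Col r), (P : Set _) ⊆ Q → ¬ Win k m P}
  have hF : Order.IsOfFiniteCharacter F := by
    intro x
    constructor
    · intro hx y hy _ P hP
      exact hx P (hP.trans hy)
    · intro hx P hP
      exact hx (P : Set _) hP (Finset.finite_toSet P) P subset_rfl
  have h0 : (∅ : Set (Ty q × Col r)) ∈ F := by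
    intro P hP
    have : P = ∅ := by
      rw [← Finset.coe_eq_empty]
      exact Set.subset_empty_iff.1 hP
    rw [this]
    exact h
  obtain ⟨Q, _, hQ⟩ := hF.exists_maximal h0
  refine ⟨Q, ?_⟩
  intro τ S L hS hA hL
  by_contra hcon
  push Not at hcon
  have hP : ∀ c : {c // c ∈ L ∧ c ∉ S.image Prod.snd}, ∃ P : Finset (Ty q × Col r),
      (P : Set _) ⊆ insert (τ, c.1) Q ∧ Win k m P := by
    intro c
    have hc := hcon c.1 c.2.1 c.2.2
    by_contra hno
    push Not at hno
    have hmem : insert (τ, c.1) Q ∈ F := hno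
    have := hQ.le_of_ge hmem (Set.subset_insert _ _)
    exact hc (this (Set.mem_insert _ _))
  choose P hP1 hP2 using hP
  let fI : Fintype {c // c ∈ L ∧ c ∉ S.image Prod.snd} :=
      Fintype.ofFinset (L.filter (fun c => c ∉ S.image Prod.snd)) (by intro c; simp; rfl)
  let R : Finset (Ty q × Col r) := S ∪ univ.biUnion (fun c => (P c).erase (τ, c.1))
  have hR : (R : Set _) ⊆ Q := by
    intro x hx
    rw [Finset.mem_coe] at hx
    rcases mem_union.1 hx with hx | hx
    · exact hS hx
    · rw [mem_biUnion] at hx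
      obtain ⟨c, _, hc⟩ := hx
      rw [mem_erase] at hc
      exact (hP1 c hc.2).resolve_left hc.1
  have hW : Win k m R := by
    refine Win.move R τ S L subset_union_left hA hL ?_
    intro c hc1 hc2
    refine (hP2 ⟨c, hc1, hc2⟩).mono ?_
    intro x hx
    by_cases hxc : x = (τ, c)
    · rw [hxc]; exact mem_insert_self _ _
    · refine mem_insert_of_mem (mem_union_right _ ?_)
      rw [mem_biUnion]
      exact ⟨⟨c, hc1, hc2⟩, mem_univ _, mem_erase.2 ⟨hxc, hx⟩⟩
  exact hQ.prop R hR hW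

/-- The combinatorial choice of types. -/
theorem choose_types {k : ∀ l, Fin (q l) → ℕ} {m : Fin r → ℕ} (T0 : Ty q) (J : Finset (Fin r))
    (hno : ∀ l, ∀ φ : Fin r → Fin (q l), ∃ i, ∑ j ∈ univ.filter (fun j => φ j = i), m j < k l i)
    (Λ : Finset ι) :
    ∀ (S : Fin r → Set (Ty q)), (∀ j ∈ J, (S j).Nonempty) →
      ∃ (τ : Ty q) (S' : Fin r → Set (Ty q)), (∀ j ∈ J, (S' j).Nonempty ∧ S' j ⊆ S j) ∧
        ∀ l ∈ Λ, ∀ σ : Fin r → Ty q, (∀ j ∈ J, σ j ∈ S' j) →
          ∑ j ∈ J.filter (fun j => σ j l = τ l), m j < k l (τ l) := by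
  classical
  induction Λ using Finset.induction_on with
  | empty =>
    intro S hS
    exact ⟨T0, S, fun j hj => ⟨hS j hj, subset_rfl⟩, fun l hl => absurd hl (notMem_empty l)⟩
  | insert a Λ ha ih =>
    intro S hS
    let φ : Fin r → Fin (q a) := fun j =>
      if h : ∃ i, ∀ σ ∈ S j, σ a = i then h.choose else T0 a
    obtain ⟨i0, hi0⟩ := hno a φ
    let S1 : Fin r → Set (Ty q) := fun j =>
      if (∃ σ ∈ S j, σ a ≠ i0) then {σ | σ ∈ S j ∧ σ a ≠ i0} else S j
    have hS1 : ∀ j ∈ J, (S1 j).Nonempty := by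
      intro j hj
      by_cases h : ∃ σ ∈ S j, σ a ≠ i0
      · simp only [S1, if_pos h]
        obtain ⟨σ, h1, h2⟩ := h
        exact ⟨σ, h1, h2⟩
      · simp only [S1, if_neg h]
        exact hS j hj
    have hsub : ∀ j, S1 j ⊆ S j := by
      intro j
      by_cases h : ∃ σ ∈ S j, σ a ≠ i0
      · simp only [S1, if_pos h]
        exact fun σ hσ => hσ.1
      · simp only [S1, if_neg h]
        exact subset_rfl
    obtain ⟨τ', S', hS', hτ'⟩ := ih S1 hS1
    refine ⟨Function.update τ' a i0, S', fun j hj => ⟨(hS' j hj).1, (hS' j hj).2.trans (hsub j)⟩, ?_⟩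
    intro l hl σ hσ
    by_cases hla : l = a
    · subst hla
      rw [Function.update_self]
      refine lt_of_le_of_lt ?_ hi0
      apply Finset.sum_le_sum_of_subset
      intro j hj
      rw [mem_filter] at hj
      rw [mem_filter]
      refine ⟨mem_univ _, ?_⟩
      have h1 : σ j ∈ S1 j := (hS' j hj.1).2 (hσ j hj.1)
      have h2 : ¬ ∃ σ ∈ S j, σ l ≠ i0 := by
        intro h
        simp only [S1, if_pos h] at h1
        exact h1.2 hj.2
      push Not at h2
      have h3 : ∃ i, ∀ σ ∈ S j, σ l = i := ⟨i0, h2⟩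
      simp only [φ, dif_pos h3]
      obtain ⟨s, hs⟩ := hS j hj.1
      rw [← h3.choose_spec s hs, h2 s hs]
    · rw [Function.update_of_ne hla]
      exact hτ' l (mem_of_mem_insert_of_ne hl hla) σ hσ

/-- If Builder does not win then some `λ_l` lies below `μ` (by a distribution of parts). -/
theorem exists_map_of_not_win {k : ∀ l, Fin (q l) → ℕ} {m : Fin r → ℕ} (T0 : Ty q)
    (h : ¬ Win (q := q) k m ∅) :
    ∃ l, ∃ φ : Fin r → Fin (q l), ∀ i, k l i ≤ ∑ j ∈ univ.filter (fun j => φ j = i), m j := by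
  classical
  by_contra hno
  push Not at hno
  obtain ⟨Q, hQ⟩ := exists_safe h
  -- bad numbers
  have avail : ∀ (τ : Ty q) (S : Finset (Ty q × Col r)), (S : Set _) ⊆ Q → Adm k τ S →
      ∃ j : Fin r, ∀ F : Finset ℕ, (∀ n ∈ F, (τ, (j, n)) ∉ Q ∨ (j, n) ∈ S.image Prod.snd) →
        F.card < m j := by
    intro τ S hS hA
    by_contra hcon
    push Not at hcon
    choose F hF1 hF2 using hcon
    have hF3 : ∀ j, ∃ F' ⊆ F j, F'.card = m j := fun j => Finset.exists_subset_card_eq (hF2 j)
    choose F' hF4 hF5 using hF3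
    let L : Finset (Col r) := univ.biUnion (fun j => (F' j).image (fun n => (j, n)))
    have hL : IsML m L := by
      intro j
      have : L.filter (fun c => c.1 = j) = (F' j).image (fun n => (j, n)) := by
        ext c
        simp only [L, mem_filter, mem_biUnion, mem_image, mem_univ, true_and]
        constructor
        · rintro ⟨⟨j', n, hn, rfl⟩, hj⟩
          have hj' : j' = j := hj
          subst hj'
          exact ⟨n, hn, rfl⟩
        · rintro ⟨n, hn, rfl⟩
          exact ⟨⟨j, n, hn, rfl⟩, rfl⟩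
      rw [this, Finset.card_image_of_injective _ (fun a b hab => (Prod.mk.inj hab).2), hF5]
    obtain ⟨c, hc1, hc2, hc3⟩ := hQ τ S L hS hA hL
    simp only [L, mem_biUnion, mem_image, mem_univ, true_and] at hc1
    obtain ⟨j, n, hn, rfl⟩ := hc1
    rcases hF1 j n (hF4 j hn) with h1 | h1
    · exact h1 hc3
    · exact hc2 h1
  let SJ : Fin r → Set (Ty q) := fun j =>
    {τ | ∀ F : Finset ℕ, (∀ n ∈ F, (τ, (j, n)) ∉ Q) → F.card < m j}
  let J : Finset (Fin r) := univ.filter (fun j => (SJ j).Nonempty)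
  have hJ : ∀ j ∈ J, (SJ j).Nonempty := fun j hj => (mem_filter.1 hj).2
  obtain ⟨τ, S', hS', hτ⟩ := choose_types T0 J hno univ SJ hJ
  -- representatives
  have hrep : ∀ j : Fin r, ∃ (σ : Ty q) (G : Finset ℕ), j ∈ J →
      (σ ∈ S' j ∧ G.card = m j ∧ ∀ n ∈ G, (σ, (j, n)) ∈ Q) := by
    intro j
    by_cases hj : j ∈ J
    · obtain ⟨σ, hσ⟩ := (hS' j hj).1
      have hσ2 : σ ∈ SJ j := (hS' j hj).2 hσ
      have h1 := hσ2 ((range (2 * m j)).filter (fun n => (σ, (j, n)) ∉ Q))
        (fun n hn => (mem_filter.1 hn).2)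
      have h2 := Finset.card_filter_add_card_filter_not (s := range (2 * m j))
        (fun n => (σ, (j, n)) ∉ Q)
      rw [card_range] at h2
      have h3 : m j ≤ ((range (2 * m j)).filter (fun n => ¬ (σ, (j, n)) ∉ Q)).card := by omega
      obtain ⟨G, hG1, hG2⟩ := Finset.exists_subset_card_eq h3
      refine ⟨σ, G, fun _ => ⟨hσ, hG2, ?_⟩⟩
      intro n hn
      exact not_not.1 (mem_filter.1 (hG1 hn)).2
    · exact ⟨T0, ∅, fun h => absurd h hj⟩
  choose σ G hσG using hrep
  let S : Finset (Ty q × Col r) := J.biUnion (fun j => (G j).image (fun n => (σ j, (j, n))))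
  have hSQ : (S : Set _) ⊆ Q := by
    intro x hx
    simp only [S, Finset.mem_coe, mem_biUnion, mem_image] at hx
    obtain ⟨j, hj, n, hn, rfl⟩ := hx
    exact (hσG j hj).2.2 n hn
  have hAdm : Adm k τ S := by
    intro l
    refine lt_of_le_of_lt ?_ (hτ l (mem_univ l) σ (fun j hj => (hσG j hj).1))
    have hsub : S.filter (fun x => x.1 l = τ l) ⊆
        (J.filter (fun j => σ j l = τ l)).biUnion
          (fun j => (G j).image (fun n => (σ j, (j, n)))) := by
      intro x hx
      simp only [S, mem_filter, mem_biUnion, mem_image] at hx ⊢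
      obtain ⟨⟨j, hj, n, hn, rfl⟩, hx2⟩ := hx
      exact ⟨j, ⟨hj, hx2⟩, n, hn, rfl⟩
    refine (Finset.card_le_card hsub).trans (Finset.card_biUnion_le.trans ?_)
    apply Finset.sum_le_sum
    intro j hj
    refine Finset.card_image_le.trans ?_
    rw [(hσG j (mem_filter.1 hj).1).2.1]
  obtain ⟨j, hj⟩ := avail τ S hSQ hAdm
  have hjJ : j ∈ J := by
    refine mem_filter.2 ⟨mem_univ _, ⟨τ, ?_⟩⟩
    intro F hF
    exact hj F (fun n hn => Or.inl (hF n hn))
  have h1 := hj (G j) (by
    intro n hn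
    right
    rw [mem_image]
    refine ⟨(σ j, (j, n)), ?_, rfl⟩
    simp only [S, mem_biUnion, mem_image]
    exact ⟨j, hjJ, n, hn, rfl⟩)
  rw [(hσG j hjJ).2.1] at h1
  exact lt_irrefl _ h1

/-- **Core theorem.** If `μ` is above no member of the finite set `A` of partitions, some finite
graph is `λ`-choosable for all `λ ∈ A` and not `μ`-choosable. -/
theorem exists_separating (A : Set (Multiset ℕ)) (hfin : A.Finite)
    (hA : ∀ l ∈ A, IsPartition l) (μ : Multiset ℕ) (hμ : IsPartition μ)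
    (h : ∀ l ∈ A, ¬ PLe l μ) :
    ∃ (V : Type) (_ : Fintype V) (G : SimpleGraph V),
      (∀ l ∈ A, Choosable G l) ∧ ¬ Choosable G μ := by
  classical
  have : Fintype A := hfin.fintype
  choose q k hk using exists_fin
  obtain ⟨r, m, hm⟩ := exists_fin μ
  have hmpos : ∀ j, 0 < m j := by
    intro j
    apply hμ.2
    rw [← hm]
    exact Multiset.mem_map_of_mem m (mem_univ_val j)
  have hkpos : ∀ l : A, ∀ i, 0 < k l.1 i := by
    intro l i
    apply (hA l.1 l.2).2
    have := Multiset.mem_map_of_mem (k l.1) (mem_univ_val i)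
    rwa [hk] at this
  have hqpos : ∀ l : A, 0 < q l.1 := by
    intro l
    rcases Nat.eq_zero_or_pos (q l.1) with h0 | h0
    · exfalso
      apply (hA l.1 l.2).1
      rw [← hk l.1, Multiset.map_eq_zero, Finset.val_eq_zero]
      apply Finset.univ_eq_empty_iff.2
      rw [h0]
      infer_instance
    · exact h0
  let q' : A → ℕ := fun l => q l.1
  let k' : ∀ l : A, Fin (q' l) → ℕ := fun l => k l.1
  by_cases hw : Win (q := q') k' m ∅
  · obtain ⟨V, iV, G, h1, h2⟩ := hw.graph
    refine ⟨V, iV, G, ?_, ?_⟩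
    · intro l hl
      have := h1 ⟨l, hl⟩
      simp only [k'] at this
      rwa [hk] at this
    · rwa [hm] at h2
  · exfalso
    obtain ⟨l, φ, hφ⟩ := exists_map_of_not_win (q := q') (fun l => ⟨0, hqpos l⟩) hw
    have := ple_of_map (k' l) m (hkpos l) hmpos φ hφ
    simp only [k'] at this
    rw [hk, hm] at this
    exact h l.1 l.2 this

end Pool.Agent.R62.Lam
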