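import Pool.Agent.R62.LamDef

/-!
# A colouring game for separating partitions

`ι` indexes the partitions `λ_l` for which the graph has to be choosable; `λ_l` has the parts
`k l i` (`i : Fin (q l)`). A vertex has a *type* `τ : ∀ l, Fin (q l)`; new vertices get fewer than
`k l (τ l)` earlier neighbours with the same `l`-coordinate.
-/

namespace Pool.Agent.R62.Lam

open Finset

variable {ι : Type} [Fintype ι] [DecidableEq ι] {q : ι → ℕ} {r : ℕ}

/-- colours of the bad assignment -/
abbrev Col (r : ℕ) := Fin r × ℕ

/-- types -/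
abbrev Ty (q : ι → ℕ) := ∀ l : ι, Fin (q l)

/-- `L` has exactly `m j` colours of class `j`. -/
def IsML (m : Fin r → ℕ) (L : Finset (Col r)) : Prop :=
  ∀ j, (L.filter (fun c => c.1 = j)).card = m j

/-- the set `S` of coloured vertices may be joined to a new vertex of type `τ`. -/
def Adm (k : ∀ l, Fin (q l) → ℕ) (τ : Ty q) (S : Finset (Ty q × Col r)) : Prop :=
  ∀ l, (S.filter (fun x => x.1 l = τ l)).card < k l (τ l)

/-- positions from which Builder wins. -/
inductive Win (k : ∀ l, Fin (q l) → ℕ) (m : Fin r → ℕ) : Finset (Ty q × Col r) → Prop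
  | move (P : Finset (Ty q × Col r)) (τ : Ty q) (S : Finset (Ty q × Col r)) (L : Finset (Col r))
      (hS : S ⊆ P) (hA : Adm k τ S) (hL : IsML m L)
      (h : ∀ c ∈ L, c ∉ S.image Prod.snd → Win k m (insert (τ, c) P)) : Win k m P

lemma Win.mono {k : ∀ l, Fin (q l) → ℕ} {m : Fin r → ℕ} {P P' : Finset (Ty q × Col r)}
    (h : Win k m P) (hP : P ⊆ P') : Win k m P' := by
  induction h generalizing P' with
  | move P τ S L hS hA hL _ ih =>
    exact Win.move P' τ S L (hS.trans hP) hA hL
      (fun c hc hc' => ih c hc hc' (Finset.insert_subset_insert _ hP))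

/-- From a winning position we get a finite extension without a proper list colouring. -/
theorem Win.extension {k : ∀ l, Fin (q l) → ℕ} {m : Fin r → ℕ} {P : Finset (Ty q × Col r)}
    (h : Win k m P) :
    ∃ (W : Type) (_ : Fintype W) (_ : DecidableEq W) (ty : W → Ty q) (rk : W → ℕ)
      (L : W → Finset (Col r)) (N : W → Finset (Ty q × Col r)) (A : W → Finset W),
      (∀ w, N w ⊆ P) ∧ (∀ w, IsML m (L w)) ∧ (∀ w, ∀ u ∈ A w, rk u < rk w) ∧
      (∀ w l, ((N w).filter (fun x => x.1 l = ty w l)).card +
        ((A w).filter (fun u => ty u l = ty w l)).card < k l (ty w l)) ∧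
      ¬ ∃ f : W → Col r, ∀ w, f w ∈ L w ∧ (∀ x ∈ N w, f w ≠ x.2) ∧ (∀ u ∈ A w, f w ≠ f u) := by
  classical
  induction h with
  | move P τ S L0 hS hA hL _ ih =>
    have ih' : ∀ c : {c // c ∈ L0 ∧ c ∉ S.image Prod.snd},
      ∃ (W : Type) (_ : Fintype W) (_ : DecidableEq W) (ty : W → Ty q) (rk : W → ℕ)
      (L : W → Finset (Col r)) (N : W → Finset (Ty q × Col r)) (A : W → Finset W),
      (∀ w, N w ⊆ insert (τ, c.1) P) ∧ (∀ w, IsML m (L w)) ∧ (∀ w, ∀ u ∈ A w, rk u < rk w) ∧
      (∀ w l, ((N w).filter (fun x => x.1 l = ty w l)).card +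
        ((A w).filter (fun u => ty u l = ty w l)).card < k l (ty w l)) ∧
      ¬ ∃ f : W → Col r, ∀ w, f w ∈ L w ∧ (∀ x ∈ N w, f w ≠ x.2) ∧ (∀ u ∈ A w, f w ≠ f u) :=
      fun c => ih c.1 c.2.1 c.2.2
    choose W iF iD ty rk L N A h1 h2 h3 h4 h5 using ih'
    have fI : Fintype {c // c ∈ L0 ∧ c ∉ S.image Prod.snd} :=
      Fintype.ofFinset (L0.filter (fun c => c ∉ S.image Prod.snd)) (by intro c; simp; rfl)
    let emb : ∀ c, W c ↪ Option (Σ c, W c) := fun c =>
      ⟨fun x => some ⟨c, x⟩, by intro x y hxy; simpa using hxy⟩
    refine ⟨Option (Σ c, W c), inferInstance, inferInstance,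
      fun w => w.elim τ (fun x => ty x.1 x.2),
      fun w => w.elim 0 (fun x => rk x.1 x.2 + 1),
      fun w => w.elim L0 (fun x => L x.1 x.2),
      fun w => w.elim S (fun x => (N x.1 x.2).erase (τ, x.1.1)),
      fun w => w.elim ∅ (fun x => if (τ, x.1.1) ∈ N x.1 x.2
        then insert none ((A x.1 x.2).map (emb x.1)) else (A x.1 x.2).map (emb x.1)),
      ?_, ?_, ?_, ?_, ?_⟩
    · rintro (_ | ⟨c, x⟩)
      · exact hS
      · intro y hy
        have hy' : y ∈ (N c x).erase (τ, c.1) := hy
        rw [mem_erase] at hy'
        exact (mem_insert.1 (h1 c x hy'.2)).resolve_left hy'.1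
    · rintro (_ | ⟨c, x⟩)
      · exact hL
      · exact h2 c x
    · rintro (_ | ⟨c, x⟩) u hu
      · simp at hu
      · have hu' : u ∈ (if (τ, c.1) ∈ N c x
          then insert none ((A c x).map (emb c)) else (A c x).map (emb c)) := hu
        have hu'' : u = none ∨ u ∈ (A c x).map (emb c) := by
          split_ifs at hu' with hh
          · exact mem_insert.1 hu'
          · exact Or.inr hu'
        rcases hu'' with rfl | hu''
        · show (0 : ℕ) < rk c x + 1
          omega
        · rw [mem_map] at hu''
          obtain ⟨y, hy, rfl⟩ := hu''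
          have := h3 c x y hy
          show rk c y + 1 < rk c x + 1
          omega
    · rintro (_ | ⟨c, x⟩) l
      · have h0 := hA l
        show (S.filter (fun x => x.1 l = τ l)).card + (Finset.filter _ (∅ : Finset _)).card < _
        rw [Finset.filter_empty, Finset.card_empty, add_zero]
        exact h0
      · have hlt := h4 c x l
        have hmap : (((A c x).map (emb c)).filter
            (fun u => (u.elim τ (fun x => ty x.1 x.2)) l = ty c x l)).card =
            ((A c x).filter (fun u => ty c u l = ty c x l)).card := by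
          rw [Finset.filter_map, Finset.card_map]
          rfl
        show (((N c x).erase (τ, c.1)).filter (fun y => y.1 l = ty c x l)).card +
          ((if (τ, c.1) ∈ N c x then insert none ((A c x).map (emb c))
            else (A c x).map (emb c)).filter
            (fun u => (u.elim τ (fun x => ty x.1 x.2)) l = ty c x l)).card < k l (ty c x l)
        by_cases hin : (τ, c.1) ∈ N c x
        · rw [if_pos hin, Finset.filter_insert]
          rw [Finset.filter_erase]
          by_cases hty : τ l = ty c x l
          · have hin2 : (τ, c.1) ∈ (N c x).filter (fun y => y.1 l = ty c x l) := by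
              rw [mem_filter]; exact ⟨hin, hty⟩
            rw [if_pos (by simpa using hty), Finset.card_erase_of_mem hin2]
            have hc1 := Finset.card_pos.2 ⟨_, hin2⟩
            have hc2 := Finset.card_insert_le (none : Option (Σ c, W c))
              (((A c x).map (emb c)).filter
                (fun u => (u.elim τ (fun x => ty x.1 x.2)) l = ty c x l))
            rw [hmap] at hc2
            omega
          · rw [if_neg (by simpa using hty), hmap]
            have hc1 := Finset.card_erase_le (a := (τ, c.1))
              (s := (N c x).filter (fun y => y.1 l = ty c x l))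
            omega
        · rw [if_neg hin, hmap, Finset.erase_eq_of_notMem hin]
          exact hlt
    · rintro ⟨f, hf⟩
      have hc0 := hf none
      have hc1 : f none ∈ L0 := hc0.1
      have hc2 : f none ∉ S.image Prod.snd := by
        intro hm
        rw [mem_image] at hm
        obtain ⟨y, hy, hy2⟩ := hm
        exact hc0.2.1 y hy hy2.symm
      let c : {c // c ∈ L0 ∧ c ∉ S.image Prod.snd} := ⟨f none, hc1, hc2⟩
      apply h5 c
      refine ⟨fun x => f (some ⟨c, x⟩), ?_⟩
      intro x
      have hx := hf (some ⟨c, x⟩)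
      refine ⟨hx.1, ?_, ?_⟩
      · intro y hy
        by_cases hyc : y = (τ, c.1)
        · have hnone : (none : Option (Σ c, W c)) ∈ (if (τ, c.1) ∈ N c x
              then insert none ((A c x).map (emb c)) else (A c x).map (emb c)) := by
            rw [if_pos (hyc ▸ hy)]
            exact mem_insert_self _ _
          have := hx.2.2 none hnone
          rw [hyc]
          exact this
        · exact hx.2.1 y (mem_erase.2 ⟨hyc, hy⟩)
      · intro u hu
        have hmem : (emb c u) ∈ (if (τ, c.1) ∈ N c x
              then insert none ((A c x).map (emb c)) else (A c x).map (emb c)) := by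
          split_ifs
          · exact mem_insert_of_mem (mem_map_of_mem _ hu)
          · exact mem_map_of_mem _ hu
        exact hx.2.2 (emb c u) hmem

/-- The graph obtained from `Win ∅`. -/
theorem Win.graph {k : ∀ l, Fin (q l) → ℕ} {m : Fin r → ℕ}
    (h : Win (q := q) k m ∅) :
    ∃ (V : Type) (_ : Fintype V) (G : SimpleGraph V),
      (∀ l, Choosable G (Multiset.map (k l) univ.val)) ∧
      ¬ Choosable G (Multiset.map m univ.val) := by
  classical
  obtain ⟨W, iF, iD, ty, rk, L, N, A, h1, h2, h3, h4, h5⟩ := h.extension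
  let G : SimpleGraph W :=
    { Adj := fun u v => u ∈ A v ∨ v ∈ A u
      symm := ⟨fun u v h => h.symm⟩
      loopless := ⟨by
        intro u h
        rcases h with h | h <;> exact absurd (h3 u u h) (lt_irrefl _)⟩ }
  refine ⟨W, iF, G, ?_, ?_⟩
  · intro l C L' hL'
    obtain ⟨q', k', Cl', e1, e2, e3, e4⟩ := hL'
    obtain ⟨e, he⟩ := exists_equiv k' (k l) e1
    let Cl : Fin (q l) → Set C := fun i => Cl' (e.symm i)
    have c2 : ∀ i j, i ≠ j → Disjoint (Cl i) (Cl j) := fun i j hij =>
      e2 _ _ (fun h => hij (e.symm.injective h))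
    have c4 : ∀ v i, ((L' v : Set C) ∩ Cl i).ncard = k l i := by
      intro v i
      have := e4 v (e.symm i)
      rw [this, he, Equiv.apply_symm_apply]
    have hpos : ∀ w, 0 < k l (ty w l) := fun w => lt_of_le_of_lt (Nat.zero_le _) (h4 w l)
    -- colours available
    have hfin : ∀ w, ((L' w : Set C) ∩ Cl (ty w l)).Finite := fun w =>
      (Finset.finite_toSet _).subset Set.inter_subset_left
    have hex : ∀ w, ∀ F : Finset C, F.card < k l (ty w l) →
        ∃ c, c ∈ L' w ∧ c ∈ Cl (ty w l) ∧ c ∉ F := by
      intro w F hF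
      by_contra hcon
      push Not at hcon
      have hsub : ((L' w : Set C) ∩ Cl (ty w l)) ⊆ (F : Set C) := by
        rintro c ⟨hc1, hc2⟩
        exact hcon c hc1 hc2
      have := Set.ncard_le_ncard hsub (Finset.finite_toSet F)
      rw [c4, Set.ncard_coe_finset] at this
      omega
    have key : ∀ n : ℕ, ∃ f : W → C, ∀ w, rk w < n →
        f w ∈ L' w ∧ f w ∈ Cl (ty w l) ∧ ∀ u ∈ A w, ty u l = ty w l → f w ≠ f u := by
      intro n
      induction n with
      | zero =>
        choose g _ using fun w => hex w ∅ (by simpa using hpos w)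
        exact ⟨g, fun w hw => absurd hw (Nat.not_lt_zero _)⟩
      | succ n ih =>
        obtain ⟨f, hf⟩ := ih
        have hnew : ∀ w, ∃ c, c ∈ L' w ∧ c ∈ Cl (ty w l) ∧
            c ∉ ((A w).filter (fun u => ty u l = ty w l)).image f := by
          intro w
          apply hex w
          refine lt_of_le_of_lt Finset.card_image_le ?_
          have := h4 w l
          omega
        choose g hg1 hg2 hg3 using hnew
        refine ⟨fun w => if rk w < n then f w else g w, ?_⟩
        intro w hw
        by_cases hwn : rk w < n
        · simp only [if_pos hwn]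
          refine ⟨(hf w hwn).1, (hf w hwn).2.1, ?_⟩
          intro u hu hty
          have hun : rk u < n := (h3 w u hu).trans hwn
          simp only [if_pos hun]
          exact (hf w hwn).2.2 u hu hty
        · simp only [if_neg hwn]
          refine ⟨hg1 w, hg2 w, ?_⟩
          intro u hu hty
          have hun : rk u < n := by
            have := h3 w u hu
            omega
          simp only [if_pos hun]
          intro heq
          apply hg3 w
          rw [heq]
          exact mem_image_of_mem _ (mem_filter.2 ⟨hu, hty⟩)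
    obtain ⟨n, hn⟩ : ∃ n, ∀ w, rk w < n := by
      refine ⟨(univ.sup rk) + 1, fun w => ?_⟩
      have := Finset.le_sup (f := rk) (mem_univ w)
      omega
    obtain ⟨f, hf⟩ := key n
    refine ⟨f, fun v => (hf v (hn v)).1, ?_⟩
    have hprop : ∀ u v, u ∈ A v → f v ≠ f u := by
      intro u v huv
      by_cases hty : ty u l = ty v l
      · exact (hf v (hn v)).2.2 u huv hty
      · intro heq
        have hd := c2 _ _ hty
        exact Set.disjoint_left.1 hd (hf u (hn u)).2.1 (heq ▸ (hf v (hn v)).2.1)
    intro u v huv
    rcases huv with h | h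
    · exact (hprop u v h).symm
    · exact hprop v u h
  · intro hc
    have hL : IsAssign (Multiset.map m univ.val) L := by
      refine ⟨r, m, fun j => {c | c.1 = j ∧ ∃ v, c ∈ L v}, rfl, ?_, ?_, ?_⟩
      · intro i j hij
        rw [Set.disjoint_left]
        rintro c ⟨hc1, _⟩ ⟨hc2, _⟩
        exact hij (hc1.symm.trans hc2)
      · ext c
        simp
      · intro v j
        have : ((L v : Set (Col r)) ∩ {c | c.1 = j ∧ ∃ v, c ∈ L v}) =
            (((L v).filter (fun c => c.1 = j) : Finset (Col r)) : Set (Col r)) := by
          ext c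
          simp only [Set.mem_inter_iff, Finset.mem_coe, Set.mem_ofPred_eq, mem_filter]
          constructor
          · rintro ⟨a, b, _⟩; exact ⟨a, b⟩
          · rintro ⟨a, b⟩; exact ⟨a, b, v, a⟩
        rw [this, Set.ncard_coe_finset]
        exact h2 v j
    obtain ⟨f, hf1, hf2⟩ := hc _ L hL
    apply h5
    refine ⟨f, fun w => ⟨hf1 w, ?_, ?_⟩⟩
    · intro x hx
      exact absurd (h1 w hx) (Finset.notMem_empty x)
    · intro u hu
      exact hf2 w u (Or.inr hu)

end Pool.Agent.R62.Lam
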