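import Pool.Agent.R825.MK.Stmts

/-!
# MK-D13: the asymptotic statements `St_D1` and `St_D3` of `Pool.Agent.R825.MK`
-/

set_option autoImplicit false

open Finset

namespace Pool.Agent.R62.MKD

open Pool.Agent.R825.MK

theorem le_lev_iff {r g : ℕ} : r ≤ lev g ↔ r ^ 4 ≤ g := by
  unfold lev
  rw [Nat.le_sqrt', Nat.le_sqrt']
  rw [← pow_mul]

theorem lev_lt_iff {r g : ℕ} : lev g < r ↔ g < r ^ 4 := by
  rw [← not_le, ← not_le, le_lev_iff]

theorem lev_mono : Monotone lev := by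
  intro a b h
  exact le_lev_iff.2 (le_trans (le_lev_iff.1 le_rfl) h)

theorem lev_pow (r : ℕ) : lev (r ^ 4) = r := by
  apply le_antisymm
  · rw [← Nat.lt_succ_iff, lev_lt_iff]
    exact Nat.pow_lt_pow_left (Nat.lt_succ_self r) (by norm_num)
  · exact le_lev_iff.2 le_rfl

theorem lev_succ_le (g : ℕ) : lev (g + 1) ≤ lev g + 1 := by
  rw [← not_lt]
  intro h
  have h1 : (lev g + 1 + 1) ^ 4 ≤ g + 1 := le_lev_iff.1 h
  have h2 : g < (lev g + 1) ^ 4 := lev_lt_iff.1 (Nat.lt_succ_self _)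
  have h3 : (lev g + 1) ^ 4 < (lev g + 1 + 1) ^ 4 :=
    Nat.pow_lt_pow_left (Nat.lt_succ_self _) (by norm_num)
  omega

theorem lev_add {u x : ℕ} (h : x < (u + 1) ^ 4 - u ^ 4) : lev (u ^ 4 + x) = u := by
  apply le_antisymm
  · rw [← Nat.lt_succ_iff, lev_lt_iff, Nat.succ_eq_add_one]
    omega
  · exact le_lev_iff.2 (Nat.le_add_right _ _)

theorem sum_lev_succ (F : ℕ → ℕ) (u : ℕ) :
    ∑ h ∈ range ((u + 1) ^ 4), F (lev h) =
      ∑ h ∈ range (u ^ 4), F (lev h) + ((u + 1) ^ 4 - u ^ 4) * F u := by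
  have h1 : (u + 1) ^ 4 = u ^ 4 + ((u + 1) ^ 4 - u ^ 4) := by
    have : u ^ 4 ≤ (u + 1) ^ 4 := Nat.pow_le_pow_left (Nat.le_succ u) 4
    omega
  rw [h1, Finset.sum_range_add]
  congr 1
  rw [Finset.sum_congr rfl (g := fun _ => F u)]
  · rw [Finset.sum_const, card_range, smul_eq_mul]
    congr 1
    omega
  · intro x hx
    rw [mem_range] at hx
    rw [lev_add (by omega)]

theorem nn_mono : Monotone nn := by
  intro a b h
  exact Finset.sum_le_sum_of_subset (range_mono h)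

theorem PP_mono (κ : ℝ) : Monotone (PP κ) := by
  intro a b h
  exact Finset.sum_le_sum_of_subset (range_mono h)

theorem nn_succ (g : ℕ) : nn (g + 1) = nn g + 2 ^ lev g := Finset.sum_range_succ _ _

theorem PP_succ (κ : ℝ) (g : ℕ) : PP κ (g + 1) = PP κ g + 2 ^ lev g * Ls κ (lev g) :=
  Finset.sum_range_succ _ _

theorem nn_pow_succ (u : ℕ) : nn ((u + 1) ^ 4) = nn (u ^ 4) + ((u + 1) ^ 4 - u ^ 4) * 2 ^ u :=
  sum_lev_succ (fun r => 2 ^ r) u

theorem PP_pow_succ (κ : ℝ) (u : ℕ) :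
    PP κ ((u + 1) ^ 4) = PP κ (u ^ 4) + ((u + 1) ^ 4 - u ^ 4) * (2 ^ u * Ls κ u) :=
  sum_lev_succ (fun r => 2 ^ r * Ls κ r) u

theorem cube_le (u : ℕ) : (u + 1) ^ 3 ≤ (u + 1) ^ 4 - u ^ 4 := by
  apply Nat.le_sub_of_add_le
  nlinarith [Nat.zero_le u, sq_nonneg u, Nat.zero_le (u ^ 2), Nat.zero_le (u ^ 3)]

theorem Ls_mono {κ : ℝ} (hκ : 0 ≤ κ) : Monotone (Ls κ) := by
  intro a b h
  unfold Ls
  have h1 : ⌈κ * (a : ℝ)⌉₊ ≤ ⌈κ * (b : ℝ)⌉₊ := by
    apply Nat.ceil_le_ceil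
    exact mul_le_mul_of_nonneg_left (by exact_mod_cast h) hκ
  have h2 : Nat.sqrt a ≤ Nat.sqrt b := Nat.sqrt_le_sqrt h
  omega

theorem Ls_le {κ : ℝ} (hκ : 0 ≤ κ) (r : ℕ) : (Ls κ r : ℝ) ≤ κ * r + 1 + 2 * Nat.sqrt r := by
  unfold Ls
  push_cast
  have := Nat.ceil_lt_add_one (a := κ * (r : ℝ)) (by positivity)
  linarith

theorem le_Ls (κ : ℝ) (r : ℕ) : κ * r + 2 * Nat.sqrt r ≤ (Ls κ r : ℝ) := by
  unfold Ls
  push_cast
  have := Nat.le_ceil (κ * (r : ℝ))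
  linarith

theorem sqrt_succ_le (r : ℕ) : Nat.sqrt (r + 1) ≤ Nat.sqrt r + 1 := Nat.sqrt_succ_le_succ_sqrt r

theorem Ls_succ_le {κ : ℝ} (hκ : 0 ≤ κ) (r : ℕ) : (Ls κ (r + 1) : ℝ) ≤ Ls κ r + κ + 3 := by
  have h1 := Ls_le hκ (r + 1)
  have h2 := le_Ls κ r
  have h3 : (Nat.sqrt (r + 1) : ℝ) ≤ Nat.sqrt r + 1 := by exact_mod_cast sqrt_succ_le r
  push_cast at h1
  linarith

theorem D1_ok : St_D1 := by
  intro κ hκ C
  obtain ⟨R, hR⟩ := exists_nat_ge (2 * |C| * (κ + 4))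
  refine ⟨(R + 1) ^ 4, fun g hg => ?_⟩
  have hr : R + 1 ≤ lev g := le_lev_iff.2 hg
  obtain ⟨q, hq⟩ : ∃ q, lev g = q + 1 := ⟨lev g - 1, by omega⟩
  have h1 : (q + 1) ^ 3 * 2 ^ q ≤ nn g := by
    have h2 : nn ((q + 1) ^ 4) ≤ nn g := nn_mono (le_lev_iff.1 (by rw [hq]))
    rw [nn_pow_succ] at h2
    have h3 := Nat.mul_le_mul_right (2 ^ q) (cube_le q)
    omega
  have h1' : ((q : ℝ) + 1) ^ 3 * 2 ^ q ≤ nn g := by exact_mod_cast h1
  refine le_trans ?_ h1'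
  rw [hq]
  have hRq : (R : ℝ) ≤ q := by
    have : R ≤ q := by omega
    exact_mod_cast this
  have hL := Ls_le (by linarith : (0 : ℝ) ≤ κ) (q + 1)
  have hs : (Nat.sqrt (q + 1) : ℝ) ≤ (q : ℝ) + 1 := by exact_mod_cast Nat.sqrt_le_self (q + 1)
  have hq0 : (0 : ℝ) ≤ q := Nat.cast_nonneg q
  have hL2 : (Ls κ (q + 1) : ℝ) + 1 ≤ (κ + 4) * (q + 1) := by
    push_cast at hL
    nlinarith
  have hp : (0 : ℝ) < 2 ^ q := by positivity
  have hC : C ≤ |C| := le_abs_self C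
  have hC0 : 0 ≤ |C| := abs_nonneg C
  have hLn : (0 : ℝ) ≤ (Ls κ (q + 1) : ℝ) := Nat.cast_nonneg _
  calc C * (2 ^ (q + 1) * ((Ls κ (q + 1) : ℝ) + 1))
      ≤ |C| * (2 ^ (q + 1) * ((κ + 4) * (q + 1))) := by
        apply mul_le_mul hC _ (by positivity) hC0
        apply mul_le_mul_of_nonneg_left hL2 (by positivity)
    _ = (2 * |C| * (κ + 4)) * (q + 1) * 2 ^ q := by ring
    _ ≤ (q + 1) ^ 2 * (q + 1) * 2 ^ q := by
        apply mul_le_mul_of_nonneg_right _ hp.le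
        apply mul_le_mul_of_nonneg_right _ (by positivity)
        nlinarith
    _ = ((q : ℝ) + 1) ^ 3 * 2 ^ q := by ring

/-- The real inequality behind `St_D3`. -/
theorem slot_ineq (κ η s : ℝ) (hκ : 1 ≤ κ) (hη : 0 ≤ η) (hs : 0 < s) (hsκ : s * κ < 1) :
    ∃ r1 : ℕ, ∀ r ≥ r1, s * (2 ^ r * (Ls κ r + 2 * η + 2 * (κ + 3))) ≤ (TT r * bb r : ℕ) ∧
      s * Ls κ r ≤ bb r := by
  set A : ℝ := 2 * s + 5 + s * (7 + 2 * η + 2 * κ) with hA
  have hApos : 0 < A := by positivity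
  obtain ⟨W, hW⟩ := exists_nat_ge (A / (1 - s * κ))
  have hW' : A ≤ (1 - s * κ) * W := by
    rw [div_le_iff₀ (by linarith)] at hW
    linarith
  refine ⟨(W + 3) ^ 2, fun r hr => ?_⟩
  have hw : W + 3 ≤ Nat.sqrt r := Nat.le_sqrt'.2 hr
  set w := Nat.sqrt r with hwdef
  have hw2 : w ^ 2 ≤ r := Nat.sqrt_le' r
  have hw3 : r < (w + 1) ^ 2 := Nat.lt_succ_sqrt' r
  have hwr : w ≤ r := Nat.sqrt_le_self r
  have hw3r : 3 * w ≤ r := by nlinarith
  have hL := Ls_le (by linarith : (0 : ℝ) ≤ κ) r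
  have hbb : ((bb r : ℕ) : ℝ) = r - 3 * w := by
    unfold bb
    rw [← hwdef]
    rw [Nat.cast_sub hw3r]
    push_cast
    ring
  have hTT : ((TT r : ℕ) : ℝ) = 2 ^ r - 2 ^ (r - w) := by
    unfold TT
    rw [← hwdef]
    rw [Nat.cast_sub (Nat.pow_le_pow_right (by norm_num) (Nat.sub_le _ _))]
    push_cast
    ring
  have hwR : (W : ℝ) + 3 ≤ w := by exact_mod_cast hw
  have hw2R : (w : ℝ) ^ 2 ≤ r := by exact_mod_cast hw2
  have hw3R : (r : ℝ) < (w + 1) ^ 2 := by exact_mod_cast hw3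
  have hWn : (0 : ℝ) ≤ W := Nat.cast_nonneg W
  have hL' : (Ls κ r : ℝ) ≤ κ * r + 1 + 2 * w := by
    rw [hwdef]
    exact hL
  -- main inequality
  have key : s * (κ * r + 1 + 2 * w + 2 * η + 2 * (κ + 3)) ≤ r - 4 * w - 1 := by
    have h1 : (1 - s * κ) * (w : ℝ) ^ 2 ≤ (1 - s * κ) * r :=
      mul_le_mul_of_nonneg_left hw2R (by linarith)
    have h2 : A * w ≤ (1 - s * κ) * (w : ℝ) ^ 2 := by
      have h3 : A ≤ (1 - s * κ) * w := by
        refine le_trans hW' (mul_le_mul_of_nonneg_left (by linarith) (by linarith))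
      nlinarith
    have h4 : s * (7 + 2 * η + 2 * κ) ≤ s * (7 + 2 * η + 2 * κ) * w := by
      have : 0 ≤ s * (7 + 2 * η + 2 * κ) := by positivity
      nlinarith
    rw [hA] at h2
    nlinarith
  have h5 : (r : ℝ) * 1 ≤ (w + 1) * 2 ^ w := by
    have h6 : (w : ℝ) + 1 ≤ 2 ^ w := by
      have : w + 1 ≤ 2 ^ w := Nat.lt_two_pow_self
      exact_mod_cast this
    nlinarith
  have h2r : (2 : ℝ) ^ r = 2 ^ (r - w) * 2 ^ w := by
    rw [← pow_add]
    congr 1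
    omega
  have hprod : (2 : ℝ) ^ r * (r - 4 * w - 1) ≤ (2 ^ r - 2 ^ (r - w)) * (r - 3 * w) := by
    have h7 : (2 : ℝ) ^ (r - w) * r ≤ 2 ^ r * (w + 1) := by
      rw [h2r]
      have h8 : (0 : ℝ) < 2 ^ (r - w) := by positivity
      nlinarith
    have h9 : (0 : ℝ) ≤ 2 ^ (r - w) * (3 * w) := by positivity
    nlinarith
  constructor
  · push_cast
    rw [hbb, hTT]
    refine le_trans ?_ hprod
    have h2p : (0 : ℝ) < 2 ^ r := by positivity
    calc s * (2 ^ r * (Ls κ r + 2 * η + 2 * (κ + 3)))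
        = 2 ^ r * (s * (Ls κ r + 2 * η + 2 * (κ + 3))) := by ring
      _ ≤ 2 ^ r * (r - 4 * w - 1) := by
        apply mul_le_mul_of_nonneg_left _ h2p.le
        refine le_trans ?_ key
        apply mul_le_mul_of_nonneg_left _ hs.le
        linarith
  · rw [hbb]
    have h10 : s * Ls κ r ≤ s * (κ * r + 1 + 2 * w + 2 * η + 2 * (κ + 3)) := by
      apply mul_le_mul_of_nonneg_left _ hs.le
      linarith
    linarith

theorem BB_succ {g0 g : ℕ} (h : g0 ≤ g) : BB g0 (g + 1) = BB g0 g + TT (lev g) * bb (lev g) := by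
  unfold BB
  rw [Finset.sum_range_succ, if_pos h]

theorem D3_ok : St_D3 := by
  intro κ hκ η hη s hs hsκ g0
  obtain ⟨r1, hr1⟩ := slot_ineq κ η s hκ hη hs hsκ
  have hκ0 : (0 : ℝ) ≤ κ := by linarith
  set g1 := max g0 (r1 ^ 4) with hg1
  set G : ℕ → ℝ := fun g =>
    s * (PP κ g + (nn g + 2 ^ lev g) * η + 1 + 2 * Ls κ (lev g)) with hG
  have step : ∀ g ≥ g1, G (g + 1) ≤ G g + (TT (lev g) * bb (lev g) : ℕ) := by
    intro g hg
    have hg' : r1 ^ 4 ≤ g := le_trans (le_max_right _ _) hg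
    have h1 := (hr1 (lev g) (le_lev_iff.2 hg')).1
    refine le_trans ?_ (add_le_add_right h1 (G g))
    simp only [hG]
    rw [PP_succ, nn_succ]
    have h2 : (2 : ℝ) ^ lev (g + 1) ≤ 2 * 2 ^ lev g := by
      rw [← pow_succ']
      exact pow_le_pow_right₀ (by norm_num) (lev_succ_le g)
    have h3 : (Ls κ (lev (g + 1)) : ℝ) ≤ Ls κ (lev g) + κ + 3 := by
      refine le_trans ?_ (Ls_succ_le hκ0 (lev g))
      exact_mod_cast Ls_mono hκ0 (lev_succ_le g)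
    have h4 : (1 : ℝ) ≤ 2 ^ lev g := one_le_pow₀ (by norm_num)
    push_cast
    have h5 : (2 : ℝ) ^ lev (g + 1) * η ≤ 2 * 2 ^ lev g * η := mul_le_mul_of_nonneg_right h2 hη
    have h6 : (κ + 3) ≤ 2 ^ lev g * (κ + 3) := by nlinarith
    rw [← mul_add]
    apply mul_le_mul_of_nonneg_left _ hs.le
    nlinarith
  have step2 : ∀ g ≥ g1, G g ≤ G g1 + BB g0 g := by
    intro g hg
    induction g, hg using Nat.le_induction with
    | base => 
      have : (0 : ℝ) ≤ BB g0 g1 := Nat.cast_nonneg _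
      linarith
    | succ g hg ih =>
      have h1 := step g hg
      rw [BB_succ (le_trans (le_max_left _ _) hg)]
      push_cast at h1 ⊢
      linarith
  set C2 : ℝ := s * (PP κ g1 + (nn g1 + 2 ^ lev g1) * η + 1 + Ls κ (lev g1) * (2 ^ lev g1 + 2))
    with hC2
  have hG0 : 0 ≤ G g1 := by
    simp only [hG]
    positivity
  have hC20 : 0 ≤ C2 := by
    rw [hC2]
    positivity
  refine ⟨G g1 + C2, fun g hg t ht => ?_⟩
  have hb0 : (0 : ℝ) ≤ (BB g0 g : ℝ) + t * bb (lev g) := by positivity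
  rcases le_or_gt g1 g with h | h
  · have h1 := step2 g h
    have h2 := (hr1 (lev g) (le_lev_iff.2 (le_trans (le_max_right _ _) h))).2
    have h3 : (t : ℝ) * (s * Ls κ (lev g)) ≤ t * bb (lev g) :=
      mul_le_mul_of_nonneg_left h2 (Nat.cast_nonneg t)
    simp only [hG] at h1
    have h4 : s * ((PP κ g : ℝ) + (nn g + 2 ^ lev g) * η + 1 + Ls κ (lev g) * (t + 2)) =
      s * ((PP κ g : ℝ) + (nn g + 2 ^ lev g) * η + 1 + 2 * Ls κ (lev g)) +
        t * (s * Ls κ (lev g)) := by ring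
    rw [h4]
    simp only [hG]
    linarith
  · have ha : (PP κ g : ℝ) ≤ PP κ g1 := by exact_mod_cast PP_mono κ h.le
    have hb : (nn g : ℝ) ≤ nn g1 := by exact_mod_cast nn_mono h.le
    have hc : (2 : ℝ) ^ lev g ≤ 2 ^ lev g1 := pow_le_pow_right₀ (by norm_num) (lev_mono h.le)
    have hd : (Ls κ (lev g) : ℝ) ≤ Ls κ (lev g1) := by exact_mod_cast Ls_mono hκ0 (lev_mono h.le)
    have he : (t : ℝ) ≤ 2 ^ lev g := by
      have : t ≤ 2 ^ lev g := by
        refine le_trans (le_of_lt ht) ?_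
        exact Nat.sub_le _ _
      exact_mod_cast this
    have hmain : s * ((PP κ g : ℝ) + (nn g + 2 ^ lev g) * η + 1 + Ls κ (lev g) * (t + 2)) ≤ C2 := by
      rw [hC2]
      apply mul_le_mul_of_nonneg_left _ hs.le
      have h1 : ((nn g : ℝ) + 2 ^ lev g) * η ≤ (nn g1 + 2 ^ lev g1) * η :=
        mul_le_mul_of_nonneg_right (by linarith) hη
      have h2 : (Ls κ (lev g) : ℝ) * (t + 2) ≤ Ls κ (lev g1) * (2 ^ lev g1 + 2) :=
        mul_le_mul hd (by linarith) (by positivity) (by positivity)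
      linarith
    linarith

end Pool.Agent.R62.MKD
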