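import Pool.Agent.R62.MKD

/-!
# MK-D2: summability and tails of the coefficients, `St_D2` of `Pool.Agent.R825.MK`
-/

set_option autoImplicit false

open Finset Filter Topology

namespace Pool.Agent.R62.MKD2

open Pool.Agent.R825.MK Pool.Agent.R62.MKD

theorem le_nn (g : ℕ) : g ≤ nn g := by
  induction g with
  | zero => exact Nat.zero_le _
  | succ g ih =>
    rw [nn_succ]
    have : 1 ≤ 2 ^ lev g := Nat.one_le_two_pow
    omega

theorem grp_eq {g j : ℕ} (h : j < 2 ^ lev g) : grp (nn g + j) = g := by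
  unfold grp
  rw [Nat.findGreatest_eq_iff]
  refine ⟨le_trans (le_nn g) (Nat.le_add_right _ _), fun _ => Nat.le_add_right _ _, ?_⟩
  intro n hn _
  have h1 : nn (g + 1) ≤ nn n := nn_mono hn
  rw [nn_succ] at h1
  omega

theorem sum_range_nn {M : Type*} [AddCommMonoid M] (f : ℕ → M) (g : ℕ) :
    ∑ i ∈ range (nn g), f i = ∑ h ∈ range g, ∑ j ∈ range (2 ^ lev h), f (nn h + j) := by
  induction g with
  | zero => simp [nn]
  | succ g ih =>
    rw [nn_succ, Finset.sum_range_add, ih, Finset.sum_range_succ]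

/-- bound of the sum of the coefficients of the `g`-th group -/
noncomputable def cc (κ : ℝ) (g : ℕ) : ℝ := 2 ^ lev g * Real.exp (-(Real.log 2 * PP κ g))

theorem cc_pos (κ : ℝ) (g : ℕ) : 0 < cc κ g := by
  unfold cc
  positivity

theorem aa_pos (κ : ℝ) (i : ℕ) : 0 < aa κ i := Real.exp_pos _

theorem aa_le (κ : ℝ) {g j : ℕ} (h : j < 2 ^ lev g) :
    aa κ (nn g + j) ≤ Real.exp (-(Real.log 2 * PP κ g)) := by
  unfold aa
  rw [grp_eq h]
  apply Real.exp_le_exp.2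
  have h1 : 0 < Real.log 2 := Real.log_pos (by norm_num)
  have h2 : (0 : ℝ) ≤ ((nn g + j - nn g : ℕ) : ℝ) ^ 2 / 4 ^ lev g := by positivity
  nlinarith

theorem block_le (κ : ℝ) (g : ℕ) : ∑ j ∈ range (2 ^ lev g), aa κ (nn g + j) ≤ cc κ g := by
  calc ∑ j ∈ range (2 ^ lev g), aa κ (nn g + j)
      ≤ ∑ j ∈ range (2 ^ lev g), Real.exp (-(Real.log 2 * PP κ g)) :=
        Finset.sum_le_sum fun j hj => aa_le κ (mem_range.1 hj)
    _ = cc κ g := by
        rw [Finset.sum_const, card_range, nsmul_eq_mul]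
        unfold cc
        push_cast
        rfl

theorem cc_succ_le {κ : ℝ} {g : ℕ} (hg : 1 ≤ g) : 2 * cc κ (g + 1) ≤ cc κ g := by
  unfold cc
  rw [PP_succ]
  have h1 : (2 : ℝ) ^ lev (g + 1) ≤ 2 * 2 ^ lev g := by
    rw [← pow_succ']
    exact pow_le_pow_right₀ (by norm_num) (lev_succ_le g)
  have hlev : 1 ≤ lev g := le_lev_iff.2 (by simpa using hg)
  have h2 : 2 ≤ Ls κ (lev g) := by
    unfold Ls
    have h3 : 1 ≤ Nat.sqrt (lev g) := Nat.le_sqrt'.2 (by simpa using hlev)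
    omega
  have h3 : 2 ≤ 2 ^ lev g * Ls κ (lev g) := by
    have : 1 ≤ 2 ^ lev g := Nat.one_le_two_pow
    nlinarith
  have h3' : (2 : ℝ) ≤ ((2 ^ lev g * Ls κ (lev g) : ℕ) : ℝ) := by exact_mod_cast h3
  have hlog : 0 < Real.log 2 := Real.log_pos (by norm_num)
  have h4 : Real.exp (-(Real.log 2 * ((PP κ g + 2 ^ lev g * Ls κ (lev g) : ℕ) : ℝ))) ≤
      Real.exp (-(Real.log 2 * PP κ g)) / 4 := by
    have h5 : Real.exp (-(Real.log 2 * PP κ g)) / 4 =
        Real.exp (-(Real.log 2 * PP κ g) - Real.log 2 * 2) := by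
      rw [Real.exp_sub]
      congr 1
      rw [mul_comm, two_mul, Real.exp_add, Real.exp_log (by norm_num)]
      norm_num
    rw [h5]
    apply Real.exp_le_exp.2
    rw [Nat.cast_add]
    nlinarith
  have h6 : 0 < Real.exp (-(Real.log 2 * PP κ g)) := Real.exp_pos _
  calc 2 * (2 ^ lev (g + 1) *
        Real.exp (-(Real.log 2 * ((PP κ g + 2 ^ lev g * Ls κ (lev g) : ℕ) : ℝ))))
      ≤ 2 * ((2 * 2 ^ lev g) * (Real.exp (-(Real.log 2 * PP κ g)) / 4)) := by
        apply mul_le_mul_of_nonneg_left _ (by norm_num)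
        exact mul_le_mul h1 h4 (Real.exp_pos _).le (by positivity)
    _ = 2 ^ lev g * Real.exp (-(Real.log 2 * PP κ g)) := by ring

theorem partial_le {κ : ℝ} {g : ℕ} (hg : 1 ≤ g) (m : ℕ) :
    ∑ i ∈ range (nn (g + m)), aa κ i ≤
      ∑ i ∈ range (nn g), aa κ i + 2 * cc κ g - 2 * cc κ (g + m) := by
  induction m with
  | zero => simp
  | succ m ih =>
    have h1 := block_le κ (g + m)
    have h2 := cc_succ_le (κ := κ) (g := g + m) (by omega)
    rw [← add_assoc, nn_succ, Finset.sum_range_add]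
    linarith

theorem partial_le' {κ : ℝ} {g : ℕ} (hg : 1 ≤ g) (n : ℕ) :
    ∑ i ∈ range n, aa κ i ≤ ∑ i ∈ range (nn g), aa κ i + 2 * cc κ g := by
  have h1 := partial_le (κ := κ) hg n
  have h2 := cc_pos κ (g + n)
  have h3 : ∑ i ∈ range n, aa κ i ≤ ∑ i ∈ range (nn (g + n)), aa κ i := by
    apply Finset.sum_le_sum_of_subset_of_nonneg
    · exact range_mono (le_trans (Nat.le_add_left _ _) (le_nn _))
    · intro i _ _
      exact (aa_pos κ i).le
  linarith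

theorem summable_aa (κ : ℝ) : Summable (aa κ) :=
  summable_of_sum_range_le (fun i => (aa_pos κ i).le) (partial_le' le_rfl)

theorem tail_le {κ : ℝ} {g : ℕ} (hg : 1 ≤ g) :
    ∑' i, aa κ (i + nn g) ≤ 2 * cc κ g := by
  apply Real.tsum_le_of_sum_range_le (fun i => (aa_pos κ _).le)
  intro n
  have h1 := partial_le' (κ := κ) hg (nn g + n)
  rw [Finset.sum_range_add] at h1
  have h2 : ∑ i ∈ range n, aa κ (i + nn g) = ∑ i ∈ range n, aa κ (nn g + i) :=
    Finset.sum_congr rfl fun i _ => by rw [add_comm]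
  rw [h2]
  linarith

/-- the number of indices up to level `u` is at most the number of indices at level `u` -/
theorem NN_le (u : ℕ) : nn (u ^ 4) ≤ ((u + 1) ^ 4 - u ^ 4) * 2 ^ u := by
  induction u with
  | zero => simp [nn]
  | succ u ih =>
    rw [nn_pow_succ]
    have h1 : (u + 1) ^ 4 - u ^ 4 ≤ (u + 1 + 1) ^ 4 - (u + 1) ^ 4 := by
      have h2 : u ^ 4 ≤ (u + 1) ^ 4 := Nat.pow_le_pow_left (Nat.le_succ u) 4
      have h3 : 2 * (u + 1) ^ 4 ≤ (u + 1 + 1) ^ 4 + u ^ 4 := by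
        nlinarith [sq_nonneg u, Nat.zero_le (u ^ 2), Nat.zero_le (u ^ 3), Nat.zero_le u]
      omega
    calc nn (u ^ 4) + ((u + 1) ^ 4 - u ^ 4) * 2 ^ u
        ≤ ((u + 1) ^ 4 - u ^ 4) * 2 ^ u + ((u + 1) ^ 4 - u ^ 4) * 2 ^ u :=
          Nat.add_le_add_right ih _
      _ = ((u + 1) ^ 4 - u ^ 4) * 2 ^ (u + 1) := by ring
      _ ≤ ((u + 1 + 1) ^ 4 - (u + 1) ^ 4) * 2 ^ (u + 1) := Nat.mul_le_mul_right _ h1

theorem PP_lower {κ : ℝ} (hκ : 0 ≤ κ) (u : ℕ) :
    (nn (u ^ 4) : ℝ) * (κ * u + 2 * Nat.sqrt u - 2 * (κ + 2)) ≤ PP κ (u ^ 4) := by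
  induction u with
  | zero => simp [nn, PP]
  | succ u ih =>
    rw [nn_pow_succ, PP_pow_succ]
    have h0 := NN_le u
    set c : ℕ := ((u + 1) ^ 4 - u ^ 4) * 2 ^ u with hc
    have h1 : ((u + 1) ^ 4 - u ^ 4) * (2 ^ u * Ls κ u) = c * Ls κ u := by
      rw [hc]
      ring
    rw [h1]
    have h0' : (nn (u ^ 4) : ℝ) ≤ c := by exact_mod_cast h0
    have hL := le_Ls κ u
    have hs : (Nat.sqrt (u + 1) : ℝ) ≤ Nat.sqrt u + 1 := by exact_mod_cast sqrt_succ_le u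
    have hn0 : (0 : ℝ) ≤ nn (u ^ 4) := Nat.cast_nonneg _
    have hc0 : (0 : ℝ) ≤ c := Nat.cast_nonneg _
    push_cast
    have h2 : (c : ℝ) * (κ * u + 2 * Nat.sqrt u) ≤ c * Ls κ u := mul_le_mul_of_nonneg_left hL hc0
    have h3 : ((nn (u ^ 4) : ℝ) + c) * (κ * (u + 1) + 2 * Nat.sqrt (u + 1) - 2 * (κ + 2)) ≤
        (nn (u ^ 4) + c) * (κ * u + 2 * Nat.sqrt u - (κ + 2)) := by
      apply mul_le_mul_of_nonneg_left _ (by positivity)
      linarith
    have h4 : (nn (u ^ 4) : ℝ) * (κ + 2) ≤ c * (κ + 2) := mul_le_mul_of_nonneg_right h0' (by linarith)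
    nlinarith

theorem nn_pow_le (u : ℕ) : nn (u ^ 4) ≤ u ^ 4 * 2 ^ u := by
  unfold nn
  calc ∑ h ∈ range (u ^ 4), 2 ^ lev h ≤ ∑ h ∈ range (u ^ 4), 2 ^ u := by
        apply Finset.sum_le_sum
        intro h hh
        exact Nat.pow_le_pow_right (by norm_num) (lev_lt_iff.2 (mem_range.1 hh)).le
    _ = u ^ 4 * 2 ^ u := by rw [Finset.sum_const, card_range, smul_eq_mul]

/-- eventually `u ^ 5 ≤ 2 ^ √u`. -/
theorem pow5_le : ∃ w0 : ℕ, ∀ w ≥ w0, ∀ u : ℕ, u < (w + 1) ^ 2 → u ^ 5 ≤ 2 ^ w := by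
  have h1 := tendsto_pow_const_div_const_pow_of_one_lt 10 (r := (2 : ℝ)) (by norm_num)
  have h2 : ∀ᶠ n : ℕ in atTop, (n : ℝ) ^ 10 / 2 ^ n < 1 / 2 := h1.eventually (gt_mem_nhds (by norm_num))
  obtain ⟨w0, hw0⟩ := eventually_atTop.1 h2
  refine ⟨w0, fun w hw u hu => ?_⟩
  have h3 := hw0 (w + 1) (by omega)
  rw [div_lt_iff₀ (by positivity), pow_succ (2 : ℝ) w] at h3
  have h4 : ((w + 1 : ℕ) : ℝ) ^ 10 < 2 ^ w := by linarith
  have h5 : (w + 1) ^ 10 < 2 ^ w := by exact_mod_cast h4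
  calc u ^ 5 ≤ ((w + 1) ^ 2) ^ 5 := Nat.pow_le_pow_left hu.le 5
    _ = (w + 1) ^ 10 := by ring
    _ ≤ 2 ^ w := h5.le

/-- the exponent per index tends to `-∞`. -/
theorem bracket {κ s : ℝ} (hκ : 1 ≤ κ) (hs : 0 < s) (h : 1 < s * κ ∨ s = 1) :
    ∃ w0 : ℕ, ∀ w ≥ w0, ∀ u : ℕ, w ^ 2 ≤ u →
      (u : ℝ) + w - s * (κ * u + 2 * w - 2 * (κ + 2)) ≤ -(1 + s) := by
  rcases h with h | rfl
  · set A : ℝ := 2 + s + 2 * s * (κ + 2) with hA
    have hA0 : 0 < A := by positivity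
    obtain ⟨W, hW⟩ := exists_nat_ge (A / (s * κ - 1))
    rw [div_le_iff₀ (by linarith)] at hW
    refine ⟨W + 1, fun w hw u hu => ?_⟩
    have hwR : (W : ℝ) + 1 ≤ w := by exact_mod_cast hw
    have huR : (w : ℝ) ^ 2 ≤ u := by exact_mod_cast hu
    have hW0 : (0 : ℝ) ≤ W := Nat.cast_nonneg _
    have h1 : (s * κ - 1) * (w : ℝ) ^ 2 ≤ (s * κ - 1) * u :=
      mul_le_mul_of_nonneg_left huR (by linarith)
    have h2 : A * w ≤ (s * κ - 1) * (w : ℝ) ^ 2 := by
      have h3 : A ≤ (s * κ - 1) * w := by nlinarith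
      nlinarith
    have h4 : (1 + s + 2 * s * (κ + 2)) ≤ (1 + s + 2 * s * (κ + 2)) * w := by
      have : 0 ≤ 1 + s + 2 * s * (κ + 2) := by positivity
      nlinarith
    have h5 : A * w = (1 + s + 2 * s * (κ + 2)) * w + w := by rw [hA]; ring
    have h6 : 0 ≤ s * w := by positivity
    nlinarith
  · refine ⟨8, fun w hw u hu => ?_⟩
    have hwR : (8 : ℝ) ≤ w := by exact_mod_cast hw
    have hu2 : (2 : ℝ) ≤ u := by
      have : 2 ≤ u := by nlinarith
      exact_mod_cast this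
    nlinarith

theorem D2_ok : St_D2 := by
  intro κ hκ
  refine ⟨summable_aa κ, ?_⟩
  intro s hs hsκ C δ hC hδ r0
  obtain ⟨w1, hw1⟩ := pow5_le
  obtain ⟨w2, hw2⟩ := bracket hκ hs hsκ
  obtain ⟨l, hl⟩ : ∃ l, l = Real.log 2 := ⟨_, rfl⟩
  have hl0 : 0 < l := by rw [hl]; exact Real.log_pos (by norm_num)
  -- `Q` is an upper bound of `u` needed
  obtain ⟨Q, hQ⟩ := exists_nat_gt ((s * (Real.log C + l) - Real.log δ) / l)
  obtain ⟨W, hW⟩ : ∃ W, W = w1 + w2 + r0 + Q + 1 := ⟨_, rfl⟩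
  obtain ⟨u, hu⟩ : ∃ u, u = W ^ 2 := ⟨_, rfl⟩
  have hsq : Nat.sqrt u = W := by rw [hu]; exact Nat.sqrt_eq' W
  have hWu : W ≤ u := by rw [hu]; nlinarith [Nat.zero_le W]
  obtain ⟨N, hN⟩ : ∃ N, N = nn (u ^ 4) := ⟨_, rfl⟩
  have hu1 : 1 ≤ u := le_trans (by omega) hWu
  have hu4 : 1 ≤ u ^ 4 := Nat.one_le_pow _ _ hu1
  have huu4 : u ≤ u ^ 4 := Nat.le_self_pow (by norm_num) u
  have huN : u ≤ N := by rw [hN]; exact le_trans huu4 (le_nn _)
  refine ⟨u, by omega, N, by omega, ?_⟩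
  have htail := tail_le (κ := κ) hu4
  rw [← hN] at htail
  have htail0 : 0 < ∑' i, aa κ (i + N) := by
    have hsum : Summable fun i => aa κ (i + N) := (summable_nat_add_iff N).2 (summable_aa κ)
    exact hsum.tsum_pos (fun i => (aa_pos κ _).le) 0 (aa_pos κ _)
  have hP := PP_lower (by linarith : (0 : ℝ) ≤ κ) u
  rw [hsq, ← hN] at hP
  obtain ⟨P, hPdef⟩ : ∃ P : ℝ, P = (PP κ (u ^ 4) : ℝ) := ⟨_, rfl⟩
  rw [← hPdef] at hP
  have hcc : cc κ (u ^ 4) = Real.exp (l * u - l * P) := by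
    unfold cc
    rw [lev_pow, ← hl, ← hPdef, Real.exp_sub, mul_comm l (u : ℝ), ← Real.rpow_natCast,
      Real.rpow_def_of_pos (by norm_num), ← hl, mul_comm l (u : ℝ), Real.exp_neg]
    rfl
  have hbase : (u * N : ℕ) ≤ 2 ^ (u + W) := by
    calc u * N ≤ u * (u ^ 4 * 2 ^ u) := by rw [hN]; exact Nat.mul_le_mul_left _ (nn_pow_le u)
      _ = 2 ^ u * u ^ 5 := by ring
      _ ≤ 2 ^ u * 2 ^ W := by
        apply Nat.mul_le_mul_left
        apply hw1 W (by omega)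
        rw [hu]
        nlinarith
      _ = 2 ^ (u + W) := (pow_add 2 u W).symm
  have hb2 : ((u * N : ℕ) : ℝ) ^ N ≤ Real.exp (l * ((u + W) * N)) := by
    have h1 : ((u * N : ℕ) : ℝ) ≤ 2 ^ (u + W) := by exact_mod_cast hbase
    have h2 : (2 : ℝ) ^ (u + W) = Real.exp (l * (u + W)) := by
      rw [← Real.rpow_natCast, Real.rpow_def_of_pos (by norm_num), ← hl]
      push_cast
      rfl
    calc ((u * N : ℕ) : ℝ) ^ N ≤ (2 ^ (u + W)) ^ N := pow_le_pow_left₀ (Nat.cast_nonneg _) h1 N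
      _ = Real.exp (l * ((u + W) * N)) := by
        rw [h2, ← Real.exp_nat_mul]
        congr 1
        ring
  have hb3 : (C * ∑' i, aa κ (i + N)) ^ s ≤
      Real.exp (s * (Real.log C + l + (l * u - l * P))) := by
    have h1 : C * ∑' i, aa κ (i + N) ≤ Real.exp (Real.log C + l + (l * u - l * P)) := by
      rw [Real.exp_add, Real.exp_add, Real.exp_log hC, hl, Real.exp_log (by norm_num), ← hl,
        ← hcc, mul_assoc]
      exact mul_le_mul_of_nonneg_left htail hC.le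
    calc (C * ∑' i, aa κ (i + N)) ^ s
        ≤ (Real.exp (Real.log C + l + (l * u - l * P))) ^ s :=
          Real.rpow_le_rpow (by positivity) h1 hs.le
      _ = Real.exp (s * (Real.log C + l + (l * u - l * P))) := by
        rw [← Real.exp_mul]
        congr 1
        ring
  have hbr := hw2 W (by omega) u hu.ge
  have hNu : (u : ℝ) ≤ N := by exact_mod_cast huN
  have hN0 : (0 : ℝ) ≤ N := Nat.cast_nonneg _
  have hQu : (Q : ℝ) ≤ u := by
    have : Q ≤ u := by omega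
    exact_mod_cast this
  rw [div_lt_iff₀ hl0] at hQ
  calc ((u * N : ℕ) : ℝ) ^ N * (C * ∑' i, aa κ (i + N)) ^ s
      ≤ Real.exp (l * ((u + W) * N)) * Real.exp (s * (Real.log C + l + (l * u - l * P))) :=
        mul_le_mul hb2 hb3 (by positivity) (Real.exp_pos _).le
    _ = Real.exp (l * ((u + W) * N - s * P + s * u) + s * (Real.log C + l)) := by
        rw [← Real.exp_add]
        congr 1
        ring
    _ < Real.exp (Real.log δ) := by
        apply Real.exp_lt_exp.2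
        have h1 : ((u : ℝ) + W) * N - s * P ≤ N * (-(1 + s)) := by
          have h2 : s * (N * (κ * u + 2 * W - 2 * (κ + 2))) ≤ s * P :=
            mul_le_mul_of_nonneg_left hP hs.le
          have h3 : N * ((u : ℝ) + W - s * (κ * u + 2 * W - 2 * (κ + 2))) ≤ N * (-(1 + s)) :=
            mul_le_mul_of_nonneg_left hbr hN0
          nlinarith
        have h4 : (N : ℝ) * (-(1 + s)) ≤ u * (-(1 + s)) := by nlinarith
        have h5 : ((u : ℝ) + W) * N - s * P + s * u ≤ -u := by nlinarith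
        have h6 : l * (((u : ℝ) + W) * N - s * P + s * u) ≤ l * (-u) :=
          mul_le_mul_of_nonneg_left h5 hl0.le
        nlinarith
    _ = δ := Real.exp_log hδ

end Pool.Agent.R62.MKD2
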