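import Mathlib

/-!
# A certificate checker for the five-star game

Five stars with weights `2, 2, 2, 3, 3`. A *position* is a number `z < 32` (bit `i` says which of
the two colours of its list the centre of star `i` gets) and for every position some colour
`a ∈ {0, 1, 2}` is claimed to be forced on more than half of all leaves. A tree of queries with
multipliers at its leaves refutes such a claim. All functions are given by recursors, for speed.
-/

namespace Pool.Agent.R62.Star

/-- query trees; a leaf carries bounds for the five stars and multipliers -/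
inductive Tr
  | L (kap lam : List Nat) : Tr
  | N (z : Nat) (a b c : Tr) : Tr

/-- read `k` digits -/
noncomputable def digits (k : Nat) : Nat → List Nat × Nat :=
  Nat.rec (fun c => ([], c)) (fun _ ih c =>
    Prod.rec (fun l r => ((Nat.mod c 64) :: l, r)) (ih (Nat.div c 64))) k

/-- decode a tree -/
noncomputable def parse (fuel : Nat) : Nat → Nat → Tr × Nat :=
  Nat.rec (fun _ c => (Tr.L [] [], c)) (fun _ ih k c =>
    cond (Nat.blt (Nat.mod c 64) 32)
      (Prod.rec (fun a c1 => Prod.rec (fun b c2 => Prod.rec (fun d c3 =>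
        (Tr.N (Nat.mod c 64) a b d, c3)) (ih (Nat.succ k) c2)) (ih (Nat.succ k) c1))
          (ih (Nat.succ k) (Nat.div c 64)))
      (Prod.rec (fun l r => Prod.rec (fun l' r' => (Tr.L l l', r')) (digits k r))
        (digits 5 (Nat.div c 64)))) fuel

/-- total multiplicity of the items with bit `i` equal to `o` and colour `a` -/
noncomputable def cnt (i o a : Nat) (s : List (Nat × Nat × Nat)) : Nat :=
  List.rec 0 (fun h _ ih => Nat.add (cond (Nat.beq h.2.2 a)
    (cond (Nat.beq (Nat.mod (Nat.div h.2.1 (Nat.pow 2 i)) 2) o) h.1 0) 0) ih) s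

/-- sum of the multipliers -/
noncomputable def tot (s : List (Nat × Nat × Nat)) : Nat :=
  List.rec 0 (fun h _ ih => Nat.add h.1 ih) s

/-- `k` bounds every leaf type of star `i` of type `ty` -/
noncomputable def kap (ty i k : Nat) (s : List (Nat × Nat × Nat)) : Bool :=
  cond (Nat.beq ty 0)
    (cond (Nat.ble (cnt i 0 0 s) k) (cond (Nat.ble (cnt i 0 1 s) k) (cond (Nat.ble (cnt i 0 2 s) k)
      (cond (Nat.ble (cnt i 1 0 s) k) (cond (Nat.ble (cnt i 1 1 s) k) (Nat.ble (cnt i 1 2 s) k)
        false) false) false) false) false)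
  (cond (Nat.beq ty 1)
    (cond (Nat.ble (Nat.add (cnt i 0 1 s) (cnt i 1 0 s)) k)
      (cond (Nat.ble (cnt i 0 2 s) k) (Nat.ble (cnt i 1 2 s) k) false) false)
  (cond (Nat.beq ty 2)
    (cond (Nat.ble (Nat.add (cnt i 0 2 s) (cnt i 1 0 s)) k)
      (cond (Nat.ble (cnt i 0 1 s) k) (Nat.ble (cnt i 1 1 s) k) false) false)
    (cond (Nat.ble (Nat.add (cnt i 0 2 s) (cnt i 1 1 s)) k)
      (cond (Nat.ble (cnt i 0 0 s) k) (Nat.ble (cnt i 1 0 s) k) false) false)))

/-- attach multipliers to the queries -/
noncomputable def zipl (lam : List Nat) : List (Nat × Nat) → List (Nat × Nat × Nat) :=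
  List.rec (fun _ => []) (fun l _ ih ps =>
    List.rec [] (fun p ps' _ => cond (Nat.beq l 0) (ih ps') ((l, p) :: ih ps')) ps) lam

/-- `i`-th entry -/
noncomputable def nth (i : Nat) : List Nat → Nat :=
  Nat.rec (fun l => List.rec 0 (fun h _ _ => h) l)
    (fun _ ih l => List.rec 0 (fun _ t _ => ih t) l) i

/-- the test at a leaf -/
noncomputable def leafOK (ty : Nat → Nat) (s : List (Nat × Nat × Nat)) (k : List Nat) : Bool :=
  cond (Nat.blt 0 (tot s))
  (cond (Nat.ble (Nat.add (Nat.mul 2 (Nat.add (nth 0 k) (Nat.add (nth 1 k) (nth 2 k))))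
      (Nat.mul 3 (Nat.add (nth 3 k) (nth 4 k)))) (Nat.mul 6 (tot s)))
  (cond (kap (ty 0) 0 (nth 0 k) s) (cond (kap (ty 1) 1 (nth 1 k) s)
    (cond (kap (ty 2) 2 (nth 2 k) s) (cond (kap (ty 3) 3 (nth 3 k) s)
      (kap (ty 4) 4 (nth 4 k) s) false) false) false) false) false) false

/-- the checker -/
noncomputable def check (ty : Nat → Nat) (t : Tr) : List (Nat × Nat) → Bool :=
  Tr.rec (fun k lam path => leafOK ty (zipl lam path) k)
    (fun z _ _ _ iha ihb ihc path => cond (Nat.blt z 32)
      (cond (iha ((z, 0) :: path)) (cond (ihb ((z, 1) :: path)) (ihc ((z, 2) :: path)) false)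
        false) false) t

/-- type of star `i` in pattern number `p` -/
def tyOf (p : Nat) (i : Nat) : Nat := Nat.mod (Nat.div p (Nat.pow 4 i)) 4

/-- check a list of codes, for the patterns `p, p + 1, …` -/
noncomputable def run (cs : List Nat) : Nat → Bool :=
  List.rec (fun _ => true) (fun c _ ih p =>
    cond (check (tyOf p) (parse 14 0 c).1 []) (ih (Nat.succ p)) false) cs

end Pool.Agent.R62.Star
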