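import Pool.Agent.R62.StarData

/-! Kernel evaluation of the certificates, part 1 -/

namespace Pool.Agent.R62.Star

set_option maxRecDepth 100000

theorem run0 : run data0 0 = true := by decide +kernel

theorem run1 : run data1 64 = true := by decide +kernel

theorem run2 : run data2 128 = true := by decide +kernel

theorem run3 : run data3 192 = true := by decide +kernel

end Pool.Agent.R62.Star
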