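import Pool.Agent.R62.StarData

/-! Kernel evaluation of the certificates, part 2 -/

namespace Pool.Agent.R62.Star

set_option maxRecDepth 100000

theorem run4 : run data4 256 = true := by decide +kernel

theorem run5 : run data5 320 = true := by decide +kernel

theorem run6 : run data6 384 = true := by decide +kernel

theorem run7 : run data7 448 = true := by decide +kernel

end Pool.Agent.R62.Star
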