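import Pool.Agent.R62.StarData

/-! Kernel evaluation of the certificates, part 3 -/

namespace Pool.Agent.R62.Star

set_option maxRecDepth 100000

theorem run8 : run data8 512 = true := by decide +kernel

theorem run9 : run data9 576 = true := by decide +kernel

theorem run10 : run data10 640 = true := by decide +kernel

theorem run11 : run data11 704 = true := by decide +kernel

end Pool.Agent.R62.Star
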