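import Pool.Agent.R62.StarData

/-! Kernel evaluation of the certificates, part 4 -/

namespace Pool.Agent.R62.Star

set_option maxRecDepth 100000

theorem run12 : run data12 768 = true := by decide +kernel

theorem run13 : run data13 832 = true := by decide +kernel

theorem run14 : run data14 896 = true := by decide +kernel

theorem run15 : run data15 960 = true := by decide +kernel

end Pool.Agent.R62.Star
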