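import Pool.Agent.R62.StarSound
import Pool.Agent.R62.StarRun1
import Pool.Agent.R62.StarRun2
import Pool.Agent.R62.StarRun3
import Pool.Agent.R62.StarRun4

/-!
# The stars `K_{1,2t}, K_{1,2t}, K_{1,2t}, K_{1,3t}, K_{1,3t}`
-/

namespace Pool.Agent.R62.Star

open Finset

lemma len_data : data0.length = 64 ∧ data1.length = 64 ∧ data2.length = 64 ∧ data3.length = 64 ∧
    data4.length = 64 ∧ data5.length = 64 ∧ data6.length = 64 ∧ data7.length = 64 ∧
    data8.length = 64 ∧ data9.length = 64 ∧ data10.length = 64 ∧ data11.length = 64 ∧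
    data12.length = 64 ∧ data13.length = 64 ∧ data14.length = 64 ∧ data15.length = 64 := by
  refine ⟨?_, ?_, ?_, ?_, ?_, ?_, ?_, ?_, ?_, ?_, ?_, ?_, ?_, ?_, ?_, ?_⟩ <;> rfl

lemma exists_tree (p : ℕ) (hp : p < 1024) : ∃ tr : Tr, check (tyOf p) tr [] = true := by
  obtain ⟨l0, l1, l2, l3, l4, l5, l6, l7, l8, l9, l10, l11, l12, l13, l14, l15⟩ := len_data
  have key : ∀ (c : ℕ) (d : List ℕ), run d (64 * c) = true → d.length = 64 →
      p / 64 = c → ∃ tr : Tr, check (tyOf p) tr [] = true := by
    intro c d h1 h2 h3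
    obtain ⟨tr, htr⟩ := run_sound d (64 * c) h1 (p % 64) (by rw [h2]; exact Nat.mod_lt _ (by norm_num))
    refine ⟨tr, ?_⟩
    have : 64 * c + p % 64 = p := by omega
    rwa [this] at htr
  have h16 : p / 64 < 16 := by omega
  have hc : p / 64 = 0 ∨ p / 64 = 1 ∨ p / 64 = 2 ∨ p / 64 = 3 ∨ p / 64 = 4 ∨ p / 64 = 5 ∨
      p / 64 = 6 ∨ p / 64 = 7 ∨ p / 64 = 8 ∨ p / 64 = 9 ∨ p / 64 = 10 ∨ p / 64 = 11 ∨
      p / 64 = 12 ∨ p / 64 = 13 ∨ p / 64 = 14 ∨ p / 64 = 15 := by omega
  rcases hc with h | h | h | h | h | h | h | h | h | h | h | h | h | h | h | h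
  · exact key 0 data0 run0 l0 h
  · exact key 1 data1 run1 l1 h
  · exact key 2 data2 run2 l2 h
  · exact key 3 data3 run3 l3 h
  · exact key 4 data4 run4 l4 h
  · exact key 5 data5 run5 l5 h
  · exact key 6 data6 run6 l6 h
  · exact key 7 data7 run7 l7 h
  · exact key 8 data8 run8 l8 h
  · exact key 9 data9 run9 l9 h
  · exact key 10 data10 run10 l10 h
  · exact key 11 data11 run11 l11 h
  · exact key 12 data12 run12 l12 h
  · exact key 13 data13 run13 l13 h
  · exact key 14 data14 run14 l14 h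
  · exact key 15 data15 run15 l15 h

theorem game (t : ℕ) (T : ℕ → ℕ) (hT : ∀ i, T i < 4) (F : ℕ → ℕ → ℕ → ℕ)
    (h0 : TyOK (T 0) (2 * t) (F 0)) (h1 : TyOK (T 1) (2 * t) (F 1))
    (h2 : TyOK (T 2) (2 * t) (F 2)) (h3 : TyOK (T 3) (3 * t) (F 3))
    (h4 : TyOK (T 4) (3 * t) (F 4)) (A : ℕ → ℕ) (hA : ∀ z, z < 32 → A z < 3)
    (hl : ∀ z, z < 32 → 6 * t + 1 ≤ load F z (A z)) : False := by
  set p := T 0 + 4 * T 1 + 16 * T 2 + 64 * T 3 + 256 * T 4 with hp
  have a0 := hT 0
  have a1 := hT 1
  have a2 := hT 2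
  have a3 := hT 3
  have a4 := hT 4
  obtain ⟨tr, htr⟩ := exists_tree p (by omega)
  have e0 : tyOf p 0 = T 0 := by
    show p / 4 ^ 0 % 4 = T 0
    norm_num; omega
  have e1 : tyOf p 1 = T 1 := by
    show p / 4 ^ 1 % 4 = T 1
    norm_num; omega
  have e2 : tyOf p 2 = T 2 := by
    show p / 4 ^ 2 % 4 = T 2
    norm_num; omega
  have e3 : tyOf p 3 = T 3 := by
    show p / 4 ^ 3 % 4 = T 3
    norm_num; omega
  have e4 : tyOf p 4 = T 4 := by
    show p / 4 ^ 4 % 4 = T 4
    norm_num; omega
  exact check_sound (tyOf p) (tyOf_lt p) t F (by rwa [e0]) (by rwa [e1]) (by rwa [e2])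
    (by rwa [e3]) (by rwa [e4]) A hA hl tr [] (by simp) htr

/-- the recolouring lemma -/
lemma balance {V : Type} [Fintype V] [DecidableEq V] (R : V → Finset ℕ)
    (hne : ∀ v, (R v).Nonempty) (C : ℕ) (hC : Fintype.card V ≤ 2 * C)
    (h : ∀ a, (univ.filter (fun v => R v = {a})).card ≤ C) :
    ∃ f : V → ℕ, (∀ v, f v ∈ R v) ∧ ∀ a, (univ.filter (fun v => f v = a)).card ≤ C := by
  classical
  let cn : (V → ℕ) → ℕ → ℕ := fun f a => (univ.filter (fun v => f v = a)).card
  let P : Finset ℕ := univ.biUnion R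
  let T : (V → ℕ) → ℕ := fun f => ∑ a ∈ P, (cn f a - C)
  choose g hg using hne
  obtain ⟨f, hf, hmin⟩ := exists_min_image (Fintype.piFinset R) T
    ⟨g, Fintype.mem_piFinset.2 hg⟩
  have hf' := Fintype.mem_piFinset.1 hf
  refine ⟨f, hf', ?_⟩
  intro a
  by_contra hcon
  push Not at hcon
  have hcon' : C < cn f a := hcon
  -- a vertex coloured `a` with another option
  obtain ⟨v, hv1, hv2⟩ : ∃ v, f v = a ∧ R v ≠ {a} := by
    by_contra hno
    push Not at hno
    have hsub : univ.filter (fun v => f v = a) ⊆ univ.filter (fun v => R v = {a}) := by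
      intro v hv
      rw [mem_filter] at hv ⊢
      exact ⟨hv.1, hno v hv.2⟩
    have := card_le_card hsub
    have := h a
    omega
  obtain ⟨b, hb1, hb2⟩ : ∃ b ∈ R v, b ≠ a := by
    by_contra hno
    push Not at hno
    apply hv2
    ext x
    rw [mem_singleton]
    constructor
    · exact hno x
    · rintro rfl
      rw [← hv1]; exact hf' v
  have hdis : cn f a + cn f b ≤ Fintype.card V := by
    have hd : Disjoint (univ.filter (fun v => f v = a)) (univ.filter (fun v => f v = b)) := by
      rw [disjoint_left]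
      intro x hx hx'
      rw [mem_filter] at hx hx'
      exact hb2 (hx'.2.symm.trans hx.2)
    calc cn f a + cn f b = ((univ.filter (fun v => f v = a)) ∪
          (univ.filter (fun v => f v = b))).card := (card_union_of_disjoint hd).symm
      _ ≤ Fintype.card V := card_le_univ _
  set f' : V → ℕ := Function.update f v b with hf'def
  have hfv : f' v = b := Function.update_self _ _ _
  have hfw : ∀ w, w ≠ v → f' w = f w := fun w hw => Function.update_of_ne hw _ _
  have hmem : f' ∈ Fintype.piFinset R := by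
    rw [Fintype.mem_piFinset]
    intro w
    by_cases hw : w = v
    · subst hw; rw [hfv]; exact hb1
    · rw [hfw w hw]; exact hf' w
  have ca : cn f' a + 1 = cn f a := by
    have : univ.filter (fun w => f' w = a) = (univ.filter (fun w => f w = a)).erase v := by
      ext w
      simp only [mem_filter, mem_univ, true_and, mem_erase]
      by_cases hw : w = v
      · subst hw; simp [hfv, hb2]
      · simp [hfw w hw, hw]
    show (univ.filter (fun w => f' w = a)).card + 1 = _
    rw [this]
    exact card_erase_add_one (by rw [mem_filter]; exact ⟨mem_univ _, hv1⟩)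
  have cb : cn f' b = cn f b + 1 := by
    have : univ.filter (fun w => f' w = b) = insert v (univ.filter (fun w => f w = b)) := by
      ext w
      simp only [mem_filter, mem_univ, true_and, mem_insert]
      by_cases hw : w = v
      · subst hw; simp [hfv]
      · simp [hfw w hw, hw]
    show (univ.filter (fun w => f' w = b)).card = _
    rw [this, card_insert_of_notMem]
    rw [mem_filter, not_and, hv1]
    exact fun _ hh => hb2 hh.symm
  have cc : ∀ c, c ≠ a → c ≠ b → cn f' c = cn f c := by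
    intro c hca hcb
    show (univ.filter (fun w => f' w = c)).card = (univ.filter (fun w => f w = c)).card
    congr 1
    ext w
    simp only [mem_filter, mem_univ, true_and]
    by_cases hw : w = v
    · subst hw; rw [hfv, hv1]
      exact ⟨fun h => absurd h.symm hcb, fun h => absurd h.symm hca⟩
    · rw [hfw w hw]
  have haP : a ∈ P := mem_biUnion.2 ⟨v, mem_univ _, by rw [← hv1]; exact hf' v⟩
  have hlt : T f' < T f := by
    apply sum_lt_sum
    · intro c _
      by_cases hca : c = a
      · subst hca; omega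
      · by_cases hcb : c = b
        · subst hcb; rw [cb]; omega
        · rw [cc c hca hcb]
    · exact ⟨a, haP, by omega⟩
  exact absurd (hmin f' hmem) (not_le.2 hlt)

/-- three exclusive properties -/
lemma three_filter {M : ℕ} (p q r : Fin M → Prop) [DecidablePred p] [DecidablePred q]
    [DecidablePred r] (hpq : ∀ x, p x → q x → False) (hpr : ∀ x, p x → r x → False)
    (hqr : ∀ x, q x → r x → False) :
    (univ.filter p).card + (univ.filter q).card + (univ.filter r).card ≤ M := by
  classical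
  have d1 : Disjoint (univ.filter p) (univ.filter q) := by
    rw [disjoint_left]; intro x hx hx'
    exact hpq x (mem_filter.1 hx).2 (mem_filter.1 hx').2
  have d2 : Disjoint (univ.filter p ∪ univ.filter q) (univ.filter r) := by
    rw [disjoint_left]; intro x hx hx'
    rcases mem_union.1 hx with hx | hx
    · exact hpr x (mem_filter.1 hx).2 (mem_filter.1 hx').2
    · exact hqr x (mem_filter.1 hx).2 (mem_filter.1 hx').2
  rw [← card_union_of_disjoint d1, ← card_union_of_disjoint d2]
  exact (card_le_univ _).trans (by simp)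

/-- dangerous colours -/
def col (c0 c1 c2 : ℕ) (a : ℕ) : ℕ := if a = 0 then c0 else if a = 1 then c1 else c2

/-- counting leaves with list `{c, a}` -/
def cl {M : ℕ} (l : Fin M → Finset ℕ) (c a : ℕ) : ℕ := (univ.filter (fun x => l x = {c, a})).card

lemma cl_comm {M : ℕ} (l : Fin M → Finset ℕ) (c a : ℕ) : cl l c a = cl l a c := by
  unfold cl; rw [pair_comm]

lemma cl_self {M : ℕ} (l : Fin M → Finset ℕ) (hl : ∀ x, (l x).card = 2) (c : ℕ) : cl l c c = 0 := by
  unfold cl
  rw [card_eq_zero, filter_eq_empty_iff]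
  intro x _ hx
  have := hl x
  rw [hx] at this
  simp at this

lemma cl_three {M : ℕ} (l : Fin M → Finset ℕ) {x y c : ℕ} (hxy : x ≠ y)
    (hxc : x ≠ c) (hyc : y ≠ c) : cl l x y + cl l x c + cl l y c ≤ M := by
  unfold cl
  apply three_filter
  · intro v h1 h2
    rw [h1] at h2
    have : y ∈ ({x, c} : Finset ℕ) := by rw [← h2]; simp
    simp only [mem_insert, mem_singleton] at this
    rcases this with h | h
    · exact hxy h.symm
    · exact hyc h
  · intro v h1 h2
    rw [h1] at h2
    have : x ∈ ({y, c} : Finset ℕ) := by rw [← h2]; simp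
    simp only [mem_insert, mem_singleton] at this
    rcases this with h | h
    · exact hxy h
    · exact hxc h
  · intro v h1 h2
    rw [h1] at h2
    have : x ∈ ({y, c} : Finset ℕ) := by rw [← h2]; simp
    simp only [mem_insert, mem_singleton] at this
    rcases this with h | h
    · exact hxy h
    · exact hxc h

lemma cl_six {M : ℕ} (l : Fin M → Finset ℕ) (hl : ∀ x, (l x).card = 2) (u : Fin 2 → ℕ)
    (v : Fin 3 → ℕ) (hv : Function.Injective v)
    (hu : ∀ a b : Fin 3, u 0 = v a → u 1 = v b → False) (hu01 : u 0 ≠ u 1) :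
    ∑ o : Fin 2, ∑ a : Fin 3, cl l (u o) (v a) ≤ M := by
  classical
  have h1 : ∑ o : Fin 2, ∑ a : Fin 3, cl l (u o) (v a) =
      ∑ p : Fin 2 × Fin 3, (univ.filter (fun x => l x = {u p.1, v p.2})).card := by
    rw [Fintype.sum_prod_type]; rfl
  have h2 : ∑ p : Fin 2 × Fin 3, (univ.filter (fun x => l x = {u p.1, v p.2})).card =
      ∑ x : Fin M, (univ.filter (fun p : Fin 2 × Fin 3 => l x = {u p.1, v p.2})).card := by
    simp_rw [card_filter]
    exact sum_comm
  rw [h1, h2]
  have h3 : ∀ x : Fin M, (univ.filter (fun p : Fin 2 × Fin 3 => l x = {u p.1, v p.2})).card ≤ 1 := by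
    intro x
    rw [card_le_one]
    have hne : ∀ p : Fin 2 × Fin 3, l x = {u p.1, v p.2} → u p.1 ≠ v p.2 := by
      intro p hp he
      have := hl x
      rw [hp, he] at this
      simp at this
    have hcross : ∀ (a b : Fin 3), l x = {u 0, v a} → l x = {u 1, v b} → False := by
      intro a b ha hb
      have hab : ({u 0, v a} : Finset ℕ) = {u 1, v b} := ha.symm.trans hb
      have m0 : u 0 ∈ ({u 1, v b} : Finset ℕ) := by rw [← hab]; simp
      have m1 : u 1 ∈ ({u 0, v a} : Finset ℕ) := by rw [hab]; simp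
      simp only [mem_insert, mem_singleton] at m0 m1
      rcases m0 with m0 | m0
      · exact hu01 m0
      · rcases m1 with m1 | m1
        · exact hu01 m1.symm
        · exact hu b a m0 m1
    rintro ⟨o, a⟩ hp ⟨o', a'⟩ hq
    have hp' : l x = {u o, v a} := (mem_filter.1 hp).2
    have hq' : l x = {u o', v a'} := (mem_filter.1 hq).2
    have hn := hne (o, a) hp'
    have hn' := hne (o', a') hq'
    simp only at hn hn'
    by_cases ho : o = o'
    · subst ho
      have hab : ({u o, v a} : Finset ℕ) = {u o, v a'} := hp'.symm.trans hq'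
      have m0 : v a ∈ ({u o, v a'} : Finset ℕ) := by rw [← hab]; simp
      simp only [mem_insert, mem_singleton] at m0
      rcases m0 with m0 | m0
      · exact absurd m0.symm hn
      · rw [hv m0]
    · exfalso
      have : (o = 0 ∧ o' = 1) ∨ (o = 1 ∧ o' = 0) := by omega
      rcases this with ⟨rfl, rfl⟩ | ⟨rfl, rfl⟩
      · exact hcross a a' hp' hq'
      · exact hcross a' a hq' hp'
  calc _ ≤ ∑ _x : Fin M, 1 := sum_le_sum fun x _ => h3 x
    _ = M := by simp

lemma star_type {M : ℕ} (l : Fin M → Finset ℕ) (hl : ∀ x, (l x).card = 2) (P : Finset ℕ)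
    (hP : P.card = 2) (c0 c1 c2 : ℕ) (h01 : c0 ≠ c1) (h02 : c0 ≠ c2) (h12 : c1 ≠ c2) :
    ∃ (cen : ℕ → ℕ) (ty : ℕ), ty < 4 ∧ (∀ o, cen o ∈ P) ∧
      TyOK ty M (fun o a => cl l (cen o) (col c0 c1 c2 a)) := by
  classical
  obtain ⟨p, q, hpq, rfl⟩ := card_eq_two.1 hP
  have hmk : ∀ x y : ℕ, ({x, y} : Finset ℕ) = {p, q} → ∀ o : ℕ, (if o = 0 then x else y) ∈
      ({p, q} : Finset ℕ) := by
    intro x y hxy o
    rw [← hxy]
    by_cases ho : o = 0
    · simp [ho]
    · simp [ho]
  have ty1 : ({c0, c1} : Finset ℕ) = {p, q} → ∃ (cen : ℕ → ℕ) (ty : ℕ), ty < 4 ∧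
      (∀ o, cen o ∈ ({p, q} : Finset ℕ)) ∧
      TyOK ty M (fun o a => cl l (cen o) (col c0 c1 c2 a)) := by
    intro h
    refine ⟨fun o => if o = 0 then c0 else c1, 1, by norm_num, hmk _ _ h, ?_, ?_, ?_, ?_⟩
    · intro h; omega
    · intro _
      simp only [col]
      refine ⟨by simpa using cl_self l hl c0, by simpa using cl_self l hl c1,
        by simpa using cl_comm l c0 c1, ?_⟩
      simpa using cl_three l h01 h02 h12
    · intro h; omega
    · intro h; omega
  have ty2 : ({c0, c2} : Finset ℕ) = {p, q} → ∃ (cen : ℕ → ℕ) (ty : ℕ), ty < 4 ∧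
      (∀ o, cen o ∈ ({p, q} : Finset ℕ)) ∧
      TyOK ty M (fun o a => cl l (cen o) (col c0 c1 c2 a)) := by
    intro h
    refine ⟨fun o => if o = 0 then c0 else c2, 2, by norm_num, hmk _ _ h, ?_, ?_, ?_, ?_⟩
    · intro h; omega
    · intro h; omega
    · intro _
      simp only [col]
      refine ⟨by simpa using cl_self l hl c0, by simpa using cl_self l hl c2,
        by simpa using cl_comm l c0 c2, ?_⟩
      have := cl_three l h02 h01 h12.symm
      simpa using this
    · intro h; omega
  have ty3 : ({c1, c2} : Finset ℕ) = {p, q} → ∃ (cen : ℕ → ℕ) (ty : ℕ), ty < 4 ∧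
      (∀ o, cen o ∈ ({p, q} : Finset ℕ)) ∧
      TyOK ty M (fun o a => cl l (cen o) (col c0 c1 c2 a)) := by
    intro h
    refine ⟨fun o => if o = 0 then c1 else c2, 3, by norm_num, hmk _ _ h, ?_, ?_, ?_, ?_⟩
    · intro h; omega
    · intro h; omega
    · intro h; omega
    · intro _
      simp only [col]
      refine ⟨by simpa using cl_self l hl c1, by simpa using cl_self l hl c2,
        by simpa using cl_comm l c1 c2, ?_⟩
      have := cl_three l h12 h01.symm h02.symm
      simpa using this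
  by_cases hboth : (p = c0 ∨ p = c1 ∨ p = c2) ∧ (q = c0 ∨ q = c1 ∨ q = c2)
  · obtain ⟨hp, hq⟩ := hboth
    rcases hp with rfl | rfl | rfl <;> rcases hq with rfl | rfl | rfl
    · exact absurd rfl hpq
    · exact ty1 rfl
    · exact ty2 rfl
    · exact ty1 (pair_comm _ _)
    · exact absurd rfl hpq
    · exact ty3 rfl
    · exact ty2 (pair_comm _ _)
    · exact ty3 (pair_comm _ _)
    · exact absurd rfl hpq
  · refine ⟨fun o => if o = 0 then p else q, 0, by norm_num, hmk _ _ rfl, ?_, ?_, ?_, ?_⟩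
    · intro _
      have h6 := cl_six l hl ![p, q] ![c0, c1, c2] (by
        intro a b hab
        fin_cases a <;> fin_cases b <;> simp_all) (by
        intro a b ha hb
        apply hboth
        fin_cases a <;> fin_cases b <;> simp_all) (by simpa using hpq)
      simp only [Fin.sum_univ_two, Fin.sum_univ_three] at h6
      simp only [col]
      simp at h6 ⊢
      omega
    · intro h; omega
    · intro h; omega
    · intro h; omega

lemma sigma_count {n : ℕ} (m : Fin n → ℕ) (f : (Σ i : Fin n, Option (Fin (m i))) → ℕ) (c : ℕ) :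
    (univ.filter (fun v => f v = c)).card =
      ∑ i, (univ.filter (fun x : Option (Fin (m i)) => f ⟨i, x⟩ = c)).card := by
  classical
  simp only [card_filter]
  exact Fintype.sum_sigma _

lemma opt_count {M : ℕ} (p : Option (Fin M) → Prop) [DecidablePred p] :
    (univ.filter p).card = (if p none then 1 else 0) +
      (univ.filter (fun x : Fin M => p (some x))).card := by
  classical
  simp only [card_filter]
  exact Fintype.sum_option _

/-- reduced lists -/
def red {n : ℕ} {m : Fin n → ℕ} (L : ∀ i : Fin n, Option (Fin (m i)) → Finset ℕ) (z : Fin n → ℕ) :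
    (Σ i : Fin n, Option (Fin (m i))) → Finset ℕ
  | ⟨i, none⟩ => {z i}
  | ⟨i, some x⟩ => L i (some x) \ {z i}

lemma red_ne {n : ℕ} {m : Fin n → ℕ} (L : ∀ i : Fin n, Option (Fin (m i)) → Finset ℕ)
    (hL : ∀ i x, (L i x).card = 2) (z : Fin n → ℕ) (v : Σ i : Fin n, Option (Fin (m i))) :
    (red L z v).Nonempty := by
  obtain ⟨i, _ | x⟩ := v
  · exact ⟨z i, mem_singleton_self _⟩
  · have h := le_card_sdiff {z i} (L i (some x))
    rw [hL, card_singleton] at h
    exact card_pos.1 (by simpa [red] using (by omega : 0 < (L i (some x) \ {z i}).card))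

lemma sdiff_eq_single {l : Finset ℕ} (hl : l.card = 2) {z a : ℕ} (h : l \ {z} = {a}) :
    l = {z, a} := by
  have hz : z ∈ l := by
    by_contra hz
    rw [sdiff_singleton_eq_erase, erase_eq_of_notMem hz] at h
    rw [h] at hl
    simp at hl
  rw [sdiff_singleton_eq_erase] at h
  rw [← insert_erase hz, h]

lemma forced_le {n : ℕ} {m : Fin n → ℕ} (L : ∀ i : Fin n, Option (Fin (m i)) → Finset ℕ)
    (hL : ∀ i x, (L i x).card = 2) (z : Fin n → ℕ) (a : ℕ) :
    (univ.filter (fun v => red L z v = {a})).card ≤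
      ∑ i, ((if z i = a then 1 else 0) + cl (fun x => L i (some x)) (z i) a) := by
  classical
  have h1 : (univ.filter (fun v => red L z v = {a})).card =
      ∑ i, (univ.filter (fun x : Option (Fin (m i)) => red L z ⟨i, x⟩ = {a})).card := by
    simp only [card_filter]
    exact Fintype.sum_sigma _
  rw [h1]
  apply sum_le_sum
  intro i _
  rw [opt_count]
  have e1 : (if red L z ⟨i, none⟩ = {a} then 1 else 0) = (if z i = a then 1 else 0) := by
    simp [red]
  rw [e1]
  gcongr
  unfold cl
  apply card_le_card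
  intro x hx
  rw [mem_filter] at hx ⊢
  exact ⟨hx.1, sdiff_eq_single (hL i (some x)) hx.2⟩

lemma cl_le {M : ℕ} (l : Fin M → Finset ℕ) (c a : ℕ) : cl l c a ≤ M := by
  unfold cl
  exact (card_le_univ _).trans (by simp)

lemma cl_le_mem {M : ℕ} (l : Fin M → Finset ℕ) (c a : ℕ) :
    cl l c a ≤ (univ.filter (fun x => a ∈ l x)).card := by
  unfold cl
  apply card_le_card
  intro x hx
  rw [mem_filter] at hx ⊢
  refine ⟨hx.1, ?_⟩
  rw [hx.2]; simp

lemma TyOK_cast {ty M M' : ℕ} {f : ℕ → ℕ → ℕ} (h : TyOK ty M f) (hM : M = M') : TyOK ty M' f := by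
  subst hM; exact h

theorem five (t : ℕ) (ht : 1 ≤ t) (m : Fin 5 → ℕ) (hm0 : m 0 = 2 * t) (hm1 : m 1 = 2 * t)
    (hm2 : m 2 = 2 * t) (hm3 : m 3 = 3 * t) (hm4 : m 4 = 3 * t)
    (L : ∀ i : Fin 5, Option (Fin (m i)) → Finset ℕ) (hL : ∀ i x, (L i x).card = 2) :
    ∃ g : ∀ i : Fin 5, Option (Fin (m i)) → ℕ, (∀ i x, g i x ∈ L i x) ∧
      (∀ i x, g i (some x) ≠ g i none) ∧
      ∀ c, ∑ i, (univ.filter (fun x => g i x = c)).card ≤ 6 * t + 3 := by
  classical
  -- it is enough to find good centre colours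
  suffices hmain : ∃ z : Fin 5 → ℕ, (∀ i, z i ∈ L i none) ∧
      ∀ a, ∑ i, ((if z i = a then 1 else 0) + cl (fun x => L i (some x)) (z i) a) ≤ 6 * t + 3 by
    obtain ⟨z, hz, hza⟩ := hmain
    have hV : Fintype.card (Σ i : Fin 5, Option (Fin (m i))) ≤ 2 * (6 * t + 3) := by
      rw [Fintype.card_sigma]
      simp only [Fintype.card_option, Fintype.card_fin, Fin.sum_univ_five]
      omega
    obtain ⟨f, hf, hfa⟩ := balance (red L z) (red_ne L hL z) (6 * t + 3) hV
      (fun a => (forced_le L hL z a).trans (hza a))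
    refine ⟨fun i x => f ⟨i, x⟩, ?_, ?_, ?_⟩
    · intro i x
      have h := hf ⟨i, x⟩
      rcases x with _ | x
      · have h' : f ⟨i, none⟩ = z i := mem_singleton.1 h
        show f ⟨i, none⟩ ∈ L i none
        rw [h']; exact hz i
      · exact (mem_sdiff.1 h).1
    · intro i x
      have h := hf ⟨i, some x⟩
      have h' : f ⟨i, none⟩ = z i := mem_singleton.1 (hf ⟨i, none⟩)
      have h2 := (mem_sdiff.1 h).2
      rw [mem_singleton] at h2
      show f ⟨i, some x⟩ ≠ f ⟨i, none⟩
      rw [h']; exact h2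
    · intro c
      rw [← sigma_count m f c]
      exact hfa c
  by_contra hno
  push Not at hno
  -- `a` is dangerous if it occurs often
  have hbad : ∀ z : Fin 5 → ℕ, (∀ i, z i ∈ L i none) →
      ∃ a, 6 * t + 1 ≤ ∑ i, cl (fun x => L i (some x)) (z i) a := by
    intro z hz
    obtain ⟨a, ha⟩ := hno z hz
    refine ⟨a, ?_⟩
    have hF : ∀ i, cl (fun x => L i (some x)) (z i) a ≤ m i ∧
        (z i = a → cl (fun x => L i (some x)) (z i) a = 0) := by
      intro i
      refine ⟨cl_le _ _ _, ?_⟩
      rintro rfl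
      exact cl_self _ (fun x => hL i (some x)) _
    simp only [Fin.sum_univ_five] at ha ⊢
    have f0 := hF 0
    have f1 := hF 1
    have f2 := hF 2
    have f3 := hF 3
    have f4 := hF 4
    have f0 := And.intro (f0.1.trans_eq hm0) f0.2
    have f1 := And.intro (f1.1.trans_eq hm1) f1.2
    have f2 := And.intro (f2.1.trans_eq hm2) f2.2
    have f3 := And.intro (f3.1.trans_eq hm3) f3.2
    have f4 := And.intro (f4.1.trans_eq hm4) f4.2
    generalize cl (fun x => L 0 (some x)) (z 0) a = F0 at *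
    generalize cl (fun x => L 1 (some x)) (z 1) a = F1 at *
    generalize cl (fun x => L 2 (some x)) (z 2) a = F2 at *
    generalize cl (fun x => L 3 (some x)) (z 3) a = F3 at *
    generalize cl (fun x => L 4 (some x)) (z 4) a = F4 at *
    clear hno hF hm0 hm1 hm2 hm3 hm4 hL
    by_cases h0 : z 0 = a <;> by_cases h1 : z 1 = a <;> by_cases h2 : z 2 = a <;>
      by_cases h3 : z 3 = a <;> by_cases h4 : z 4 = a <;>
      simp only [h0, h1, h2, h3, h4, if_true, if_false, true_imp_iff, false_imp_iff, and_true] at ha f0 f1 f2 f3 f4 ⊢ <;>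
      omega
  set oc : ℕ → ℕ := fun a => ∑ i, (univ.filter (fun x => a ∈ L i (some x))).card with hoc
  set P : Finset ℕ := univ.biUnion (fun i : Fin 5 => univ.biUnion (fun x => L i (some x))) with hP
  set D : Finset ℕ := P.filter (fun a => 6 * t + 1 ≤ oc a) with hD
  have hmemD : ∀ a, 6 * t + 1 ≤ oc a → a ∈ D := by
    intro a ha
    rw [hD, mem_filter]
    refine ⟨?_, ha⟩
    by_contra hP'
    have : oc a = 0 := by
      rw [hoc]
      apply sum_eq_zero
      intro i _
      rw [card_eq_zero, filter_eq_empty_iff]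
      intro x _ hx
      exact hP' (mem_biUnion.2 ⟨i, mem_univ _, mem_biUnion.2 ⟨x, mem_univ _, hx⟩⟩)
    omega
  have hsumoc : ∑ a ∈ P, oc a = 24 * t := by
    have e1 : ∑ a ∈ P, oc a = ∑ i : Fin 5, ∑ x : Fin (m i), (L i (some x)).card := by
      rw [hoc, sum_comm]
      apply sum_congr rfl
      intro i _
      simp only [card_filter]
      rw [sum_comm]
      apply sum_congr rfl
      intro x _
      rw [← card_filter]
      congr 1
      ext a
      rw [mem_filter]
      exact ⟨fun h => h.2, fun h => ⟨mem_biUnion.2 ⟨i, mem_univ _, mem_biUnion.2 ⟨x, mem_univ _, h⟩⟩, h⟩⟩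
    rw [e1]
    simp only [hL, sum_const, card_univ, Fintype.card_fin, smul_eq_mul, Fin.sum_univ_five]
    omega
  have hDcard : D.card ≤ 3 := by
    by_contra hc
    push Not at hc
    have h1 : D.card • (6 * t + 1) ≤ ∑ a ∈ D, oc a :=
      card_nsmul_le_sum _ _ _ (fun a ha => (mem_filter.1 ha).2)
    have h2 : ∑ a ∈ D, oc a ≤ ∑ a ∈ P, oc a :=
      sum_le_sum_of_subset_of_nonneg (filter_subset _ _) (fun _ _ _ => Nat.zero_le _)
    rw [hsumoc] at h2
    rw [smul_eq_mul] at h1
    have h3 : 4 * (6 * t + 1) ≤ D.card * (6 * t + 1) := Nat.mul_le_mul_right _ hc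
    omega
  obtain ⟨E, hDE, hE⟩ := Infinite.exists_superset_card_eq D 3 hDcard
  obtain ⟨c0, c1, c2, h01, h02, h12, rfl⟩ := card_eq_three.1 hE
  have hst := fun i : Fin 5 => star_type (fun x => L i (some x)) (fun x => hL i (some x))
    (L i none) (hL i none) c0 c1 c2 h01 h02 h12
  choose cen ty hty hcen hTy using hst
  have hA : ∀ Z : ℕ, ∃ a, a < 3 ∧
      6 * t + 1 ≤ ∑ i : Fin 5, cl (fun x => L i (some x)) (cen i (bit Z i)) (col c0 c1 c2 a) := by
    intro Z
    obtain ⟨a, ha⟩ := hbad (fun i => cen i (bit Z i)) (fun i => hcen i _)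
    have haD : a ∈ D := by
      apply hmemD
      refine ha.trans ?_
      rw [hoc]
      exact sum_le_sum (fun i _ => cl_le_mem _ _ _)
    have := hDE haD
    simp only [mem_insert, mem_singleton] at this
    rcases this with rfl | rfl | rfl
    · exact ⟨0, by norm_num, by simpa [col] using ha⟩
    · exact ⟨1, by norm_num, by simpa [col] using ha⟩
    · exact ⟨2, by norm_num, by simpa [col] using ha⟩
  choose A hA3 hAl using hA
  let T : ℕ → ℕ := fun i => if h : i < 5 then ty ⟨i, h⟩ else 0
  let F : ℕ → ℕ → ℕ → ℕ := fun i o a => if h : i < 5 then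
    cl (fun x => L ⟨i, h⟩ (some x)) (cen ⟨i, h⟩ o) (col c0 c1 c2 a) else 0
  have hT4 : ∀ i, T i < 4 := by
    intro i
    by_cases h : i < 5
    · simp only [T, h, dif_pos]; exact hty _
    · simp only [T, h, dif_neg, not_false_eq_true]; norm_num
  refine game t T hT4 F ?_ ?_ ?_ ?_ ?_ A (fun z _ => hA3 z) ?_
  · exact TyOK_cast (hTy 0) hm0
  · exact TyOK_cast (hTy 1) hm1
  · exact TyOK_cast (hTy 2) hm2
  · exact TyOK_cast (hTy 3) hm3
  · exact TyOK_cast (hTy 4) hm4
  · intro Z _
    have := hAl Z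
    rw [Fin.sum_univ_five] at this
    exact this

end Pool.Agent.R62.Star
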