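import Mathlib

/-!
# Equitably 2-choosable unions of stars: finiteness for at most four stars
-/

namespace Pool.Agent.R62.Star

open Finset

/-- the union of the stars with `m i` leaves is equitably 2-choosable (curried form) -/
def Good {n : ℕ} (m : Fin n → ℕ) : Prop :=
  ∀ L : (i : Fin n) → Option (Fin (m i)) → Finset ℕ, (∀ i x, (L i x).card = 2) →
    ∃ g : (i : Fin n) → Option (Fin (m i)) → ℕ, (∀ i x, g i x ∈ L i x) ∧
      (∀ i x, g i (some x) ≠ g i none) ∧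
      ∀ c, ∑ i, (univ.filter (fun x => g i x = c)).card ≤ (∑ i, (m i + 1) + 1) / 2

lemma opt_count' {M : ℕ} (p : Option (Fin M) → Prop) [DecidablePred p] :
    (univ.filter p).card = (if p none then 1 else 0) +
      (univ.filter (fun x : Fin M => p (some x))).card := by
  classical
  simp only [card_filter]
  exact Fintype.sum_option _

/-- a star all of whose lists are `{0, 1}` -/
lemma plain {M : ℕ} (g : Option (Fin M) → ℕ) (hg : ∀ x, g x ∈ ({0, 1} : Finset ℕ))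
    (hp : ∀ x, g (some x) ≠ g none) :
    ∃ e : ℤ, (e = 1 ∨ e = -1) ∧
      ((univ.filter (fun x => g x = 1)).card : ℤ) - ((univ.filter (fun x => g x = 0)).card : ℤ) =
        e * ((M : ℤ) - 1) ∧
      ((univ.filter (fun x => g x = 1)).card : ℤ) + ((univ.filter (fun x => g x = 0)).card : ℤ) =
        (M : ℤ) + 1 := by
  classical
  have h01 : ∀ x, g x = 0 ∨ g x = 1 := by
    intro x
    have := hg x
    simpa using this
  rw [opt_count' (fun x => g x = 1), opt_count' (fun x => g x = 0)]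
  rcases h01 none with h | h
  · have h1 : ∀ x, g (some x) = 1 := fun x => by
      rcases h01 (some x) with h' | h'
      · exact absurd (h'.trans h.symm) (hp x)
      · exact h'
    refine ⟨1, Or.inl rfl, ?_, ?_⟩ <;> simp [h, h1]
  · have h1 : ∀ x, g (some x) = 0 := fun x => by
      rcases h01 (some x) with h' | h'
      · exact h'
      · exact absurd (h'.trans h.symm) (hp x)
    refine ⟨-1, Or.inr rfl, ?_, ?_⟩
    · simp [h, h1]
    · simp [h, h1]; ring

/-- residues modulo four -/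
lemma count_mod {M : ℕ} (r : ℕ) (hr : r < 4) (p : Option (Fin M) → Prop) [DecidablePred p]
    (hp : ∀ x : Fin M, x.val % 4 = r → p (some x)) : M / 4 ≤ (univ.filter p).card := by
  classical
  have h : (univ : Finset (Fin (M / 4))).card ≤ (univ.filter p).card := by
    apply card_le_card_of_injOn (fun j : Fin (M / 4) => (some (⟨4 * j.val + r, by
      have := j.2; omega⟩ : Fin M)))
    · intro j _
      simp only [coe_filter, mem_univ, true_and, Set.mem_ofPred_eq]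
      apply hp
      show (4 * j.val + r) % 4 = r
      omega
    · intro j _ j' _ hjj
      simp only [Option.some.injEq, Fin.mk.injEq] at hjj
      ext
      omega
  simpa using h

/-- the special star -/
def spec {M : ℕ} : Option (Fin M) → Finset ℕ
  | none => {2, 3}
  | some x => if x.val % 4 = 0 then {2, 0} else if x.val % 4 = 1 then {2, 1} else
      if x.val % 4 = 2 then {3, 0} else {3, 1}

lemma spec_card {M : ℕ} (x : Option (Fin M)) : (spec x).card = 2 := by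
  rcases x with _ | x
  · rfl
  · simp only [spec]
    split_ifs <;> rfl

lemma spec_count {M : ℕ} (g : Option (Fin M) → ℕ) (hg : ∀ x, g x ∈ spec x)
    (hp : ∀ x, g (some x) ≠ g none) :
    M / 4 ≤ (univ.filter (fun x => g x = 0)).card ∧
    M / 4 ≤ (univ.filter (fun x => g x = 1)).card := by
  have hn : g none = 2 ∨ g none = 3 := by
    have := hg none
    simpa [spec] using this
  rcases hn with h | h
  · constructor
    · apply count_mod 0 (by norm_num)
      intro x hx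
      have h1 := hg (some x)
      simp only [spec, hx, if_true, mem_insert, mem_singleton] at h1
      rcases h1 with h1 | h1
      · exact absurd (h1.trans h.symm) (hp x)
      · exact h1
    · apply count_mod 1 (by norm_num)
      intro x hx
      have h1 := hg (some x)
      simp only [spec, hx] at h1
      simp at h1
      rcases h1 with h1 | h1
      · exact absurd (h1.trans h.symm) (hp x)
      · exact h1
  · constructor
    · apply count_mod 2 (by norm_num)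
      intro x hx
      have h1 := hg (some x)
      simp only [spec, hx] at h1
      simp at h1
      rcases h1 with h1 | h1
      · exact absurd (h1.trans h.symm) (hp x)
      · exact h1
    · apply count_mod 3 (by norm_num)
      intro x hx
      have h1 := hg (some x)
      simp only [spec, hx] at h1
      simp at h1
      rcases h1 with h1 | h1
      · exact absurd (h1.trans h.symm) (hp x)
      · exact h1

lemma condA {n : ℕ} {m : Fin n → ℕ} (h : Good m) :
    ∃ e : Fin n → ℤ, (∀ i, e i = 1 ∨ e i = -1) ∧ |∑ i, e i * ((m i : ℤ) - 1)| ≤ 1 := by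
  classical
  obtain ⟨g, hg, hp, hc⟩ := h (fun _ _ => {0, 1}) (fun _ _ => rfl)
  choose e he h1 h2 using fun i => plain (g i) (hg i) (hp i)
  refine ⟨e, he, ?_⟩
  have c0 := hc 0
  have c1 := hc 1
  have s1 := sum_congr rfl (fun i (_ : i ∈ (univ : Finset (Fin n))) => h1 i)
  have s2 := sum_congr rfl (fun i (_ : i ∈ (univ : Finset (Fin n))) => h2 i)
  rw [sum_sub_distrib] at s1
  rw [sum_add_distrib] at s2
  rw [← s1]
  have e3 : ∑ i, ((m i : ℤ) + 1) = ((∑ i, (m i + 1) : ℕ) : ℤ) := by push_cast; rfl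
  rw [e3] at s2
  set N := ∑ i, (m i + 1) with hN
  have a1 : ∑ i, ((univ.filter (fun x => g i x = 1)).card : ℤ) =
    ((∑ i, (univ.filter (fun x => g i x = 1)).card : ℕ) : ℤ) := by push_cast; rfl
  have a0 : ∑ i, ((univ.filter (fun x => g i x = 0)).card : ℤ) =
    ((∑ i, (univ.filter (fun x => g i x = 0)).card : ℕ) : ℤ) := by push_cast; rfl
  rw [a1, a0] at s2 ⊢
  rw [abs_le]
  constructor <;> omega

lemma condB {n : ℕ} {m : Fin n → ℕ} (h : Good m) (k : Fin n) :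
    ∃ e : Fin n → ℤ, e k = 0 ∧ (∀ i, i ≠ k → e i = 1 ∨ e i = -1) ∧
      2 * |∑ i, e i * ((m i : ℤ) - 1)| ≤ (m k : ℤ) + 7 := by
  classical
  obtain ⟨g, hg, hp, hc⟩ := h (fun i x => if i = k then spec x else {0, 1}) (by
    intro i x
    by_cases hi : i = k
    · simp only [hi, if_true]; exact spec_card _
    · simp only [hi, if_false]; rfl)
  have hpl : ∀ i, ∃ e : ℤ, (i = k → e = 0) ∧ (i ≠ k → (e = 1 ∨ e = -1) ∧
      ((univ.filter (fun x => g i x = 1)).card : ℤ) - ((univ.filter (fun x => g i x = 0)).card : ℤ) =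
        e * ((m i : ℤ) - 1) ∧
      ((univ.filter (fun x => g i x = 1)).card : ℤ) + ((univ.filter (fun x => g i x = 0)).card : ℤ) =
        (m i : ℤ) + 1) := by
    intro i
    by_cases hi : i = k
    · exact ⟨0, fun _ => rfl, fun h => absurd hi h⟩
    · obtain ⟨e, he⟩ := plain (g i) (fun x => by
        have := hg i x
        simp only [hi, if_false] at this
        exact this) (hp i)
      exact ⟨e, fun h => absurd h hi, fun _ => he⟩
  choose e he1 he2 using hpl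
  refine ⟨e, he1 k rfl, fun i hi => (he2 i hi).1, ?_⟩
  obtain ⟨q0, q1⟩ := spec_count (g k) (fun x => by
    have := hg k x
    simp only [if_true] at this
    exact this) (hp k)
  have c0 := hc 0
  have c1 := hc 1
  have hk : k ∈ (univ : Finset (Fin n)) := mem_univ _
  rw [← add_sum_erase _ _ hk] at c0 c1
  rw [← add_sum_erase _ (fun i => e i * ((m i : ℤ) - 1)) hk, he1 k rfl, zero_mul, zero_add]
  have s1 := sum_congr rfl (fun i (hi : i ∈ (univ : Finset (Fin n)).erase k) =>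
    (he2 i (ne_of_mem_erase hi)).2.1)
  have s2 := sum_congr rfl (fun i (hi : i ∈ (univ : Finset (Fin n)).erase k) =>
    (he2 i (ne_of_mem_erase hi)).2.2)
  rw [sum_sub_distrib] at s1
  rw [sum_add_distrib] at s2
  rw [← s1]
  have e3 : ∑ i ∈ univ.erase k, ((m i : ℤ) + 1) = ((∑ i ∈ univ.erase k, (m i + 1) : ℕ) : ℤ) := by
    push_cast; rfl
  have e4 : (m k + 1) + ∑ i ∈ univ.erase k, (m i + 1) = ∑ i, (m i + 1) :=
    add_sum_erase _ (fun i => m i + 1) hk
  rw [e3] at s2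
  have a1 : ∑ i ∈ univ.erase k, ((univ.filter (fun x => g i x = 1)).card : ℤ) =
    ((∑ i ∈ univ.erase k, (univ.filter (fun x => g i x = 1)).card : ℕ) : ℤ) := by push_cast; rfl
  have a0 : ∑ i ∈ univ.erase k, ((univ.filter (fun x => g i x = 0)).card : ℤ) =
    ((∑ i ∈ univ.erase k, (univ.filter (fun x => g i x = 0)).card : ℕ) : ℤ) := by push_cast; rfl
  rw [a1, a0] at s2 ⊢
  rw [← e4] at c0 c1
  have hk4 : (m k : ℤ) - 3 ≤ 4 * ((m k / 4 : ℕ) : ℤ) := by omega
  have habs : ∀ z y : ℤ, 2 * z ≤ y → -(2 * z) ≤ y → 2 * |z| ≤ y := by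
    intro z y h1 h2
    rcases abs_cases z with ⟨h, _⟩ | ⟨h, _⟩ <;> rw [h] <;> linarith
  apply habs <;> omega

/-- sorted form, four stars -/
lemma sorted4 (b0 b1 b2 b3 : ℤ) (h0 : 0 ≤ b0) (h1 : b0 ≤ b1) (h2 : b1 ≤ b2) (h3 : b2 ≤ b3)
    (hA : ∃ e : Fin 4 → ℤ, (∀ i, e i = 1 ∨ e i = -1) ∧
      |e 0 * b0 + e 1 * b1 + e 2 * b2 + e 3 * b3| ≤ 1)
    (hB0 : ∃ e : Fin 4 → ℤ, e 0 = 0 ∧ (∀ i, i ≠ 0 → e i = 1 ∨ e i = -1) ∧
      2 * |e 0 * b0 + e 1 * b1 + e 2 * b2 + e 3 * b3| ≤ b0 + 8)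
    (hB1 : ∃ e : Fin 4 → ℤ, e 1 = 0 ∧ (∀ i, i ≠ 1 → e i = 1 ∨ e i = -1) ∧
      2 * |e 0 * b0 + e 1 * b1 + e 2 * b2 + e 3 * b3| ≤ b1 + 8)
    (hB2 : ∃ e : Fin 4 → ℤ, e 2 = 0 ∧ (∀ i, i ≠ 2 → e i = 1 ∨ e i = -1) ∧
      2 * |e 0 * b0 + e 1 * b1 + e 2 * b2 + e 3 * b3| ≤ b2 + 8) : b3 ≤ 200 := by
  have habs : ∀ z y : ℤ, 2 * |z| ≤ y → 2 * z ≤ y ∧ -(2 * z) ≤ y := by
    intro z y h
    have := le_abs_self z
    have := neg_le_abs z
    constructor <;> linarith
  have k0 : 2 * (b3 - b2 - b1) ≤ b0 + 8 ∧ -(2 * (b3 - b2 - b1)) ≤ b0 + 8 := by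
    obtain ⟨e, he0, he, hs⟩ := hB0
    rw [he0] at hs
    obtain ⟨s1, s2⟩ := habs _ _ hs
    rcases he 1 (by decide) with e1 | e1 <;> rcases he 2 (by decide) with e2 | e2 <;>
      rcases he 3 (by decide) with e3 | e3 <;> rw [e1, e2, e3] at s1 s2 <;>
      constructor <;> linarith
  have k1 : 2 * (b3 - b2 - b0) ≤ b1 + 8 ∧ -(2 * (b3 - b2 - b0)) ≤ b1 + 8 := by
    obtain ⟨e, he0, he, hs⟩ := hB1
    rw [he0] at hs
    obtain ⟨s1, s2⟩ := habs _ _ hs
    rcases he 0 (by decide) with e1 | e1 <;> rcases he 2 (by decide) with e2 | e2 <;>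
      rcases he 3 (by decide) with e3 | e3 <;> rw [e1, e2, e3] at s1 s2 <;>
      constructor <;> linarith
  have k2 : 2 * (b3 - b1 - b0) ≤ b2 + 8 ∧ -(2 * (b3 - b1 - b0)) ≤ b2 + 8 := by
    obtain ⟨e, he0, he, hs⟩ := hB2
    rw [he0] at hs
    obtain ⟨s1, s2⟩ := habs _ _ hs
    rcases he 0 (by decide) with e1 | e1 <;> rcases he 1 (by decide) with e2 | e2 <;>
      rcases he 3 (by decide) with e3 | e3 <;> rw [e1, e2, e3] at s1 s2 <;>
      constructor <;> linarith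
  obtain ⟨e, he, hs⟩ := hA
  obtain ⟨s1, s2⟩ := abs_le.1 hs
  obtain ⟨k01, k02⟩ := k0
  obtain ⟨k11, k12⟩ := k1
  obtain ⟨k21, k22⟩ := k2
  rcases he 0 with e0 | e0 <;> rcases he 1 with e1 | e1 <;> rcases he 2 with e2 | e2 <;>
    rcases he 3 with e3 | e3 <;> rw [e0, e1, e2, e3] at s1 s2 <;> linarith

/-- sorted form, three stars -/
lemma sorted3 (b0 b1 b2 : ℤ) (h0 : 0 ≤ b0) (h1 : b0 ≤ b1) (h2 : b1 ≤ b2)
    (hA : ∃ e : Fin 3 → ℤ, (∀ i, e i = 1 ∨ e i = -1) ∧
      |e 0 * b0 + e 1 * b1 + e 2 * b2| ≤ 1)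
    (hB0 : ∃ e : Fin 3 → ℤ, e 0 = 0 ∧ (∀ i, i ≠ 0 → e i = 1 ∨ e i = -1) ∧
      2 * |e 0 * b0 + e 1 * b1 + e 2 * b2| ≤ b0 + 8)
    (hB1 : ∃ e : Fin 3 → ℤ, e 1 = 0 ∧ (∀ i, i ≠ 1 → e i = 1 ∨ e i = -1) ∧
      2 * |e 0 * b0 + e 1 * b1 + e 2 * b2| ≤ b1 + 8) : b2 ≤ 200 := by
  have habs : ∀ z y : ℤ, 2 * |z| ≤ y → 2 * z ≤ y ∧ -(2 * z) ≤ y := by
    intro z y h
    have := le_abs_self z
    have := neg_le_abs z
    constructor <;> linarith
  have k0 : 2 * (b2 - b1) ≤ b0 + 8 := by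
    obtain ⟨e, he0, he, hs⟩ := hB0
    rw [he0] at hs
    obtain ⟨s1, s2⟩ := habs _ _ hs
    rcases he 1 (by decide) with e1 | e1 <;> rcases he 2 (by decide) with e2 | e2 <;>
      rw [e1, e2] at s1 s2 <;> linarith
  have k1 : 2 * (b2 - b0) ≤ b1 + 8 := by
    obtain ⟨e, he0, he, hs⟩ := hB1
    rw [he0] at hs
    obtain ⟨s1, s2⟩ := habs _ _ hs
    rcases he 0 (by decide) with e1 | e1 <;> rcases he 2 (by decide) with e2 | e2 <;>
      rw [e1, e2] at s1 s2 <;> linarith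
  obtain ⟨e, he, hs⟩ := hA
  obtain ⟨s1, s2⟩ := abs_le.1 hs
  rcases he 0 with e0 | e0 <;> rcases he 1 with e1 | e1 <;> rcases he 2 with e2 | e2 <;>
    rw [e0, e1, e2] at s1 s2 <;> linarith

/-- sorted form, two stars -/
lemma sorted2 (b0 b1 : ℤ) (h0 : 0 ≤ b0) (h1 : b0 ≤ b1)
    (hB0 : ∃ e : Fin 2 → ℤ, e 0 = 0 ∧ (∀ i, i ≠ 0 → e i = 1 ∨ e i = -1) ∧
      2 * |e 0 * b0 + e 1 * b1| ≤ b0 + 8) : b1 ≤ 200 := by
  have habs : ∀ z y : ℤ, 2 * |z| ≤ y → 2 * z ≤ y ∧ -(2 * z) ≤ y := by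
    intro z y h
    have := le_abs_self z
    have := neg_le_abs z
    constructor <;> linarith
  obtain ⟨e, he0, he, hs⟩ := hB0
  rw [he0] at hs
  obtain ⟨s1, s2⟩ := habs _ _ hs
  rcases he 1 (by decide) with e1 | e1 <;> rw [e1] at s1 s2 <;> linarith

lemma permA {n : ℕ} {b : Fin n → ℤ} (σ : Equiv.Perm (Fin n))
    (h : ∃ e : Fin n → ℤ, (∀ i, e i = 1 ∨ e i = -1) ∧ |∑ i, e i * b i| ≤ 1) :
    ∃ e : Fin n → ℤ, (∀ i, e i = 1 ∨ e i = -1) ∧ |∑ i, e i * b (σ i)| ≤ 1 := by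
  obtain ⟨e, he, hs⟩ := h
  refine ⟨fun i => e (σ i), fun i => he _, ?_⟩
  rwa [Equiv.sum_comp σ (fun i => e i * b i)]

lemma permB {n : ℕ} {b : Fin n → ℤ} (σ : Equiv.Perm (Fin n))
    (h : ∀ k, ∃ e : Fin n → ℤ, e k = 0 ∧ (∀ i, i ≠ k → e i = 1 ∨ e i = -1) ∧
      2 * |∑ i, e i * b i| ≤ b k + 8) (k : Fin n) :
    ∃ e : Fin n → ℤ, e k = 0 ∧ (∀ i, i ≠ k → e i = 1 ∨ e i = -1) ∧
      2 * |∑ i, e i * b (σ i)| ≤ b (σ k) + 8 := by
  obtain ⟨e, h0, he, hs⟩ := h (σ k)
  refine ⟨fun i => e (σ i), h0, fun i hi => he _ (fun h => hi (σ.injective h)), ?_⟩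
  rwa [Equiv.sum_comp σ (fun i => e i * b i)]

theorem good_bdd {n : ℕ} (h2 : 2 ≤ n) (h4 : n ≤ 4) (m : Fin n → ℕ) (hm : ∀ i, 1 ≤ m i)
    (h : Good m) (i : Fin n) : m i ≤ 201 := by
  set b : Fin n → ℤ := fun i => (m i : ℤ) - 1 with hb
  set σ := Tuple.sort b with hσ
  have hmon : Monotone (b ∘ σ) := Tuple.monotone_sort b
  have hA := permA σ (condA h)
  have hB := permB (b := b) σ (fun k => by
    obtain ⟨e, x1, x2, x3⟩ := condB h k
    refine ⟨e, x1, x2, ?_⟩
    have : b k + 8 = (m k : ℤ) + 7 := by rw [hb]; ring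
    rw [this]; exact x3)
  have h0 : ∀ j, 0 ≤ b (σ j) := by
    intro j
    have := hm (σ j)
    have h : b (σ j) = (m (σ j) : ℤ) - 1 := rfl
    omega
  have key : ∀ j, b (σ j) ≤ 200 := by
    have hn : n = 2 ∨ n = 3 ∨ n = 4 := by omega
    rcases hn with rfl | rfl | rfl
    · have B0 := hB 0
      simp only [Fin.sum_univ_two] at B0
      have := sorted2 (b (σ 0)) (b (σ 1)) (h0 0) (hmon (by decide)) B0
      intro j
      exact (hmon (Fin.le_last j)).trans this
    · have B0 := hB 0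
      have B1 := hB 1
      simp only [Fin.sum_univ_three] at B0 B1 hA
      have := sorted3 (b (σ 0)) (b (σ 1)) (b (σ 2)) (h0 0) (hmon (by decide)) (hmon (by decide))
        hA B0 B1
      intro j
      exact (hmon (Fin.le_last j)).trans this
    · have B0 := hB 0
      have B1 := hB 1
      have B2 := hB 2
      simp only [Fin.sum_univ_four] at B0 B1 B2 hA
      have := sorted4 (b (σ 0)) (b (σ 1)) (b (σ 2)) (b (σ 3)) (h0 0) (hmon (by decide))
        (hmon (by decide)) (hmon (by decide)) hA B0 B1 B2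
      intro j
      exact (hmon (Fin.le_last j)).trans this
  have hk := key (σ.symm i)
  rw [Equiv.apply_symm_apply] at hk
  have h : b i = (m i : ℤ) - 1 := rfl
  omega

end Pool.Agent.R62.Star
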