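import Pool.Agent.R62.StarFive
import Pool.Agent.R62.StarGood

/-!
# Equitably 2-choosable unions of at least five stars
-/

namespace Pool.Agent.R62.Star

open Finset

/-- a star with one leaf -/
lemma edge (M : ℕ) (hM : M = 1) (L : Option (Fin M) → Finset ℕ) (hL : ∀ x, (L x).card = 2) :
    ∃ g : Option (Fin M) → ℕ, (∀ x, g x ∈ L x) ∧ (∀ x, g (some x) ≠ g none) ∧
      ∀ c, (univ.filter (fun x => g x = c)).card ≤ 1 := by
  classical
  subst hM
  obtain ⟨a, ha⟩ : (L none).Nonempty := card_pos.1 (by rw [hL]; norm_num)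
  obtain ⟨b, hb⟩ : (L (some 0) \ {a}).Nonempty := by
    have h := le_card_sdiff {a} (L (some 0))
    rw [hL, card_singleton] at h
    exact card_pos.1 (by omega)
  rw [mem_sdiff, mem_singleton] at hb
  refine ⟨fun x => x.elim a (fun _ => b), ?_, ?_, ?_⟩
  · rintro (_ | x)
    · exact ha
    · rw [Subsingleton.elim x 0]; exact hb.1
  · intro x
    exact hb.2
  · intro c
    rw [opt_count']
    show (if a = c then 1 else 0) + (univ.filter (fun _ : Fin 1 => b = c)).card ≤ 1
    by_cases h1 : a = c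
    · have : b ≠ c := fun h => hb.2 (h.trans h1.symm)
      simp [h1, this]
    · simp only [h1, if_false, zero_add]
      exact (card_le_univ _).trans (by simp)

/-- the family -/
def fam (k t : ℕ) : Fin (5 + k) → ℕ := fun i => if i.val < 3 then 2 * t else
  if i.val < 5 then 3 * t else 1

lemma fam_sum (k t : ℕ) : ∑ i, fam k t i = 12 * t + k := by
  rw [Fin.sum_univ_add, Fin.sum_univ_five]
  have h : ∀ j : Fin k, fam k t (Fin.natAdd 5 j) = 1 := by
    intro j
    have h1 : ¬ ((Fin.natAdd 5 j).val < 3) := by simp; omega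
    have h2 : ¬ ((Fin.natAdd 5 j).val < 5) := by simp
    simp only [fam, h1, h2, if_false]
  simp only [h, sum_const, card_univ, Fintype.card_fin, smul_eq_mul, mul_one]
  have e0 : fam k t (Fin.castAdd k 0) = 2 * t := rfl
  have e1 : fam k t (Fin.castAdd k 1) = 2 * t := rfl
  have e2 : fam k t (Fin.castAdd k 2) = 2 * t := rfl
  have e3 : fam k t (Fin.castAdd k 3) = 3 * t := rfl
  have e4 : fam k t (Fin.castAdd k 4) = 3 * t := rfl
  rw [e0, e1, e2, e3, e4]
  ring

theorem fam_good (k t : ℕ) (ht : 1 ≤ t) : Good (fam k t) := by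
  classical
  intro L hL
  obtain ⟨g, hg1, hg2, hg3⟩ := five t ht (fun i => fam k t (Fin.castAdd k i)) rfl rfl rfl rfl rfl
    (fun i x => L (Fin.castAdd k i) x) (fun i x => hL _ x)
  have hone : ∀ j : Fin k, fam k t (Fin.natAdd 5 j) = 1 := by
    intro j
    have h1 : ¬ ((Fin.natAdd 5 j).val < 3) := by simp; omega
    have h2 : ¬ ((Fin.natAdd 5 j).val < 5) := by simp
    simp only [fam, h1, h2, if_false]
  choose g' hg1' hg2' hg3' using fun j : Fin k => edge (fam k t (Fin.natAdd 5 j)) (hone j)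
    (fun x => L (Fin.natAdd 5 j) x) (fun x => hL _ x)
  let G : (i : Fin (5 + k)) → Option (Fin (fam k t i)) → ℕ :=
    fun i => Fin.addCases (motive := fun i => Option (Fin (fam k t i)) → ℕ) g g' i
  have Gl : ∀ i, G (Fin.castAdd k i) = g i := fun i => by
    simp only [G, Fin.addCases_left]
  have Gr : ∀ j, G (Fin.natAdd 5 j) = g' j := fun j => by
    simp only [G, Fin.addCases_right]
  refine ⟨G, ?_, ?_, ?_⟩
  · intro i
    refine Fin.addCases (motive := fun i => ∀ x, G i x ∈ L i x) ?_ ?_ i
    · intro i x; rw [Gl]; exact hg1 i x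
    · intro j x; rw [Gr]; exact hg1' j x
  · intro i
    refine Fin.addCases (motive := fun i => ∀ x, G i (some x) ≠ G i none) ?_ ?_ i
    · intro i x; rw [Gl]; exact hg2 i x
    · intro j x; rw [Gr]; exact hg2' j x
  · intro c
    rw [Fin.sum_univ_add]
    have a1 : ∑ i : Fin 5, (univ.filter (fun x => G (Fin.castAdd k i) x = c)).card ≤ 6 * t + 3 := by
      simp only [Gl]; exact hg3 c
    have a2 : ∑ j : Fin k, (univ.filter (fun x => G (Fin.natAdd 5 j) x = c)).card ≤ k := by
      simp only [Gr]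
      calc _ ≤ ∑ _j : Fin k, 1 := sum_le_sum fun j _ => hg3' j c
        _ = k := by simp
    have a3 : ∑ i : Fin (5 + k), (fam k t i + 1) = 12 * t + k + (5 + k) := by
      rw [sum_add_distrib, fam_sum]; simp
    rw [a3]
    omega

end Pool.Agent.R62.Star
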