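import Pool.Agent.R62.StarCheck

/-!
# Soundness of the certificate checker
-/

namespace Pool.Agent.R62.Star

/-- bit `i` of `z` -/
def bit (z i : ℕ) : ℕ := z / 2 ^ i % 2

lemma bit_lt (z i : ℕ) : bit z i < 2 := Nat.mod_lt _ (by norm_num)

/-- the constraints on the numbers of leaves of a star of type `ty` with `M` leaves -/
def TyOK (ty M : ℕ) (f : ℕ → ℕ → ℕ) : Prop :=
  (ty = 0 → f 0 0 + f 0 1 + f 0 2 + f 1 0 + f 1 1 + f 1 2 ≤ M) ∧
  (ty = 1 → f 0 0 = 0 ∧ f 1 1 = 0 ∧ f 0 1 = f 1 0 ∧ f 0 1 + f 0 2 + f 1 2 ≤ M) ∧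
  (ty = 2 → f 0 0 = 0 ∧ f 1 2 = 0 ∧ f 0 2 = f 1 0 ∧ f 0 2 + f 0 1 + f 1 1 ≤ M) ∧
  (ty = 3 → f 0 1 = 0 ∧ f 1 2 = 0 ∧ f 0 2 = f 1 1 ∧ f 0 2 + f 0 0 + f 1 0 ≤ M)

/-- weighted value -/
def val (i : ℕ) (f : ℕ → ℕ → ℕ) : List (ℕ × ℕ × ℕ) → ℕ
  | [] => 0
  | h :: r => h.1 * f (bit h.2.1 i) h.2.2 + val i f r

lemma beq_eq_decide' (a b : ℕ) : Nat.beq a b = decide (a = b) := by
  cases hb : Nat.beq a b with
  | true => simp [Nat.eq_of_beq_eq_true hb]
  | false => simp [Nat.ne_of_beq_eq_false hb]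

lemma cnt_nil (i o a : ℕ) : cnt i o a [] = 0 := rfl

lemma cnt_cons (i o a : ℕ) (h : ℕ × ℕ × ℕ) (r : List (ℕ × ℕ × ℕ)) :
    cnt i o a (h :: r) = (if h.2.2 = a ∧ bit h.2.1 i = o then h.1 else 0) + cnt i o a r := by
  show Nat.add (cond (Nat.beq h.2.2 a)
    (cond (Nat.beq (Nat.mod (Nat.div h.2.1 (Nat.pow 2 i)) 2) o) h.1 0) 0) (cnt i o a r) = _
  have e : Nat.mod (Nat.div h.2.1 (Nat.pow 2 i)) 2 = bit h.2.1 i := rfl
  rw [e]
  have b1 : (Nat.beq h.2.2 a) = decide (h.2.2 = a) := beq_eq_decide' _ _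
  have b2 : (Nat.beq (bit h.2.1 i) o) = decide (bit h.2.1 i = o) := beq_eq_decide' _ _
  rw [b1, b2]
  by_cases h1 : h.2.2 = a <;> by_cases h2 : bit h.2.1 i = o <;> simp [h1, h2]

lemma tot_nil : tot [] = 0 := rfl

lemma tot_cons (h : ℕ × ℕ × ℕ) (r : List (ℕ × ℕ × ℕ)) : tot (h :: r) = h.1 + tot r := rfl

lemma val_eq (i : ℕ) (f : ℕ → ℕ → ℕ) (s : List (ℕ × ℕ × ℕ)) (hs : ∀ h ∈ s, h.2.2 < 3) :
    val i f s = cnt i 0 0 s * f 0 0 + cnt i 0 1 s * f 0 1 + cnt i 0 2 s * f 0 2 +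
      cnt i 1 0 s * f 1 0 + cnt i 1 1 s * f 1 1 + cnt i 1 2 s * f 1 2 := by
  induction s with
  | nil => simp [val, cnt_nil]
  | cons h r ih =>
    rw [val, ih (fun x hx => hs x (List.mem_cons_of_mem _ hx))]
    simp only [cnt_cons]
    have h1 := hs h (List.mem_cons_self)
    have h2 := bit_lt h.2.1 i
    generalize h.2.2 = a at *
    generalize bit h.2.1 i = o at *
    interval_cases a <;> interval_cases o <;> simp <;> ring

lemma kap_sound (ty i k M : ℕ) (f : ℕ → ℕ → ℕ) (s : List (ℕ × ℕ × ℕ))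
    (hs : ∀ h ∈ s, h.2.2 < 3) (hty : ty < 4) (hT : TyOK ty M f) (hk : kap ty i k s = true) :
    val i f s ≤ k * M := by
  rw [val_eq i f s hs]
  obtain ⟨t0, t1, t2, t3⟩ := hT
  unfold kap at hk
  interval_cases ty
  · simp only [Bool.cond_eq_ite, if_true, Nat.ble_eq,
      Bool.if_false_right, Bool.and_eq_true, decide_eq_true_eq, Nat.beq_refl] at hk
    have hM := t0 rfl
    obtain ⟨h1, h2, h3, h4, h5, h6⟩ := hk
    calc _ ≤ k * f 0 0 + k * f 0 1 + k * f 0 2 + k * f 1 0 + k * f 1 1 + k * f 1 2 := by gcongr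
      _ = k * (f 0 0 + f 0 1 + f 0 2 + f 1 0 + f 1 1 + f 1 2) := by ring
      _ ≤ k * M := by gcongr
  · simp at hk
    obtain ⟨e1, e2, e3, hM⟩ := t1 rfl
    obtain ⟨h1, h2, h3⟩ := hk
    rw [e1, e2, ← e3]
    calc _ = (cnt i 0 1 s + cnt i 1 0 s) * f 0 1 + cnt i 0 2 s * f 0 2 + cnt i 1 2 s * f 1 2 := by
          ring
      _ ≤ k * f 0 1 + k * f 0 2 + k * f 1 2 := by gcongr
      _ = k * (f 0 1 + f 0 2 + f 1 2) := by ring
      _ ≤ k * M := by gcongr
  · simp at hk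
    obtain ⟨e1, e2, e3, hM⟩ := t2 rfl
    obtain ⟨h1, h2, h3⟩ := hk
    rw [e1, e2, ← e3]
    calc _ = (cnt i 0 2 s + cnt i 1 0 s) * f 0 2 + cnt i 0 1 s * f 0 1 + cnt i 1 1 s * f 1 1 := by
          ring
      _ ≤ k * f 0 2 + k * f 0 1 + k * f 1 1 := by gcongr
      _ = k * (f 0 2 + f 0 1 + f 1 1) := by ring
      _ ≤ k * M := by gcongr
  · simp at hk
    obtain ⟨e1, e2, e3, hM⟩ := t3 rfl
    obtain ⟨h1, h2, h3⟩ := hk
    rw [e1, e2, ← e3]
    calc _ = (cnt i 0 2 s + cnt i 1 1 s) * f 0 2 + cnt i 0 0 s * f 0 0 + cnt i 1 0 s * f 1 0 := by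
          ring
      _ ≤ k * f 0 2 + k * f 0 0 + k * f 1 0 := by gcongr
      _ = k * (f 0 2 + f 0 0 + f 1 0) := by ring
      _ ≤ k * M := by gcongr

lemma zipl_mem (lam : List ℕ) (path : List (ℕ × ℕ)) :
    ∀ h ∈ zipl lam path, h.2 ∈ path := by
  induction lam generalizing path with
  | nil => intro h hh; exact absurd hh (by simp [zipl])
  | cons l ls ih =>
    intro h hh
    cases path with
    | nil => exact absurd hh (by simp [zipl])
    | cons p ps =>
      have e : zipl (l :: ls) (p :: ps) = cond (Nat.beq l 0) (zipl ls ps) ((l, p) :: zipl ls ps) :=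
        rfl
      rw [e] at hh
      cases hb : Nat.beq l 0 with
      | true =>
        rw [hb] at hh
        exact List.mem_cons_of_mem _ (ih ps h hh)
      | false =>
        rw [hb] at hh
        rcases List.mem_cons.1 hh with rfl | hh
        · exact List.mem_cons_self
        · exact List.mem_cons_of_mem _ (ih ps h hh)

/-- the load at position `z` of colour `a` -/
def load (F : ℕ → ℕ → ℕ → ℕ) (z a : ℕ) : ℕ :=
  F 0 (bit z 0) a + F 1 (bit z 1) a + F 2 (bit z 2) a + F 3 (bit z 3) a + F 4 (bit z 4) a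

lemma tot_le (F : ℕ → ℕ → ℕ → ℕ) (B : ℕ) (s : List (ℕ × ℕ × ℕ))
    (hs : ∀ h ∈ s, B ≤ load F h.2.1 h.2.2) :
    tot s * B ≤ val 0 (F 0) s + val 1 (F 1) s + val 2 (F 2) s + val 3 (F 3) s + val 4 (F 4) s := by
  induction s with
  | nil => simp [tot_nil]
  | cons h r ih =>
    have h1 := ih (fun x hx => hs x (List.mem_cons_of_mem _ hx))
    have h2 := hs h List.mem_cons_self
    rw [tot_cons]
    simp only [val]
    have h3 : h.1 * B ≤ h.1 * load F h.2.1 h.2.2 := Nat.mul_le_mul_left _ h2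
    unfold load at h3
    nlinarith

theorem check_sound (ty : ℕ → ℕ) (hty : ∀ i, ty i < 4) (t : ℕ) (F : ℕ → ℕ → ℕ → ℕ)
    (h0 : TyOK (ty 0) (2 * t) (F 0)) (h1 : TyOK (ty 1) (2 * t) (F 1))
    (h2 : TyOK (ty 2) (2 * t) (F 2)) (h3 : TyOK (ty 3) (3 * t) (F 3))
    (h4 : TyOK (ty 4) (3 * t) (F 4)) (A : ℕ → ℕ) (hA : ∀ z, z < 32 → A z < 3)
    (hl : ∀ z, z < 32 → 6 * t + 1 ≤ load F z (A z)) (tr : Tr) :
    ∀ path : List (ℕ × ℕ), (∀ p ∈ path, p.1 < 32 ∧ A p.1 = p.2) →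
      check ty tr path = true → False := by
  induction tr with
  | L k lam =>
    intro path hp hc
    have e : check ty (Tr.L k lam) path = leafOK ty (zipl lam path) k := rfl
    rw [e] at hc
    set s := zipl lam path with hs
    have hmem : ∀ h ∈ s, h.2.1 < 32 ∧ A h.2.1 = h.2.2 := fun h hh => hp h.2 (zipl_mem lam path h hh)
    have hlt3 : ∀ h ∈ s, h.2.2 < 3 := fun h hh => by
      rw [← (hmem h hh).2]; exact hA _ (hmem h hh).1
    have hB : ∀ h ∈ s, 6 * t + 1 ≤ load F h.2.1 h.2.2 := fun h hh => by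
      rw [← (hmem h hh).2]; exact hl _ (hmem h hh).1
    have htot := tot_le F (6 * t + 1) s hB
    unfold leafOK at hc
    simp only [Bool.cond_eq_ite, Bool.if_false_right, Bool.and_eq_true, decide_eq_true_eq] at hc
    obtain ⟨c1, c2, c3, c4, c5, c6, c7⟩ := hc
    have c1' : 0 < tot s := by simpa using c1
    have c2' : 2 * (nth 0 k + (nth 1 k + nth 2 k)) + 3 * (nth 3 k + nth 4 k) ≤ 6 * tot s :=
      Nat.le_of_ble_eq_true c2
    have v0 := kap_sound _ 0 _ (2 * t) (F 0) s hlt3 (hty 0) h0 c3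
    have v1 := kap_sound _ 1 _ (2 * t) (F 1) s hlt3 (hty 1) h1 c4
    have v2 := kap_sound _ 2 _ (2 * t) (F 2) s hlt3 (hty 2) h2 c5
    have v3 := kap_sound _ 3 _ (3 * t) (F 3) s hlt3 (hty 3) h3 c6
    have v4 := kap_sound _ 4 _ (3 * t) (F 4) s hlt3 (hty 4) h4 c7
    have hsum : tot s * (6 * t + 1) ≤ (2 * (nth 0 k + (nth 1 k + nth 2 k)) +
        3 * (nth 3 k + nth 4 k)) * t := by
      calc _ ≤ _ := htot
        _ ≤ nth 0 k * (2 * t) + nth 1 k * (2 * t) + nth 2 k * (2 * t) + nth 3 k * (3 * t) +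
            nth 4 k * (3 * t) := by gcongr
        _ = _ := by ring
    have hsum2 : tot s * (6 * t + 1) ≤ (6 * tot s) * t := hsum.trans (Nat.mul_le_mul_right _ c2')
    have : tot s * (6 * t + 1) = (6 * tot s) * t + tot s := by ring
    omega
  | N z a b c iha ihb ihc =>
    intro path hp hc
    have e : check ty (Tr.N z a b c) path = cond (Nat.blt z 32)
      (cond (check ty a ((z, 0) :: path)) (cond (check ty b ((z, 1) :: path))
        (check ty c ((z, 2) :: path)) false) false) false := rfl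
    rw [e] at hc
    simp only [Bool.cond_eq_ite, Bool.if_false_right, Bool.and_eq_true, decide_eq_true_eq] at hc
    obtain ⟨c1, c2, c3, c4⟩ := hc
    have hz : z < 32 := by simpa using c1
    have key : ∀ x, A z = x → ∀ p ∈ (z, x) :: path, p.1 < 32 ∧ A p.1 = p.2 := by
      intro x hx p hpp
      rcases List.mem_cons.1 hpp with rfl | hpp
      · exact ⟨hz, hx⟩
      · exact hp p hpp
    have h3' := hA z hz
    have : A z = 0 ∨ A z = 1 ∨ A z = 2 := by omega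
    rcases this with h | h | h
    · exact iha _ (key 0 h) c2
    · exact ihb _ (key 1 h) c3
    · exact ihc _ (key 2 h) c4

lemma tyOf_lt (p i : ℕ) : tyOf p i < 4 := Nat.mod_lt _ (by norm_num)

lemma run_sound (cs : List ℕ) : ∀ p : ℕ, run cs p = true → ∀ j, j < cs.length →
    ∃ tr : Tr, check (tyOf (p + j)) tr [] = true := by
  induction cs with
  | nil => intro p _ j hj; exact absurd hj (Nat.not_lt_zero _)
  | cons c cs ih =>
    intro p hp j hj
    have e : run (c :: cs) p = cond (check (tyOf p) (parse 14 0 c).1 [])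
      (run cs (Nat.succ p)) false := rfl
    rw [e] at hp
    simp only [Bool.cond_eq_ite, Bool.if_false_right, Bool.and_eq_true, decide_eq_true_eq] at hp
    cases j with
    | zero => exact ⟨_, hp.1⟩
    | succ j =>
      obtain ⟨tr, htr⟩ := ih (Nat.succ p) hp.2 j (by simpa using hj)
      refine ⟨tr, ?_⟩
      have : Nat.succ p + j = p + (j + 1) := by omega
      rw [← this]
      exact htr

end Pool.Agent.R62.Star
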